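import Mathlib
import Pool.Agent.H715R2.Littlewood

/-! # Joint limit values of `q ‖qα‖ ‖qβ‖` at the columns of integral matrices -/

open Filter Topology Matrix

namespace Pool.Agent.U787.LB

open H715R2

/-- limit vectors of the values of `q ‖qα‖ ‖qβ‖` at the points `γ x 1, ..., γ x m` -/
def JL {m : ℕ} (α β : ℝ) (x : Fin m → Fin 3 → ℤ) : Set (Fin m → ℝ) :=
  {v | ∀ ε : ℝ, 0 < ε → ∃ γ : Matrix (Fin 3) (Fin 3) ℤ, |γ.det| = 1 ∧ ∀ k : Fin m,
    1 / ε < |((γ.mulVec (x k) 0 : ℤ) : ℝ)| ∧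
    |((γ.mulVec (x k) 0 : ℤ) : ℝ) * α - ((γ.mulVec (x k) 1 : ℤ) : ℝ)| < ε ∧
    |((γ.mulVec (x k) 0 : ℤ) : ℝ) * β - ((γ.mulVec (x k) 2 : ℤ) : ℝ)| < ε ∧
    |fL α β (γ.mulVec (x k) 0).natAbs - v k| < ε}

theorem joint {α β ν : ℝ} (hν0 : 0 < ν) {m : ℕ} {x : Fin m → Fin 3 → ℤ} (hx : ∀ k, x k ≠ 0)
    {h : Matrix (Fin 3) (Fin 3) ℝ} (hh : h ∈ YY (LLm α β)) (hnu : HasNu h ν) :
    (fun k => |FF h (iR (x k))|) ∈ JL α β x := by
  intro ε hε
  have hFpos : ∀ k, 0 < |FF h (iR (x k))| := fun k => hν0.trans_le (hnu (x k) (hx k))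
  have hδ : ∀ k, 0 < |(h *ᵥ iR (x k)) 0| := by
    intro k
    rw [abs_pos]
    intro h0
    have := hFpos k
    rw [FF_eq, Fin.prod_univ_three, h0, zero_mul, zero_mul, abs_zero] at this
    exact lt_irrefl _ this
  set ρ : ℝ := ∑ k, ∑ i, |(h *ᵥ iR (x k)) i| + 1 with hρ
  have hsum0 : 0 ≤ ∑ k, ∑ i, |(h *ᵥ iR (x k)) i| :=
    Finset.sum_nonneg fun k _ => Finset.sum_nonneg fun i _ => abs_nonneg _
  have hρ0 : 0 < ρ := by rw [hρ]; linarith
  have hcont : ∀ k i, Continuous (fun h' : Matrix (Fin 3) (Fin 3) ℝ => |(h' *ᵥ iR (x k)) i|) := by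
    intro k i
    refine continuous_abs.comp ?_
    unfold mulVec dotProduct
    exact continuous_finsetSum _ fun j _ => (continuous_apply_apply i j).mul continuous_const
  have hopen : ∀ᶠ h' in 𝓝 h, ∀ k, (|(|FF h' (iR (x k))| - |FF h (iR (x k))|)| < ε) ∧
      (∀ i, |(h' *ᵥ iR (x k)) i| < ρ) ∧ |(h *ᵥ iR (x k)) 0| / 2 < |(h' *ᵥ iR (x k)) 0| := by
    refine Filter.eventually_all.2 fun k => ?_
    refine Filter.Eventually.and ?_ ((Filter.eventually_all.2 fun i => ?_).and ?_)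
    · have hc : Continuous fun h' : Matrix (Fin 3) (Fin 3) ℝ =>
          |(|FF h' (iR (x k))| - |FF h (iR (x k))|)| :=
        continuous_abs.comp ((continuous_abs.comp (continuous_FF (iR (x k)))).sub continuous_const)
      refine (hc.tendsto h).eventually (gt_mem_nhds ?_)
      rw [sub_self, abs_zero]
      exact hε
    · refine ((hcont k i).tendsto h).eventually (gt_mem_nhds ?_)
      have h1 := Finset.single_le_sum (f := fun i => |(h *ᵥ iR (x k)) i|)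
        (fun i _ => abs_nonneg _) (Finset.mem_univ i)
      have h2 := Finset.single_le_sum (f := fun k => ∑ i, |(h *ᵥ iR (x k)) i|)
        (fun k _ => Finset.sum_nonneg fun i _ => abs_nonneg _) (Finset.mem_univ k)
      rw [hρ]; linarith
    · exact ((hcont k 0).tendsto h).eventually (lt_mem_nhds (by linarith [hδ k]))
  obtain ⟨N, hN⟩ := exists_nat_gt (2 * ρ + ρ / ε + ∑ k, (1 / ε) / (|(h *ᵥ iR (x k)) 0| / 2) + 1)
  have hS0 : ∀ k, 0 ≤ (1 / ε) / (|(h *ᵥ iR (x k)) 0| / 2) := fun k => by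
    have := hδ k
    positivity
  have hS : 0 ≤ ∑ k, (1 / ε) / (|(h *ᵥ iR (x k)) 0| / 2) := Finset.sum_nonneg fun k _ => hS0 k
  have hρε : 0 < ρ / ε := by positivity
  have hN1 : 1 < (N : ℝ) := by linarith
  have hmem : h ∈ closure (OrbN (LLm α β) N) := Set.mem_iInter.1 hh N
  obtain ⟨h', h1, ⟨a, γ, ha0, ha1, haN1, haN2, hγ, rfl⟩⟩ :=
    mem_closure_iff_nhds.1 hmem _ hopen
  refine ⟨γ, Int.isUnit_iff_abs_eq.1 hγ, fun k => ?_⟩
  obtain ⟨hk1, hk2, hk3⟩ := h1 k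
  obtain ⟨e0, e1, e2⟩ := orb_mulVec α β a γ (x k)
  set q := (γ *ᵥ x k) 0 with hqdef
  set p := (γ *ᵥ x k) 1 with hpdef
  set r := (γ *ᵥ x k) 2 with hrdef
  have hsmall : ∀ (y b : ℝ), 0 < b → (N : ℝ) ≤ b → b * |y| < ρ → |y| < 1 / 2 ∧ |y| < ε := by
    intro y b hb hNb hy
    constructor
    · by_contra hcon
      push Not at hcon
      nlinarith
    · by_contra hcon
      push Not at hcon
      have h5 : ρ / ε < b := by linarith
      rw [div_lt_iff₀ hε] at h5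
      nlinarith
  have hy1 : |α * q - p| < 1 / 2 ∧ |α * q - p| < ε := by
    have h4 := hk2 1
    rw [e1, abs_mul, abs_of_pos (ha0 1)] at h4
    exact hsmall _ _ (ha0 1) haN1 h4
  have hy2 : |β * q - r| < 1 / 2 ∧ |β * q - r| < ε := by
    have h4 := hk2 2
    rw [e2, abs_mul, abs_of_pos (ha0 2)] at h4
    exact hsmall _ _ (ha0 2) haN2 h4
  refine ⟨?_, ?_, ?_, ?_⟩
  · have h4 := hk3
    rw [e0, abs_mul, abs_of_pos (ha0 0)] at h4
    have h5 : a 0 * (a 1 * a 2) = 1 := by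
      rw [← mul_assoc, ← Fin.prod_univ_three]; exact ha1
    have h6 : (N : ℝ) ≤ a 1 * a 2 := by
      have : (N : ℝ) * 1 ≤ a 1 * a 2 := mul_le_mul haN1 (by linarith) zero_le_one (ha0 1).le
      linarith
    have h7 : a 0 * N ≤ 1 := by
      rw [← h5]; exact mul_le_mul_of_nonneg_left h6 (ha0 0).le
    have h8 : (|(h *ᵥ iR (x k)) 0| / 2) * N < |(q : ℝ)| := by
      have h9 : (|(h *ᵥ iR (x k)) 0| / 2) * N < a 0 * |(q : ℝ)| * N :=
        mul_lt_mul_of_pos_right h4 (by linarith)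
      have h10 : a 0 * |(q : ℝ)| * N = (a 0 * N) * |(q : ℝ)| := by ring
      have h11 : (a 0 * N) * |(q : ℝ)| ≤ 1 * |(q : ℝ)| :=
        mul_le_mul_of_nonneg_right h7 (abs_nonneg _)
      linarith
    have h9 : (1 / ε) / (|(h *ᵥ iR (x k)) 0| / 2) < N := by
      have h10 := Finset.single_le_sum (f := fun k => (1 / ε) / (|(h *ᵥ iR (x k)) 0| / 2))
        (fun k _ => hS0 k) (Finset.mem_univ k)
      linarith
    rw [div_lt_iff₀ (by have := hδ k; positivity)] at h9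
    have h10 : (1 / ε) < |(q : ℝ)| := by linarith
    exact h10
  · rw [mul_comm (q : ℝ) α]; exact hy1.2
  · rw [mul_comm (q : ℝ) β]; exact hy2.2
  · have h4 : fL α β q.natAbs = |FF (diagonal a * LLm α β * zR γ) (iR (x k))| := by
      rw [FF_orb ha1, FF_LLm, fL, dist_round_natAbs α hy1.1, dist_round_natAbs β hy2.1,
        abs_mul, abs_mul, Nat.cast_natAbs, Int.cast_abs]
    rw [h4]
    exact hk1

end Pool.Agent.U787.LB
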