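import Mathlib

/-! # Seven values of a product of three linear forms are dependent -/

open Matrix Filter Topology

namespace Pool.Agent.U787.LB

/-- the polynomial `∏ i, (x 0 + u i 1 * x 1 + u i 2 * x 2)` -/
noncomputable def fpoly (x : Fin 3 → ℤ) : MvPolynomial (Fin 3 × Fin 2) ℚ :=
  ∏ i : Fin 3, ((x 0 : MvPolynomial (Fin 3 × Fin 2) ℚ) + MvPolynomial.X (i, 0) * (x 1 : MvPolynomial (Fin 3 × Fin 2) ℚ)
    + MvPolynomial.X (i, 1) * (x 2 : MvPolynomial (Fin 3 × Fin 2) ℚ))

/-- the determinant of the rows `(1, u i 1, u i 2)` -/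
noncomputable def dpoly : MvPolynomial (Fin 3 × Fin 2) ℚ :=
  (Matrix.of fun i : Fin 3 => ![1, MvPolynomial.X (i, 0), MvPolynomial.X (i, 1)]).det

lemma eval_f (x : Fin 3 → ℤ) (u : Fin 3 × Fin 2 → ℝ) :
    MvPolynomial.aeval u (fpoly x) = ∏ i : Fin 3, ((x 0 : ℝ) + u (i, 0) * x 1 + u (i, 1) * x 2) := by
  unfold fpoly
  rw [map_prod]
  refine Finset.prod_congr rfl fun i _ => ?_
  rw [map_add, map_add, map_mul, map_mul, MvPolynomial.aeval_X, MvPolynomial.aeval_X,
    map_intCast, map_intCast, map_intCast]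

lemma eval_d (u : Fin 3 × Fin 2 → ℝ) :
    MvPolynomial.aeval u dpoly = (Matrix.of fun i : Fin 3 => ![1, u (i, 0), u (i, 1)]).det := by
  unfold dpoly
  rw [AlgHom.map_det]
  congr 1
  ext i j
  fin_cases j <;> simp

lemma dpoly_ne : dpoly ≠ 0 := by
  intro h
  have h1 := eval_d (fun a => if a = (1, 0) then 1 else if a = (2, 1) then 1 else 0)
  rw [h, map_zero, Matrix.det_fin_three] at h1
  simp at h1

abbrev AA := Localization.Away dpoly

instance : IsDomain AA :=
  IsLocalization.isDomain_localization (powers_le_nonZeroDivisors_of_noZeroDivisors dpoly_ne)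

lemma trdeg_AA : Algebra.trdeg ℚ AA = 6 := by
  have hinj : Function.Injective (algebraMap (MvPolynomial (Fin 3 × Fin 2) ℚ) AA) :=
    IsLocalization.injective _ (powers_le_nonZeroDivisors_of_noZeroDivisors dpoly_ne)
  have : FaithfulSMul (MvPolynomial (Fin 3 × Fin 2) ℚ) AA := (faithfulSMul_iff_algebraMap_injective _ _).2 hinj
  have : Algebra.IsAlgebraic (MvPolynomial (Fin 3 × Fin 2) ℚ) AA :=
    IsLocalization.isAlgebraic _ (Submonoid.powers dpoly)
  have h1 := trdeg_add_eq ℚ (MvPolynomial (Fin 3 × Fin 2) ℚ) (A := AA)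
  rw [trdeg_eq_zero (R := MvPolynomial (Fin 3 × Fin 2) ℚ) (A := AA), add_zero, MvPolynomial.trdeg_of_isDomain] at h1
  rw [← h1]
  simp

/-- the element `f / d` of the localization -/
noncomputable def rr (x : Fin 3 → ℤ) : AA :=
  IsLocalization.mk' AA (fpoly x) (⟨dpoly, 1, pow_one _⟩ : Submonoid.powers dpoly)

lemma exists_rel0 {m : ℕ} (hm : 6 < m) (x : Fin m → Fin 3 → ℤ) : ∃ P : MvPolynomial (Fin m) ℚ, P ≠ 0 ∧
    MvPolynomial.aeval (fun k => rr (x k)) P = 0 := by
  have h : ¬ AlgebraicIndependent ℚ (fun k => rr (x k)) := by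
    intro h
    have h1 := h.cardinalMk_le_trdeg
    rw [trdeg_AA, Cardinal.mk_fin] at h1
    have h2 : m ≤ 6 := by exact_mod_cast h1
    omega
  rw [algebraicIndependent_iff] at h
  push Not at h
  obtain ⟨P, hP, hne⟩ := h
  exact ⟨P, hne, hP⟩

lemma rel_u {m : ℕ} {x : Fin m → Fin 3 → ℤ} {P : MvPolynomial (Fin m) ℚ}
    (hP : MvPolynomial.aeval (fun k => rr (x k)) P = 0) (u : Fin 3 × Fin 2 → ℝ)
    (hu : MvPolynomial.aeval u dpoly ≠ 0) :
    MvPolynomial.aeval (fun k => MvPolynomial.aeval u (fpoly (x k)) / MvPolynomial.aeval u dpoly) P = 0 := by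
  have hf : ∀ y : Submonoid.powers dpoly, IsUnit ((MvPolynomial.aeval u : MvPolynomial (Fin 3 × Fin 2) ℚ →ₐ[ℚ] ℝ) y) := by
    rintro ⟨_, n, rfl⟩
    rw [map_pow]
    exact (isUnit_iff_ne_zero.2 hu).pow n
  set φ : AA →ₐ[ℚ] ℝ := IsLocalization.liftAlgHom (M := Submonoid.powers dpoly) (S := AA) hf with hφ
  have h1 : ∀ y : Fin 3 → ℤ, φ (rr y) = MvPolynomial.aeval u (fpoly y) / MvPolynomial.aeval u dpoly := by
    intro y
    rw [eq_div_iff hu, rr]
    have h2 : φ (algebraMap _ AA dpoly) = MvPolynomial.aeval u dpoly := by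
      rw [hφ, IsLocalization.liftAlgHom_apply, IsLocalization.lift_eq]
      rfl
    rw [← h2, ← map_mul, mul_comm, IsLocalization.mk'_spec' (M := Submonoid.powers dpoly) AA (fpoly y) ⟨dpoly, 1, pow_one _⟩]
    rw [hφ, IsLocalization.liftAlgHom_apply, IsLocalization.lift_eq]
    rfl
  have h2 := congrArg φ hP
  have h3 : φ.comp (MvPolynomial.aeval (fun k => rr (x k))) = MvPolynomial.aeval
      (fun k => MvPolynomial.aeval u (fpoly (x k)) / MvPolynomial.aeval u dpoly) := by
    refine MvPolynomial.algHom_ext fun k => ?_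
    rw [AlgHom.comp_apply, MvPolynomial.aeval_X, MvPolynomial.aeval_X, h1]
  rw [← h3, AlgHom.comp_apply, h2, map_zero]

/-- the product of the linear forms given by the rows of `h` -/
noncomputable def Fm (h : Matrix (Fin 3) (Fin 3) ℝ) (x : Fin 3 → ℤ) : ℝ :=
  ∏ i : Fin 3, ∑ j : Fin 3, h i j * (x j : ℝ)

lemma rel_h {m : ℕ} {x : Fin m → Fin 3 → ℤ} {P : MvPolynomial (Fin m) ℚ}
    (hP : MvPolynomial.aeval (fun k => rr (x k)) P = 0) (h : Matrix (Fin 3) (Fin 3) ℝ)
    (h0 : ∀ i, h i 0 ≠ 0) (hd : h.det ≠ 0) :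
    MvPolynomial.aeval (fun k => Fm h (x k) / h.det) P = 0 := by
  set u : Fin 3 × Fin 2 → ℝ := fun a => h a.1 a.2.succ / h a.1 0 with hu
  have h1 : ∀ y : Fin 3 → ℤ, Fm h y = (∏ i, h i 0) * MvPolynomial.aeval u (fpoly y) := by
    intro y
    rw [eval_f, ← Finset.prod_mul_distrib, Fm]
    refine Finset.prod_congr rfl fun i _ => ?_
    rw [Fin.sum_univ_three]
    have hi := h0 i
    simp only [hu]
    have e1 : (Fin.succ (0 : Fin 2) : Fin 3) = 1 := rfl
    have e2 : (Fin.succ (1 : Fin 2) : Fin 3) = 2 := rfl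
    rw [e1, e2]
    field_simp
  have h2 : h.det = (∏ i, h i 0) * MvPolynomial.aeval u dpoly := by
    rw [eval_d, Matrix.det_fin_three, Matrix.det_fin_three, Fin.prod_univ_three]
    have ha := h0 0
    have hb := h0 1
    have hc := h0 2
    have e1 : (Fin.succ (0 : Fin 2) : Fin 3) = 1 := rfl
    have e2 : (Fin.succ (1 : Fin 2) : Fin 3) = 2 := rfl
    simp [hu, e1, e2]
    field_simp
  have hp : (∏ i, h i 0) ≠ 0 := Finset.prod_ne_zero_iff.2 fun i _ => h0 i
  have hd' : MvPolynomial.aeval u dpoly ≠ 0 := fun h3 => hd (by rw [h2, h3, mul_zero])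
  have h3 : (fun k => Fm h (x k) / h.det) = fun k =>
      MvPolynomial.aeval u (fpoly (x k)) / MvPolynomial.aeval u dpoly := by
    funext k
    rw [h1, h2, mul_div_mul_left _ _ hp]
  rw [h3]
  exact rel_u hP u hd'

lemma rel_all {m : ℕ} {x : Fin m → Fin 3 → ℤ} {P : MvPolynomial (Fin m) ℚ}
    (hP : MvPolynomial.aeval (fun k => rr (x k)) P = 0) (h : Matrix (Fin 3) (Fin 3) ℝ)
    (hd : h.det ≠ 0) :
    MvPolynomial.aeval (fun k => Fm h (x k) / h.det) P = 0 := by
  set H : ℝ → Matrix (Fin 3) (Fin 3) ℝ := fun t => Matrix.of fun i j => h i j + if j = 0 then t else 0 with hH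
  have hH0 : H 0 = h := by
    ext i j
    simp [hH]
  have hHc : Continuous H := by
    refine continuous_matrix fun i j => ?_
    simp only [hH, Matrix.of_apply]
    split_ifs
    · fun_prop
    · fun_prop
  have hdc : Continuous fun t => (H t).det := hHc.matrix_det
  have hev1 : ∀ᶠ t in 𝓝[≠] (0 : ℝ), (H t).det ≠ 0 := by
    refine (hdc.tendsto 0).eventually_ne ?_ |>.filter_mono nhdsWithin_le_nhds
    rw [hH0]; exact hd
  have hev2 : ∀ᶠ t in 𝓝[≠] (0 : ℝ), ∀ i, H t i 0 ≠ 0 := by
    refine Filter.eventually_all.2 fun i => ?_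
    simp only [hH, Matrix.of_apply, if_true]
    by_cases hi : h i 0 = 0
    · filter_upwards [self_mem_nhdsWithin] with t ht
      rw [hi, zero_add]
      exact ht
    · have hc : Continuous fun t : ℝ => h i 0 + t := by fun_prop
      have := (hc.tendsto 0).eventually_ne (b₂ := (0 : ℝ)) (by rwa [add_zero])
      exact this.filter_mono nhdsWithin_le_nhds
  have hFc : ∀ y, Continuous fun t => Fm (H t) y := by
    intro y
    unfold Fm
    refine continuous_finsetProd _ fun i _ => continuous_finsetSum _ fun j _ => ?_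
    exact (hHc.matrix_elem i j).mul continuous_const
  have hlim : Tendsto (fun t => MvPolynomial.aeval (fun k => Fm (H t) (x k) / (H t).det) P)
      (𝓝[≠] (0 : ℝ)) (𝓝 (MvPolynomial.aeval (fun k => Fm h (x k) / h.det) P)) := by
    have hca : ContinuousAt (fun t => (fun k => Fm (H t) (x k) / (H t).det : Fin m → ℝ)) 0 := by
      refine continuousAt_pi.2 fun k => ?_
      refine ((hFc (x k)).continuousAt).div hdc.continuousAt ?_
      rw [hH0]; exact hd
    have hcp : Continuous fun v : Fin m → ℝ => MvPolynomial.aeval v P := by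
      have : (fun v : Fin m → ℝ => MvPolynomial.aeval v P) =
          fun v => MvPolynomial.eval v (MvPolynomial.map (algebraMap ℚ ℝ) P) := by
        funext v
        rw [MvPolynomial.eval_map, MvPolynomial.aeval_def]
      rw [this]
      exact MvPolynomial.continuous_eval _
    have h2 := (hcp.continuousAt.comp hca).tendsto
    simp only [Function.comp_def, hH0] at h2
    exact h2.mono_left nhdsWithin_le_nhds
  have hz : (fun t => MvPolynomial.aeval (fun k => Fm (H t) (x k) / (H t).det) P)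
      =ᶠ[𝓝[≠] (0 : ℝ)] fun _ => 0 := by
    filter_upwards [hev1, hev2] with t h1 h2
    exact rel_h hP (H t) h2 h1
  exact tendsto_nhds_unique hlim (tendsto_const_nhds.congr' hz.symm)

/-- more than six values of the absolute value of a product of three forms with determinant `±1` satisfy a
polynomial relation, which depends only on the points -/
theorem seven {m : ℕ} (hm : 6 < m) (x : Fin m → Fin 3 → ℤ) : ∃ P : MvPolynomial (Fin m) ℚ, P ≠ 0 ∧
    ∀ h : Matrix (Fin 3) (Fin 3) ℝ, |h.det| = 1 →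
      MvPolynomial.aeval (fun k => |Fm h (x k)|) P = 0 := by
  classical
  obtain ⟨P, hP, hr⟩ := exists_rel0 hm x
  set sb : (Fin m → ℤˣ) → MvPolynomial (Fin m) ℚ →ₐ[ℚ] MvPolynomial (Fin m) ℚ := fun σ =>
    MvPolynomial.aeval (fun k => MvPolynomial.C (((σ k : ℤ) : ℚ)) * MvPolynomial.X k) with hsb
  have hsbsb : ∀ σ (Q : MvPolynomial (Fin m) ℚ), sb σ (sb σ Q) = Q := by
    intro σ Q
    have h1 : (sb σ).comp (sb σ) = AlgHom.id ℚ _ := by
      refine MvPolynomial.algHom_ext fun k => ?_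
      simp only [hsb, AlgHom.comp_apply, MvPolynomial.aeval_X, map_mul, AlgHom.id_apply]
      rw [← MvPolynomial.algebraMap_eq, AlgHom.commutes, ← mul_assoc, ← map_mul]
      have h2 : (((σ k : ℤ) : ℚ)) * (((σ k : ℤ) : ℚ)) = 1 := by
        rw [← Int.cast_mul, ← Units.val_mul]
        simp
      rw [h2, map_one, one_mul]
    exact DFunLike.congr_fun h1 Q
  refine ⟨∏ σ : Fin m → ℤˣ, sb σ P, ?_, ?_⟩
  · rw [Finset.prod_ne_zero_iff]
    intro σ _ h0
    apply hP
    rw [← hsbsb σ P, h0, map_zero]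
  · intro h hdet
    have hd : h.det ≠ 0 := by
      intro h0
      rw [h0, abs_zero] at hdet
      exact zero_ne_one hdet
    have hsg : ∀ k, ∃ s : ℤˣ, Fm h (x k) / h.det = ((s : ℤ) : ℝ) * |Fm h (x k)| := by
      intro k
      have hdd : h.det = 1 ∨ h.det = -1 := by
        rcases abs_eq (zero_le_one' ℝ) |>.1 hdet with h1 | h1
        · exact Or.inl h1
        · exact Or.inr h1
      rcases hdd with h1 | h1 <;> rcases abs_cases (Fm h (x k)) with ⟨h2, -⟩ | ⟨h2, -⟩
      · exact ⟨1, by rw [h1, h2]; push_cast; ring⟩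
      · exact ⟨-1, by rw [h1, h2]; push_cast; ring⟩
      · exact ⟨-1, by rw [h1, h2]; push_cast; ring⟩
      · exact ⟨1, by rw [h1, h2]; push_cast; ring⟩
    choose s hs using hsg
    rw [map_prod]
    refine Finset.prod_eq_zero (Finset.mem_univ s) ?_
    have h1 : MvPolynomial.aeval (fun k => |Fm h (x k)|) (sb s P) =
        MvPolynomial.aeval (fun k => Fm h (x k) / h.det) P := by
      have h2 : ((MvPolynomial.aeval (fun k => |Fm h (x k)|) : MvPolynomial (Fin m) ℚ →ₐ[ℚ] ℝ).comp (sb s)) =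
          MvPolynomial.aeval (fun k => Fm h (x k) / h.det) := by
        refine MvPolynomial.algHom_ext fun k => ?_
        simp only [hsb, AlgHom.comp_apply, MvPolynomial.aeval_X, map_mul]
        rw [← MvPolynomial.algebraMap_eq, AlgHom.commutes, hs k]
        simp
      exact DFunLike.congr_fun h2 P
    rw [h1]
    exact rel_all hr h hd

end Pool.Agent.U787.LB
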