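import Mathlib
import Pool.Agent.R503.CSD.Bas

/-! # Six free points -/

open Filter Topology Matrix

namespace Pool.Agent.U787.LB

open Pool.Agent.R503.CSD

/-- the points `e 1, e 2, e 3, e 1 + e 2, e 1 + e 3, e 2 + e 3` -/
def six : Fin 6 → Fin 3 → ℤ :=
  ![![1, 0, 0], ![0, 1, 0], ![0, 0, 1], ![1, 1, 0], ![1, 0, 1], ![0, 1, 1]]

def hs : Fin 3 → Fin 3 → ℝ := ![![1, 1, 1], ![-2, 1, 1], ![-1, -1, 3]]

lemma lf_hs (i : Fin 3) (k : Fin 6) : lf i (six k) hs =
    (![![1, 1, 1, 2, 2, 2], ![-2, 1, 1, -1, -1, 2], ![-1, -1, 3, -2, 2, 2]] : Fin 3 → Fin 6 → ℝ) i k := by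
  unfold lf
  rw [Fin.sum_univ_three]
  fin_cases i <;> fin_cases k <;> simp [hs, six] <;> norm_num

lemma dt_hs : dt hs ≠ 0 := by
  have : dt hs = 12 := by
    unfold dt
    rw [Matrix.det_fin_three]
    simp [hs]
    norm_num
  rw [this]
  norm_num

theorem free_six : Free six := by
  have hl : ∀ i k, lf i (six k) hs ≠ 0 := by
    intro i k
    rw [lf_hs]
    fin_cases i <;> fin_cases k <;> simp
  refine ⟨hs, dt_hs, surj_of_ann dt_hs hl fun c hc => ?_⟩
  have hr : ∀ k, ratio six hs k ≠ 0 := by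
    intro k
    refine div_ne_zero ?_ dt_hs
    rw [FV_eq]
    exact Finset.prod_ne_zero_iff.2 fun i _ => hl i k
  set e : Fin 6 → ℝ := fun k => c k * ratio six hs k with he
  have h1 : ∀ i j : Fin 3, i ≠ j → ∑ k, e k * (lf j (six k) hs / lf i (six k) hs) = 0 := by
    intro i j hij
    rw [← hc i j hij]
    refine Finset.sum_congr rfl fun k _ => ?_
    simp only [he]
    ring
  simp only [lf_hs, Fin.sum_univ_six] at h1
  have h01 := h1 0 1 (by decide)
  have h02 := h1 0 2 (by decide)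
  have h10 := h1 1 0 (by decide)
  have h12 := h1 1 2 (by decide)
  have h20 := h1 2 0 (by decide)
  have h21 := h1 2 1 (by decide)
  simp at h01 h02 h10 h12 h20 h21
  have e0 : e 0 = 0 := by linarith
  have e1 : e 1 = 0 := by linarith
  have e2 : e 2 = 0 := by linarith
  have e3 : e 3 = 0 := by linarith
  have e4 : e 4 = 0 := by linarith
  have e5 : e 5 = 0 := by linarith
  funext k
  have h2 : e k = 0 := by
    fin_cases k
    · exact e0
    · exact e1
    · exact e2
    · exact e3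
    · exact e4
    · exact e5
  exact (mul_eq_zero.1 h2).resolve_right (hr k)

end Pool.Agent.U787.LB
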