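import Mathlib
import Pool.Agent.U787.LB1
import Pool.Agent.U787.LB2
import Pool.Agent.U787.LB3

/-! # The joint limit values of a counterexample to Littlewood's conjecture are thick -/

open Filter Topology Matrix Set

set_option linter.unusedSectionVars false

namespace Pool.Agent.U787.LB

open H715R2 Pool.Agent.Y327 Pool.Agent.R503.CSD

variable {m : ℕ}

/-- the positive octant -/
def Oct (m : ℕ) : Set (Fin m → ℝ) := {v | ∀ k, 0 < v k}

lemma isOpen_oct : IsOpen (Oct m) := by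
  have : Oct m = ⋂ k : Fin m, {v : Fin m → ℝ | 0 < v k} := by
    ext v; simp [Oct]
  rw [this]
  exact isOpen_iInter_of_finite fun k => isOpen_lt continuous_const (continuous_apply k)

lemma convex_oct : Convex ℝ (Oct m) := by
  intro a ha b hb s t hs ht hst k
  have h1 := ha k
  have h2 := hb k
  simp only [Pi.add_apply, Pi.smul_apply, smul_eq_mul]
  rcases hs.eq_or_lt with h | h
  · have : t = 1 := by linarith
    rw [← h, this]; linarith
  · have := mul_pos h h1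
    have := mul_nonneg ht h2.le
    linarith

lemma isClosed_JL (α β : ℝ) (x : Fin m → Fin 3 → ℤ) : IsClosed (JL α β x) := by
  rw [← closure_subset_iff_isClosed]
  intro v hv ε hε
  obtain ⟨w, hw, hvw⟩ := Metric.mem_closure_iff.1 hv (ε / 2) (by positivity)
  obtain ⟨γ, hγ, h⟩ := hw (ε / 2) (by positivity)
  refine ⟨γ, hγ, fun k => ?_⟩
  obtain ⟨h1, h2, h3, h4⟩ := h k
  refine ⟨lt_of_le_of_lt ?_ h1, by linarith, by linarith, ?_⟩
  · rw [div_le_div_iff₀ hε (by positivity)]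
    linarith
  · have h5 : |v k - w k| < ε / 2 := lt_of_le_of_lt (dist_le_pi_dist v w k) hvw
    have h6 := abs_sub_le (fL α β (γ.mulVec (x k) 0).natAbs) (w k) (v k)
    rw [abs_sub_comm (w k) (v k)] at h6
    linarith

/-- the absolute values of the values of `h` -/
noncomputable def AV (x : Fin m → Fin 3 → ℤ) (h : Matrix (Fin 3) (Fin 3) ℝ) : Fin m → ℝ :=
  fun k => |FF h (iR (x k))|

/-- the data of a minimal set of limits of a counterexample -/
structure Dat (α β ν : ℝ) (M : Set (Matrix (Fin 3) (Fin 3) ℝ)) (g : Matrix (Fin 3) (Fin 3) ℝ) :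
    Prop where
  hν : 0 < ν
  sub : M ⊆ YY (LLm α β)
  det : g.det ≠ 0
  nu : HasNu g ν
  hint : ¬ PropInt g
  hMg : M ⊆ closure (Orb g)
  hM : MinB id M
  mnu : ∀ h ∈ M, HasNu h ν

/-- sign change -/
noncomputable def sg (s : Fin m → ℝ) : (Fin m → ℝ) →L[ℝ] (Fin m → ℝ) :=
  ContinuousLinearMap.pi fun k => s k • ContinuousLinearMap.proj (R := ℝ) (φ := fun _ : Fin m => ℝ) k

lemma sg_apply (s : Fin m → ℝ) (y : Fin m → ℝ) (k : Fin m) : sg s y k = s k * y k := rfl

lemma sg_sg {s : Fin m → ℝ} (hs : ∀ k, s k * s k = 1) (y : Fin m → ℝ) : sg s (sg s y) = y := by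
  funext k
  rw [sg_apply, sg_apply, ← mul_assoc, hs, one_mul]

lemma exists_sign (y : Fin m → ℝ) : ∃ s : Fin m → ℝ, (∀ k, s k * s k = 1) ∧
    (∀ k, s k * y k = |y k|) := by
  have : ∀ k, ∃ s : ℝ, s * s = 1 ∧ s * y k = |y k| := by
    intro k
    rcases abs_cases (y k) with ⟨h, -⟩ | ⟨h, -⟩
    · exact ⟨1, by norm_num, by rw [h, one_mul]⟩
    · exact ⟨-1, by norm_num, by rw [h]; ring⟩
  choose s hs1 hs2 using this
  exact ⟨s, hs1, hs2⟩

lemma AV_eq {s : Fin m → ℝ} (hs : ∀ k, s k * s k = 1) {x : Fin m → Fin 3 → ℤ}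
    {h : Fin 3 → Fin 3 → ℝ} (hp : ∀ k, 0 < s k * FV x h k) :
    sg s (FV x h) = AV x (Matrix.of h) := by
  funext k
  rw [sg_apply]
  have h1 : |s k| = 1 := by
    have h2 := congrArg abs (hs k)
    rw [abs_mul, abs_one] at h2
    nlinarith [abs_nonneg (s k)]
  have h2 := abs_of_pos (hp k)
  rw [abs_mul, h1, one_mul] at h2
  exact h2.symm

section
variable {α β ν : ℝ} {M : Set (Matrix (Fin 3) (Fin 3) ℝ)} {g : Matrix (Fin 3) (Fin 3) ℝ}

lemma AV_pos (D : Dat α β ν M g) {x : Fin m → Fin 3 → ℤ} (hx : ∀ k, x k ≠ 0)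
    {h : Matrix (Fin 3) (Fin 3) ℝ} (hh : h ∈ M) (k : Fin m) : ν ≤ AV x h k :=
  D.mnu h hh (x k) (hx k)

/-- analytic functions -/
theorem thick (D : Dat α β ν M g) {x : Fin m → Fin 3 → ℤ} (hx : ∀ k, x k ≠ 0) (hfree : Free x)
    {V : Set (Fin m → ℝ)} (hV : IsOpen V) (hVc : IsPreconnected V) {φ : (Fin m → ℝ) → ℝ}
    (hφ : AnalyticOnNhd ℝ φ V) (hne : (V ∩ AV x '' M).Nonempty)
    (hz : ∀ v ∈ V ∩ AV x '' M, φ v = 0) : ∀ v ∈ V, φ v = 0 := by
  obtain ⟨y₁, hy₁V, ⟨h₁', hh₁, rfl⟩⟩ := hne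
  obtain ⟨h₁, rfl⟩ : ∃ h₁ : Fin 3 → Fin 3 → ℝ, Matrix.of h₁ = h₁' := ⟨h₁', rfl⟩
  have hpos : AV x (Matrix.of h₁) ∈ Oct m := fun k => D.hν.trans_le (AV_pos D hx hh₁ k)
  obtain ⟨r, hr, hball⟩ := Metric.isOpen_iff.1 (hV.inter isOpen_oct) (AV x (Matrix.of h₁))
    ⟨hy₁V, hpos⟩
  set B := Metric.ball (AV x (Matrix.of h₁)) r with hB
  obtain ⟨s, hs1, hs2⟩ := exists_sign (FV x h₁)
  have hs3 : sg s (FV x h₁) = AV x (Matrix.of h₁) := by
    funext k
    rw [sg_apply, hs2]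
    rfl
  have hV' : IsOpen (sg s ⁻¹' B) := Metric.isOpen_ball.preimage (sg s).continuous
  have hVc' : IsPreconnected (sg s ⁻¹' B) := by
    have h1 : sg s ⁻¹' B = sg s '' B := by
      ext y
      constructor
      · intro hy
        exact ⟨sg s y, hy, sg_sg hs1 y⟩
      · rintro ⟨z, hz, rfl⟩
        show sg s (sg s z) ∈ B
        rw [sg_sg hs1]
        exact hz
    rw [h1]
    exact (convex_ball _ r).isPreconnected.image _ (sg s).continuous.continuousOn
  have hφ' : AnalyticOnNhd ℝ (φ ∘ sg s) (sg s ⁻¹' B) := fun y hy =>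
    (hφ (sg s y) (hball hy).1).comp ((sg s).analyticAt y)
  have hmem₁ : FV x h₁ ∈ sg s ⁻¹' B := by
    show sg s (FV x h₁) ∈ B
    rw [hs3]
    exact Metric.mem_ball_self hr
  have hz' : ∀ h : Fin 3 → Fin 3 → ℝ, Matrix.of h ∈ M → FV x h ∈ sg s ⁻¹' B →
      (φ ∘ sg s) (FV x h) = 0 := by
    intro h hh hhB
    have h1 : sg s (FV x h) ∈ V ∩ Oct m := hball hhB
    have h2 : sg s (FV x h) = AV x (Matrix.of h) := AV_eq hs1 fun k => h1.2 k
    show φ (sg s (FV x h)) = 0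
    rw [h2]
    rw [h2] at h1
    exact hz _ ⟨h1.1, ⟨_, hh, rfl⟩⟩
  have hall := analytic_values le_rfl (by norm_num) D.det D.hν D.nu D.hint D.hMg D.hM hfree hV' hVc'
    hφ' hz' hh₁ hmem₁
  have hB0 : ∀ y ∈ B, φ y = 0 := by
    intro y hy
    have h1 := hall (sg s y) (by
      show sg s (sg s y) ∈ B
      rw [sg_sg hs1]; exact hy)
    simp only [Function.comp_apply, sg_sg hs1] at h1
    exact h1
  refine hφ.eqOn_zero_of_preconnected_of_eventuallyEq_zero hVc hy₁V ?_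
  filter_upwards [Metric.ball_mem_nhds _ hr] with y hy
  exact hB0 y hy

/-- smooth functions -/
theorem flat (D : Dat α β ν M g) (hm : m < 3) {x : Fin m → Fin 3 → ℤ}
    (hx : LinearIndependent ℝ (fun k => iR (x k)))
    {V : Set (Fin m → ℝ)} (hV : IsOpen V) {φ : (Fin m → ℝ) → ℝ} {r : WithTop ℕ∞}
    (hφ : ContDiffOn ℝ r φ V) (hz : ∀ v ∈ V ∩ AV x '' M, φ v = 0) (q : ℕ)
    (hq : (q : WithTop ℕ∞) ≤ r) : ∀ v ∈ V ∩ AV x '' M, iteratedFDeriv ℝ q φ v = 0 := by
  have hx0 : ∀ k, x k ≠ 0 := fun k => ne_zero_of_indep hx k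
  rintro _ ⟨hy₁V, ⟨h₁', hh₁, rfl⟩⟩
  obtain ⟨h₁, rfl⟩ : ∃ h₁ : Fin 3 → Fin 3 → ℝ, Matrix.of h₁ = h₁' := ⟨h₁', rfl⟩
  have hpos : AV x (Matrix.of h₁) ∈ Oct m := fun k => D.hν.trans_le (AV_pos D hx0 hh₁ k)
  obtain ⟨s, hs1, hs2⟩ := exists_sign (FV x h₁)
  have hs3 : sg s (FV x h₁) = AV x (Matrix.of h₁) := by
    funext k
    rw [sg_apply, hs2]
    rfl
  have hV' : IsOpen (sg s ⁻¹' (V ∩ Oct m)) := (hV.inter isOpen_oct).preimage (sg s).continuous
  have hφ' : ContDiffOn ℝ r (φ ∘ sg s) (sg s ⁻¹' (V ∩ Oct m)) :=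
    (hφ.mono inter_subset_left).comp (sg s).contDiff.contDiffOn (fun y hy => hy)
  have hmem₁ : FV x h₁ ∈ sg s ⁻¹' (V ∩ Oct m) := by
    show sg s (FV x h₁) ∈ V ∩ Oct m
    rw [hs3]
    exact ⟨hy₁V, hpos⟩
  have hz' : ∀ h : Fin 3 → Fin 3 → ℝ, Matrix.of h ∈ M → FV x h ∈ sg s ⁻¹' (V ∩ Oct m) →
      (φ ∘ sg s) (FV x h) = 0 := by
    intro h hh hhB
    have h1 : sg s (FV x h) ∈ V ∩ Oct m := hhB
    have h2 : sg s (FV x h) = AV x (Matrix.of h) := AV_eq hs1 fun k => h1.2 k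
    show φ (sg s (FV x h)) = 0
    rw [h2]
    rw [h2] at h1
    exact hz _ ⟨h1.1, ⟨_, hh, rfl⟩⟩
  have h1 := flat_values le_rfl (by norm_num) D.det D.hν D.nu D.hint D.hMg D.hM hm hx hV' hφ' hz'
    q hq h₁ hh₁ hmem₁
  set G : (Fin m → ℝ) ≃L[ℝ] (Fin m → ℝ) := ContinuousLinearEquiv.equivOfInverse (sg s) (sg s)
    (sg_sg hs1) (sg_sg hs1) with hG
  have h2 := G.iteratedFDerivWithin_comp_right φ (s := Set.univ) uniqueDiffOn_univ
    (x := FV x h₁) (Set.mem_univ _) q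
  rw [Set.preimage_univ, iteratedFDerivWithin_univ, iteratedFDerivWithin_univ] at h2
  have h3 : (φ ∘ (G : (Fin m → ℝ) → (Fin m → ℝ))) = φ ∘ sg s := rfl
  rw [h3, h1] at h2
  have h4 : G (FV x h₁) = AV x (Matrix.of h₁) := hs3
  rw [h4] at h2
  ext w
  have h5 := congrArg (fun T : ContinuousMultilinearMap ℝ (fun _ : Fin q => Fin m → ℝ) ℝ =>
    T (fun i => sg s (w i))) h2
  simp only [ContinuousMultilinearMap.zero_apply,
    ContinuousMultilinearMap.compContinuousLinearMap_apply] at h5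
  have h6 : (fun i => (G : (Fin m → ℝ) →L[ℝ] (Fin m → ℝ)) (sg s (w i))) = w := by
    funext i
    exact sg_sg hs1 (w i)
  rw [h6] at h5
  rw [← h5]
  rfl

/-- a limit vector at which none of countably many analytic functions vanishes -/
theorem baire (D : Dat α β ν M g) {x : Fin m → Fin 3 → ℤ} (hx : ∀ k, x k ≠ 0) (hfree : Free x)
    {ι : Type*} [Countable ι] {φ : ι → (Fin m → ℝ) → ℝ}
    (hφ : ∀ n, AnalyticOnNhd ℝ (φ n) (Oct m)) (hne : ∀ n, ∃ v ∈ Oct m, φ n v ≠ 0)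
    {W : Set (Fin m → ℝ)} (hW : IsOpen W) (hWne : (W ∩ AV x '' M).Nonempty) :
    ∃ v ∈ W ∩ closure (AV x '' M), v ∈ Oct m ∧ ∀ n, φ n v ≠ 0 := by
  set P := closure (AV x '' M) with hP
  have hPo : P ⊆ Oct m := by
    have h1 : P ⊆ ⋂ k : Fin m, {v : Fin m → ℝ | ν ≤ v k} := by
      refine closure_minimal ?_ (isClosed_iInter fun k => isClosed_le continuous_const
        (continuous_apply k))
      rintro _ ⟨h, hh, rfl⟩
      exact Set.mem_iInter.2 fun k => AV_pos D hx hh k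
    intro v hv k
    exact D.hν.trans_le (Set.mem_iInter.1 (h1 hv) k)
  have hPc : IsClosed P := isClosed_closure
  have : CompleteSpace P := hPc.completeSpace_coe
  have hopen : ∀ n, IsOpen {v : P | φ n v ≠ 0} := by
    intro n
    have hc : Continuous fun v : P => φ n v := by
      have h1 : ContinuousOn (φ n) P := (hφ n).continuousOn.mono hPo
      exact continuousOn_iff_continuous_restrict.1 h1
    exact isOpen_ne_fun hc continuous_const
  have hdense : ∀ n, Dense {v : P | φ n v ≠ 0} := by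
    intro n
    rw [dense_iff_inter_open]
    intro U hU hUne
    obtain ⟨U', hU', rfl⟩ := isOpen_induced_iff.1 hU
    obtain ⟨⟨v, hv⟩, hvU⟩ := hUne
    obtain ⟨w, hwU, hw⟩ := mem_closure_iff.1 hv U' hU' hvU
    by_contra hcon
    rw [Set.not_nonempty_iff_eq_empty, Set.eq_empty_iff_forall_notMem] at hcon
    have hwo : w ∈ Oct m := hPo (subset_closure hw)
    obtain ⟨r, hr, hball⟩ := Metric.isOpen_iff.1 (hU'.inter isOpen_oct) w ⟨hwU, hwo⟩
    have h1 := thick D hx hfree Metric.isOpen_ball (convex_ball w r).isPreconnected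
      ((hφ n).mono fun y hy => (hball hy).2) ⟨w, Metric.mem_ball_self hr, hw⟩ (by
        rintro y ⟨hy1, hy2⟩
        by_contra hne'
        exact hcon ⟨y, subset_closure hy2⟩ ⟨(hball hy1).1, hne'⟩)
    obtain ⟨z, hz, hz0⟩ := hne n
    refine hz0 ((hφ n).eqOn_zero_of_preconnected_of_eventuallyEq_zero convex_oct.isPreconnected hwo
      ?_ hz)
    filter_upwards [Metric.ball_mem_nhds w hr] with y hy
    exact h1 y hy
  have hD := dense_iInter_of_isOpen hopen hdense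
  obtain ⟨y, hyW, hy⟩ := hWne
  obtain ⟨⟨v, hv⟩, hvW, hv2⟩ := hD.inter_open_nonempty (Subtype.val ⁻¹' W)
    (hW.preimage continuous_subtype_val) ⟨⟨y, subset_closure hy⟩, hyW⟩
  exact ⟨v, ⟨hvW, hv⟩, hPo hv, fun n => Set.mem_iInter.1 hv2 n⟩

/-- algebraically independent limit values -/
theorem alg_indep (D : Dat α β ν M g) {x : Fin m → Fin 3 → ℤ} (hx : ∀ k, x k ≠ 0)
    (hfree : Free x) (k : Subfield ℝ) (hk : (k : Set ℝ).Countable)
    {W : Set (Fin m → ℝ)} (hW : IsOpen W) (hWne : (W ∩ AV x '' M).Nonempty) :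
    ∃ v ∈ W ∩ closure (AV x '' M), v ∈ Oct m ∧ AlgebraicIndependent k v := by
  have : Countable k := hk.to_subtype
  have : Countable {p : MvPolynomial (Fin m) k // p ≠ 0} := by
    have : Countable (MvPolynomial (Fin m) k) := by
      rw [← Cardinal.mk_le_aleph0_iff]
      refine (MvPolynomial.cardinalMk_le_max (σ := Fin m) (R := k)).trans ?_
      refine max_le (max_le ?_ ?_) le_rfl
      · exact Cardinal.mk_le_aleph0_iff.2 inferInstance
      · exact Cardinal.mk_le_aleph0_iff.2 inferInstance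
    infer_instance
  have hev : ∀ (p : MvPolynomial (Fin m) k) (v : Fin m → ℝ), MvPolynomial.aeval v p =
      MvPolynomial.eval v (MvPolynomial.map (algebraMap k ℝ) p) := by
    intro p v
    rw [MvPolynomial.eval_map, MvPolynomial.aeval_def]
  obtain ⟨v, hv1, hv2, hv3⟩ := baire D hx hfree
    (φ := fun (p : {p : MvPolynomial (Fin m) k // p ≠ 0}) v => MvPolynomial.aeval v p.1) (by
      intro p
      simp only [hev]
      exact (AnalyticOnNhd.eval_mvPolynomial _).mono (Set.subset_univ _)) (by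
      rintro ⟨p, hp⟩
      by_contra hcon
      push Not at hcon
      have hinj : Function.Injective (MvPolynomial.map (σ := Fin m) (algebraMap k ℝ)) :=
        MvPolynomial.map_injective _ (algebraMap k ℝ).injective
      apply hp
      apply hinj
      rw [map_zero]
      refine MvPolynomial.funext_set (s := fun _ : Fin m => Set.Ioi (0 : ℝ)) (fun _ => Set.Ioi_infinite 0) ?_
      intro v hv
      rw [← hev, map_zero]
      exact hcon v fun k => hv k (Set.mem_univ k)) hW hWne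
  refine ⟨v, hv1, hv2, ?_⟩
  rw [algebraicIndependent_iff]
  intro p hp
  by_contra hne
  exact hv3 ⟨p, hne⟩ hp

end

end Pool.Agent.U787.LB
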