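import Mathlib

/-! # Counting good approximations of a pair with `q ‖qα‖ ‖qβ‖ ≥ ν` -/

set_option autoImplicit false

open Finset

namespace Pool.Agent.U787.LA

/-- signed distance to the nearest integer -/
noncomputable def sd (x : ℝ) : ℝ := x - (round x : ℝ)

/-- `q ‖qα‖ ‖qβ‖` -/
noncomputable def lw (α β : ℝ) (q : ℕ) : ℝ :=
  (q : ℝ) * |sd ((q : ℝ) * α)| * |sd ((q : ℝ) * β)|

/-- the hypothesis -/
def Bad (ν α β : ℝ) : Prop := ∀ q : ℕ, 1 ≤ q → ν ≤ lw α β q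

lemma sd_le (x : ℝ) (z : ℤ) : |sd x| ≤ |x - z| := round_le x z

lemma sd_half (x : ℝ) : |sd x| ≤ 1 / 2 := abs_sub_round x

section
variable {ν α β : ℝ}

lemma Bad.a_ne (hν : 0 < ν) (H : Bad ν α β) {q : ℕ} (hq : 1 ≤ q) : 0 < |sd ((q : ℝ) * α)| := by
  have h := H q hq
  rcases (abs_nonneg (sd ((q : ℝ) * α))).eq_or_lt with h0 | h0
  · rw [lw, ← h0] at h; simp at h; linarith
  · exact h0

lemma Bad.b_ne (hν : 0 < ν) (H : Bad ν α β) {q : ℕ} (hq : 1 ≤ q) : 0 < |sd ((q : ℝ) * β)| := by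
  have h := H q hq
  rcases (abs_nonneg (sd ((q : ℝ) * β))).eq_or_lt with h0 | h0
  · rw [lw, ← h0] at h; simp at h; linarith
  · exact h0

/-- difference of two approximations -/
lemma lw_sub_le {q q' : ℕ} (hqq : q < q') {a b : ℝ}
    (ha : |sd ((q' : ℝ) * α) - sd ((q : ℝ) * α)| ≤ a)
    (hb : |sd ((q' : ℝ) * β) - sd ((q : ℝ) * β)| ≤ b) :
    lw α β (q' - q) ≤ q' * a * b := by
  have hcast : ((q' - q : ℕ) : ℝ) = (q' : ℝ) - q := by
    rw [Nat.cast_sub hqq.le]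
  have h1 : |sd (((q' - q : ℕ) : ℝ) * α)| ≤ a := by
    refine (sd_le _ (round ((q' : ℝ) * α) - round ((q : ℝ) * α))).trans (le_trans (le_of_eq ?_) ha)
    congr 1
    rw [hcast]; unfold sd; push_cast; ring
  have h2 : |sd (((q' - q : ℕ) : ℝ) * β)| ≤ b := by
    refine (sd_le _ (round ((q' : ℝ) * β) - round ((q : ℝ) * β))).trans (le_trans (le_of_eq ?_) hb)
    congr 1
    rw [hcast]; unfold sd; push_cast; ring
  have h3 : ((q' - q : ℕ) : ℝ) ≤ q' := by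
    rw [hcast]; have : (0 : ℝ) ≤ q := Nat.cast_nonneg q; linarith
  have ha0 : 0 ≤ a := (abs_nonneg _).trans ha
  have hb0 : 0 ≤ b := (abs_nonneg _).trans hb
  unfold lw
  have h4 : (0 : ℝ) ≤ ((q' - q : ℕ) : ℝ) := Nat.cast_nonneg _
  calc ((q' - q : ℕ) : ℝ) * |sd (((q' - q : ℕ) : ℝ) * α)| * |sd (((q' - q : ℕ) : ℝ) * β)|
      ≤ (q' : ℝ) * a * b := by
        apply mul_le_mul (mul_le_mul h3 h1 (abs_nonneg _) (Nat.cast_nonneg _)) h2 (abs_nonneg _)
        positivity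

/-- Bounded multiplicity of the cells. -/
lemma mult (hν : 0 < ν) {Λ : ℝ} (hΛ : 0 < Λ) : ∃ M : ℕ, ∀ α β : ℝ, Bad ν α β →
    ∀ a b : ℝ, 0 < a → 0 < b → ∀ S : Finset ℕ,
      (∀ q ∈ S, 1 ≤ q ∧ |sd ((q : ℝ) * α)| ≤ a ∧ |sd ((q : ℝ) * β)| ≤ b ∧ (q : ℝ) * a * b ≤ Λ) →
      S.card ≤ M := by
  obtain ⟨K, hK⟩ := exists_nat_gt (max 1 (2 * Λ / ν))
  have hK1 : (1 : ℝ) < K := lt_of_le_of_lt (le_max_left _ _) hK
  have hK2 : 2 * Λ / ν < K := lt_of_le_of_lt (le_max_right _ _) hK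
  have hK0 : (0 : ℝ) < K := by linarith
  refine ⟨(2 * K + 1) * (2 * K + 1), fun α β H a b ha hb S hS => ?_⟩
  set f : ℕ → ℤ × ℤ := fun q => (⌊sd ((q : ℝ) * α) * K / a⌋, ⌊sd ((q : ℝ) * β) * K / b⌋) with hf
  have hmaps : ∀ q ∈ S, f q ∈ (Icc (-(K : ℤ)) K) ×ˢ (Icc (-(K : ℤ)) K) := by
    intro q hq
    obtain ⟨-, h1, h2, -⟩ := hS q hq
    rw [abs_le] at h1 h2
    rw [mem_product, mem_Icc, mem_Icc]
    have e1 : sd ((q : ℝ) * α) * K / a ≤ K := by
      rw [div_le_iff₀ ha]; nlinarith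
    have e2 : -(K : ℝ) ≤ sd ((q : ℝ) * α) * K / a := by
      rw [le_div_iff₀ ha]; nlinarith
    have e3 : sd ((q : ℝ) * β) * K / b ≤ K := by
      rw [div_le_iff₀ hb]; nlinarith
    have e4 : -(K : ℝ) ≤ sd ((q : ℝ) * β) * K / b := by
      rw [le_div_iff₀ hb]; nlinarith
    refine ⟨⟨Int.le_floor.2 (by push_cast; exact e2), ?_⟩, ⟨Int.le_floor.2 (by push_cast; exact e4), ?_⟩⟩
    · exact_mod_cast (Int.floor_le _).trans e1
    · exact_mod_cast (Int.floor_le _).trans e3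
  have hinj : Set.InjOn f S := by
    have key : ∀ q ∈ S, ∀ q' ∈ S, q < q' → f q ≠ f q' := by
      intro q hq q' hq' hlt heq
      obtain ⟨-, -, -, h4⟩ := hS q' hq'
      have he1 : ⌊sd ((q : ℝ) * α) * K / a⌋ = ⌊sd ((q' : ℝ) * α) * K / a⌋ := (Prod.ext_iff.1 heq).1
      have he2 : ⌊sd ((q : ℝ) * β) * K / b⌋ = ⌊sd ((q' : ℝ) * β) * K / b⌋ := (Prod.ext_iff.1 heq).2
      have d1 := Int.abs_sub_lt_one_of_floor_eq_floor he1.symm
      have d2 := Int.abs_sub_lt_one_of_floor_eq_floor he2.symm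
      have c1 : |sd ((q' : ℝ) * α) - sd ((q : ℝ) * α)| ≤ a / K := by
        rw [← sub_div, ← sub_mul, abs_div, abs_mul, abs_of_pos ha, abs_of_pos hK0,
          div_lt_one ha] at d1
        rw [le_div_iff₀ hK0]; exact d1.le
      have c2 : |sd ((q' : ℝ) * β) - sd ((q : ℝ) * β)| ≤ b / K := by
        rw [← sub_div, ← sub_mul, abs_div, abs_mul, abs_of_pos hb, abs_of_pos hK0,
          div_lt_one hb] at d2
        rw [le_div_iff₀ hK0]; exact d2.le
      have c3 := lw_sub_le hlt c1 c2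
      have c4 := H (q' - q) (by omega)
      have c5 : (q' : ℝ) * (a / K) * (b / K) = (q' * a * b) / (K * K) := by field_simp
      rw [c5] at c3
      have c6 : (q' * a * b) / (K * K) ≤ Λ / (K * K) := by gcongr
      have c7 : ν * (K * K) ≤ Λ := by
        rw [← le_div_iff₀ (by positivity)]; linarith
      have c8 : 2 * Λ < K * ν := by rwa [div_lt_iff₀ hν] at hK2
      nlinarith
    intro q hq q' hq' heq
    rcases lt_trichotomy q q' with h | h | h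
    · exact absurd heq (key q hq q' hq' h)
    · exact h
    · exact absurd heq.symm (key q' hq' q hq h)
  have hcard := Finset.card_le_card_of_injOn f hmaps hinj
  refine hcard.trans (le_of_eq ?_)
  rw [card_product, Int.card_Icc]
  have : ((K : ℤ) + 1 - -(K : ℤ)).toNat = 2 * K + 1 := by omega
  rw [this]

end

end Pool.Agent.U787.LA
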