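import Mathlib
import Pool.Agent.U787.LA1

/-! # Counting good approximations in strips -/

set_option autoImplicit false

open Finset

namespace Pool.Agent.U787.LA

/-- counting cells -/
lemma cells (S : Finset ℕ) (f g : ℕ → ℝ) (Z w : ℝ) (M : ℕ) (hZ : 0 ≤ Z) (hw0 : 0 ≤ w)
    (hf0 : ∀ q ∈ S, 0 ≤ f q) (hfZ : ∀ q ∈ S, f q ≤ Z) (hg0 : ∀ q ∈ S, 0 ≤ g q)
    (hw : ∀ q ∈ S, ∀ q' ∈ S, ⌊f q⌋₊ = ⌊f q'⌋₊ → g q' ≤ g q + w)
    (hM : ∀ i j : ℕ, (S.filter (fun q => ⌊f q⌋₊ = i ∧ ⌊g q⌋₊ = j)).card ≤ M) :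
    (S.card : ℝ) ≤ M * (w + 3) * (Z + 1) := by
  classical
  have h1 : S.card ≤ (M * (⌊w⌋₊ + 2)) * (range (⌊Z⌋₊ + 1)).card := by
    refine card_le_mul_card_image_of_maps_to (f := fun q => ⌊f q⌋₊) ?_ _ ?_
    · intro q hq
      rw [mem_range]
      exact Nat.lt_succ_of_le (Nat.floor_le_floor (hfZ q hq))
    · intro i _
      set Si := S.filter (fun q => ⌊f q⌋₊ = i) with hSi
      rcases Si.eq_empty_or_nonempty with he | hne
      · rw [he]; simp
      obtain ⟨q0, hq0, hmin⟩ := exists_min_image Si g hne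
      have hsub : ∀ q ∈ Si, q ∈ S ∧ ⌊f q⌋₊ = i := fun q hq => by
        rw [hSi, mem_filter] at hq; exact hq
      have h2 : Si.card ≤ M * (Icc ⌊g q0⌋₊ (⌊g q0⌋₊ + (⌊w⌋₊ + 1))).card := by
        refine card_le_mul_card_image_of_maps_to (f := fun q => ⌊g q⌋₊) ?_ _ ?_
        · intro q hq
          rw [mem_Icc]
          refine ⟨Nat.floor_le_floor (hmin q hq), ?_⟩
          have h3 := hw q0 (hsub q0 hq0).1 q (hsub q hq).1 (by rw [(hsub q0 hq0).2, (hsub q hq).2])
          have h4 : g q < (⌊g q0⌋₊ + (⌊w⌋₊ + 1) : ℕ) + 1 := by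
            have h5 := Nat.lt_floor_add_one (g q0)
            have h6 := Nat.lt_floor_add_one w
            push_cast
            linarith
          have h7 : ⌊g q⌋₊ < (⌊g q0⌋₊ + (⌊w⌋₊ + 1)) + 1 := by
            rw [Nat.floor_lt (hg0 q (hsub q hq).1)]
            push_cast
            push_cast at h4
            exact h4
          omega
        · intro j _
          refine le_trans (card_le_card ?_) (hM i j)
          intro q hq
          rw [mem_filter] at hq ⊢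
          exact ⟨(hsub q hq.1).1, (hsub q hq.1).2, hq.2⟩
      refine h2.trans ?_
      rw [Nat.card_Icc]
      have : ⌊g q0⌋₊ + (⌊w⌋₊ + 1) + 1 - ⌊g q0⌋₊ = ⌊w⌋₊ + 2 := by omega
      rw [this]
  rw [card_range] at h1
  have h2 : (S.card : ℝ) ≤ ((M * (⌊w⌋₊ + 2)) * (⌊Z⌋₊ + 1) : ℕ) := by exact_mod_cast h1
  refine h2.trans ?_
  push_cast
  have h3 := Nat.floor_le hw0
  have h4 := Nat.floor_le hZ
  have h5 : (0 : ℝ) ≤ M := Nat.cast_nonneg M
  have h6 : (0 : ℝ) ≤ (⌊w⌋₊ : ℝ) := Nat.cast_nonneg _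
  apply mul_le_mul _ (by linarith) (by positivity) (by positivity)
  exact mul_le_mul_of_nonneg_left (by linarith) h5

/-- `- log ‖qα‖` -/
noncomputable def kk (α : ℝ) (q : ℕ) : ℝ := - Real.log |sd ((q : ℝ) * α)|

section
variable {ν α β : ℝ}

lemma kk_nonneg (hν : 0 < ν) (H : Bad ν α β) {q : ℕ} (hq : 1 ≤ q) : 0 ≤ kk α q ∧ 0 ≤ kk β q := by
  have h1 := Bad.a_ne hν H hq
  have h2 := Bad.b_ne hν H hq
  have h3 := sd_half ((q : ℝ) * α)
  have h4 := sd_half ((q : ℝ) * β)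
  constructor
  · have := Real.log_nonpos h1.le (by linarith)
    unfold kk; linarith
  · have := Real.log_nonpos h2.le (by linarith)
    unfold kk; linarith

lemma kk_le (hν : 0 < ν) (H : Bad ν α β) {q N : ℕ} (hq : 1 ≤ q) (hqN : q ≤ N) :
    kk α q ≤ Real.log N + |Real.log ν| ∧ kk β q ≤ Real.log N + |Real.log ν| := by
  have h1 := Bad.a_ne hν H hq
  have h2 := Bad.b_ne hν H hq
  have h3 := sd_half ((q : ℝ) * α)
  have h4 := sd_half ((q : ℝ) * β)
  have hq' : (1 : ℝ) ≤ q := by exact_mod_cast hq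
  have hqN' : (q : ℝ) ≤ N := by exact_mod_cast hqN
  have hN : (0 : ℝ) < N := by linarith
  have h5 := H q hq
  unfold lw at h5
  have key : ∀ A B : ℝ, 0 < A → 0 < B → B ≤ 1 / 2 → ν ≤ q * A * B → - Real.log A ≤ Real.log N + |Real.log ν| := by
    intro A B hA hB hB2 hh
    have e1 : ν ≤ N * A := by
      have : q * A * B ≤ N * A * 1 := by
        apply mul_le_mul _ (by linarith) hB.le (by positivity)
        exact mul_le_mul_of_nonneg_right hqN' hA.le
      linarith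
    have e2 := Real.log_le_log hν e1
    rw [Real.log_mul hN.ne' hA.ne'] at e2
    have e3 := neg_abs_le (Real.log ν)
    linarith
  constructor
  · exact key _ _ h1 h2 h4 h5
  · refine key _ _ h2 h1 h3 ?_
    calc ν ≤ _ := h5
      _ = _ := by ring

lemma exp_kk (hν : 0 < ν) (H : Bad ν α β) {q : ℕ} (hq : 1 ≤ q) :
    |sd ((q : ℝ) * α)| = Real.exp (- kk α q) ∧ |sd ((q : ℝ) * β)| = Real.exp (- kk β q) := by
  unfold kk
  rw [neg_neg, neg_neg, Real.exp_log (Bad.a_ne hν H hq), Real.exp_log (Bad.b_ne hν H hq)]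
  exact ⟨rfl, rfl⟩

/-- **Counting good approximations in a strip.** -/
theorem strip (hν : 0 < ν) {Λ : ℝ} (hΛ : 0 < Λ) : ∃ M : ℕ, ∀ α β : ℝ, Bad ν α β →
    ∀ N : ℕ, 1 ≤ N → ∀ S : Finset ℕ, (∀ q ∈ S, 1 ≤ q ∧ q ≤ N ∧ lw α β q ≤ Λ) →
    (∀ i j : ℕ, (S.filter (fun q => ⌊kk α q⌋₊ = i ∧ ⌊kk β q⌋₊ = j)).card ≤ M) ∧
    ∀ a b : ℤ, (a ≠ 0 ∨ b ≠ 0) → ∀ t D : ℝ, 0 ≤ D →
      (∀ q ∈ S, |a * kk α q + b * kk β q - t| ≤ D) →
      (S.card : ℝ) ≤ M * (2 * D + |(a : ℝ)| + |(b : ℝ)| + 3) * (Real.log N + |Real.log ν| + 1) := by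
  obtain ⟨M, hM⟩ := mult hν (Λ := Λ * Real.exp 2) (by positivity)
  refine ⟨M, fun α β H N hN S hS => ?_⟩
  have hcell : ∀ i j : ℕ, (S.filter (fun q => ⌊kk α q⌋₊ = i ∧ ⌊kk β q⌋₊ = j)).card ≤ M := by
    intro i j
    refine hM α β H (Real.exp (-i)) (Real.exp (-j)) (Real.exp_pos _) (Real.exp_pos _) _ ?_
    intro q hq
    rw [mem_filter] at hq
    obtain ⟨hqS, hi, hj⟩ := hq
    obtain ⟨h1, h2, h3⟩ := hS q hqS
    obtain ⟨e1, e2⟩ := exp_kk hν H h1
    obtain ⟨n1, n2⟩ := kk_nonneg hν H h1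
    have f1 : (i : ℝ) ≤ kk α q := by rw [← hi]; exact Nat.floor_le n1
    have f2 : (j : ℝ) ≤ kk β q := by rw [← hj]; exact Nat.floor_le n2
    have f3 : kk α q < i + 1 := by rw [← hi]; exact Nat.lt_floor_add_one _
    have f4 : kk β q < j + 1 := by rw [← hj]; exact Nat.lt_floor_add_one _
    refine ⟨h1, ?_, ?_, ?_⟩
    · rw [e1]; exact Real.exp_le_exp.2 (by linarith)
    · rw [e2]; exact Real.exp_le_exp.2 (by linarith)
    · have g1 : Real.exp (-(i : ℝ)) ≤ Real.exp 1 * |sd ((q : ℝ) * α)| := by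
        rw [e1, ← Real.exp_add]; exact Real.exp_le_exp.2 (by linarith)
      have g2 : Real.exp (-(j : ℝ)) ≤ Real.exp 1 * |sd ((q : ℝ) * β)| := by
        rw [e2, ← Real.exp_add]; exact Real.exp_le_exp.2 (by linarith)
      have g3 : Real.exp 2 = Real.exp 1 * Real.exp 1 := by rw [← Real.exp_add]; norm_num
      calc (q : ℝ) * Real.exp (-(i : ℝ)) * Real.exp (-(j : ℝ))
          ≤ (q : ℝ) * (Real.exp 1 * |sd ((q : ℝ) * α)|) * (Real.exp 1 * |sd ((q : ℝ) * β)|) := by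
            apply mul_le_mul _ g2 (Real.exp_pos _).le (by positivity)
            exact mul_le_mul_of_nonneg_left g1 (Nat.cast_nonneg _)
        _ = lw α β q * Real.exp 2 := by rw [g3]; unfold lw; ring
        _ ≤ Λ * Real.exp 2 := mul_le_mul_of_nonneg_right h3 (Real.exp_pos _).le
  refine ⟨hcell, fun a b hab t D hD hst => ?_⟩
  have hN' : (1 : ℝ) ≤ N := by exact_mod_cast hN
  have hZ : 0 ≤ Real.log N + |Real.log ν| := by
    have := Real.log_nonneg hN'
    have := abs_nonneg (Real.log ν)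
    linarith
  have hone : ∀ c : ℤ, c ≠ 0 → (1 : ℝ) ≤ |(c : ℝ)| := by
    intro c hc
    have := Int.one_le_abs hc
    rw [← Int.cast_abs]; exact_mod_cast this
  have hfl : ∀ x y : ℝ, 0 ≤ x → 0 ≤ y → ⌊x⌋₊ = ⌊y⌋₊ → |x - y| ≤ 1 := by
    intro x y hx hy h
    have e1 := Nat.floor_le hx
    have e2 := Nat.floor_le hy
    have e3 := Nat.lt_floor_add_one x
    have e4 := Nat.lt_floor_add_one y
    rw [h] at e1 e3
    rw [abs_le]; constructor <;> linarith
  -- the estimate in the form used twice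
  have hgen : ∀ (x x' y y' a b : ℝ), 1 ≤ |b| → |x - x'| ≤ 1 → |a * x + b * y - t| ≤ D →
      |a * x' + b * y' - t| ≤ D → y' ≤ y + (2 * D + |a|) := by
    intro x x' y y' a b hb hx h1 h2
    have h3 : |b * (y' - y)| ≤ 2 * D + |a| := by
      have e : b * (y' - y) = (a * x' + b * y' - t) - (a * x + b * y - t) + a * (x - x') := by ring
      rw [e]
      refine (abs_add_le _ _).trans ?_
      have h4 := abs_sub (a * x' + b * y' - t) (a * x + b * y - t)
      have h5 : |a * (x - x')| ≤ |a| := by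
        rw [abs_mul]
        calc |a| * |x - x'| ≤ |a| * 1 := mul_le_mul_of_nonneg_left hx (abs_nonneg _)
          _ = |a| := mul_one _
      linarith
    rw [abs_mul] at h3
    have h6 : |y' - y| ≤ |b| * |y' - y| := le_mul_of_one_le_left (abs_nonneg _) hb
    have h7 := le_abs_self (y' - y)
    linarith
  have hlog1 : 0 ≤ |(a : ℝ)| := abs_nonneg _
  have hlog2 : 0 ≤ |(b : ℝ)| := abs_nonneg _
  rcases eq_or_ne b 0 with hb | hb
  · have ha : a ≠ 0 := by
      rcases hab with h | h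
      · exact h
      · exact absurd hb h
    have := cells S (kk β) (kk α) _ (2 * D + |(b : ℝ)|) M hZ (by positivity)
      (fun q hq => (kk_nonneg hν H (hS q hq).1).2) (fun q hq => (kk_le hν H (hS q hq).1 (hS q hq).2.1).2)
      (fun q hq => (kk_nonneg hν H (hS q hq).1).1) ?_ ?_
    · refine this.trans ?_
      apply mul_le_mul_of_nonneg_right _ (by linarith)
      exact mul_le_mul_of_nonneg_left (by linarith) (Nat.cast_nonneg _)
    · intro q hq q' hq' h
      refine hgen _ _ _ _ _ _ (hone a ha) (hfl _ _ (kk_nonneg hν H (hS q hq).1).2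
        (kk_nonneg hν H (hS q' hq').1).2 h) ?_ ?_
      · rw [add_comm (_ * _)]; exact hst q hq
      · rw [add_comm (_ * _)]; exact hst q' hq'
    · intro i j
      refine le_trans (card_le_card ?_) (hcell j i)
      intro q hq
      rw [mem_filter] at hq ⊢
      exact ⟨hq.1, hq.2.2, hq.2.1⟩
  · have := cells S (kk α) (kk β) _ (2 * D + |(a : ℝ)|) M hZ (by positivity)
      (fun q hq => (kk_nonneg hν H (hS q hq).1).1) (fun q hq => (kk_le hν H (hS q hq).1 (hS q hq).2.1).1)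
      (fun q hq => (kk_nonneg hν H (hS q hq).1).2) ?_ hcell
    · refine this.trans ?_
      apply mul_le_mul_of_nonneg_right _ (by linarith)
      exact mul_le_mul_of_nonneg_left (by linarith) (Nat.cast_nonneg _)
    · intro q hq q' hq' h
      exact hgen _ _ _ _ _ _ (hone b hb) (hfl _ _ (kk_nonneg hν H (hS q hq).1).1
        (kk_nonneg hν H (hS q' hq').1).1 h) (hst q hq) (hst q' hq')

end

end Pool.Agent.U787.LA
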