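import Mathlib
import Pool.Agent.U787.LA2

/-! # Forms at good approximations -/

set_option autoImplicit false

open Finset

namespace Pool.Agent.U787.LA

/-- the good approximations -/
noncomputable def Good (α β Λ : ℝ) (N : ℕ) : Finset ℕ :=
  letI := Classical.decPred (fun q : ℕ => lw α β q ≤ Λ)
  (Icc 1 N).filter (fun q => lw α β q ≤ Λ)

lemma mem_Good {α β Λ : ℝ} {N q : ℕ} : q ∈ Good α β Λ N ↔ 1 ≤ q ∧ q ≤ N ∧ lw α β q ≤ Λ := by
  classical
  unfold Good
  rw [mem_filter, mem_Icc, and_assoc]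

/-- the size of a monomial of the linear forms -/
noncomputable def mono (α β : ℝ) (q : ℕ) (μ : Fin 3 →₀ ℕ) : ℝ :=
  (q : ℝ) ^ μ 0 * |sd ((q : ℝ) * α)| ^ μ 1 * |sd ((q : ℝ) * β)| ^ μ 2

/-- the values of the three linear forms -/
noncomputable def pt (α β : ℝ) (q : ℕ) : Fin 3 → ℝ :=
  ![(q : ℝ), sd ((q : ℝ) * α), sd ((q : ℝ) * β)]

lemma eval_pt (α β : ℝ) (q : ℕ) (G : MvPolynomial (Fin 3) ℝ) :
    MvPolynomial.eval (pt α β q) G = ∑ μ ∈ G.support, MvPolynomial.coeff μ G *
      ((q : ℝ) ^ μ 0 * sd ((q : ℝ) * α) ^ μ 1 * sd ((q : ℝ) * β) ^ μ 2) := by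
  rw [MvPolynomial.eval_eq']
  refine sum_congr rfl fun μ _ => ?_
  rw [Fin.prod_univ_three]
  simp [pt]

lemma deg_sum {n : ℕ} {G : MvPolynomial (Fin 3) ℝ} (hG : G.IsHomogeneous n) {μ : Fin 3 →₀ ℕ}
    (hμ : μ ∈ G.support) : μ 0 + μ 1 + μ 2 = n := by
  have h := hG (MvPolynomial.mem_support_iff.1 hμ)
  rw [← h, Finsupp.weight_apply]
  simp [Finsupp.sum_fintype, Fin.sum_univ_three]

lemma card_support {n : ℕ} {G : MvPolynomial (Fin 3) ℝ} (hG : G.IsHomogeneous n) :
    G.support.card ≤ (n + 1) ^ 3 := by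
  have h := Finset.card_le_card_of_injOn (s := G.support)
    (t := (range (n + 1)) ×ˢ ((range (n + 1)) ×ˢ (range (n + 1))))
    (fun μ => (μ 0, μ 1, μ 2)) (fun μ hμ => ?_) ?_
  · rw [card_product, card_product, card_range] at h
    calc _ ≤ _ := h
      _ = _ := by ring
  · have := deg_sum hG hμ
    simp only [coe_product, Set.mem_prod, mem_coe, mem_range]
    omega
  · intro μ _ μ' _ h
    simp only [Prod.mk.injEq] at h
    ext i
    fin_cases i
    · exact h.1
    · exact h.2.1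
    · exact h.2.2

section
variable {ν α β : ℝ}

lemma log_term (hν : 0 < ν) (H : Bad ν α β) {q : ℕ} (hq : 1 ≤ q) {c : ℝ} (hc : c ≠ 0)
    (μ : Fin 3 →₀ ℕ) : Real.log (|c| * mono α β q μ) = Real.log |c| + μ 0 * Real.log (lw α β q) +
      ((μ 0 : ℝ) - μ 1) * kk α q + ((μ 0 : ℝ) - μ 2) * kk β q := by
  have h1 := Bad.a_ne hν H hq
  have h2 := Bad.b_ne hν H hq
  have hq' : (0 : ℝ) < q := by exact_mod_cast hq
  have hc' : 0 < |c| := abs_pos.2 hc
  unfold mono lw kk
  rw [Real.log_mul hc'.ne' (by positivity), Real.log_mul (by positivity) (by positivity),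
    Real.log_mul (by positivity) (by positivity), Real.log_pow, Real.log_pow, Real.log_pow,
    Real.log_mul (by positivity) (by positivity), Real.log_mul (by positivity) (by positivity)]
  ring

/-- two comparable terms -/
lemma two_terms (hν : 0 < ν) (H : Bad ν α β) {q : ℕ} (hq : 1 ≤ q) {n : ℕ}
    {G : MvPolynomial (Fin 3) ℝ} (hG : G.IsHomogeneous n)
    (h : ∃ μ ∈ G.support, |MvPolynomial.eval (pt α β q) G| <
      1 / 2 * (|MvPolynomial.coeff μ G| * mono α β q μ)) :
    ∃ μ ∈ G.support, ∃ μ' ∈ G.support, μ ≠ μ' ∧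
      |Real.log (|MvPolynomial.coeff μ G| * mono α β q μ) -
        Real.log (|MvPolynomial.coeff μ' G| * mono α β q μ')| ≤ Real.log (2 * (n + 1) ^ 3) := by
  classical
  have h1 := Bad.a_ne hν H hq
  have h2 := Bad.b_ne hν H hq
  have hq' : (0 : ℝ) < q := by exact_mod_cast hq
  set T : (Fin 3 →₀ ℕ) → ℝ := fun μ => |MvPolynomial.coeff μ G| * mono α β q μ with hT
  have hTpos : ∀ μ ∈ G.support, 0 < T μ := by
    intro μ hμ
    have : 0 < |MvPolynomial.coeff μ G| := abs_pos.2 (MvPolynomial.mem_support_iff.1 hμ)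
    have hm : 0 < mono α β q μ := by unfold mono; positivity
    exact mul_pos this hm
  obtain ⟨μ0, hμ0, hlt⟩ := h
  obtain ⟨m, hm, hmax⟩ := exists_max_image G.support T ⟨μ0, hμ0⟩
  have hlt' : |MvPolynomial.eval (pt α β q) G| < 1 / 2 * T m :=
    lt_of_lt_of_le hlt (mul_le_mul_of_nonneg_left (hmax μ0 hμ0) (by norm_num))
  have hex : ∃ μ' ∈ G.support.erase m, T m ≤ 2 * (n + 1) ^ 3 * T μ' := by
    by_contra hcon
    push Not at hcon
    have hK : (0 : ℝ) < 2 * (n + 1) ^ 3 := by positivity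
    have e1 : T m ≤ |MvPolynomial.eval (pt α β q) G| + ∑ μ ∈ G.support.erase m, T μ := by
      have e2 : ∀ μ, |MvPolynomial.coeff μ G * ((q : ℝ) ^ μ 0 * sd ((q : ℝ) * α) ^ μ 1 *
          sd ((q : ℝ) * β) ^ μ 2)| = T μ := by
        intro μ
        rw [hT]
        simp only [abs_mul, abs_pow, mono]
        rw [abs_of_pos hq']
      rw [eval_pt, ← add_sum_erase _ _ hm]
      rw [← e2 m]
      set x := MvPolynomial.coeff m G * ((q : ℝ) ^ m 0 * sd ((q : ℝ) * α) ^ m 1 *
          sd ((q : ℝ) * β) ^ m 2)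
      set y := ∑ μ ∈ G.support.erase m, MvPolynomial.coeff μ G * ((q : ℝ) ^ μ 0 *
          sd ((q : ℝ) * α) ^ μ 1 * sd ((q : ℝ) * β) ^ μ 2) with hy
      have e3 : |y| ≤ ∑ μ ∈ G.support.erase m, T μ := by
        rw [hy]
        refine (abs_sum_le_sum_abs _ _).trans (le_of_eq ?_)
        exact sum_congr rfl fun μ _ => e2 μ
      have e4 : |x| ≤ |x + y| + |y| := by
        have : x = (x + y) - y := by ring
        calc |x| = |(x + y) - y| := by rw [← this]
          _ ≤ _ := abs_sub _ _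
      linarith
    have e5 : ∑ μ ∈ G.support.erase m, T μ ≤ ∑ _μ ∈ G.support.erase m, T m / (2 * (n + 1) ^ 3) := by
      refine sum_le_sum fun μ hμ => ?_
      rw [le_div_iff₀ hK]
      have := hcon μ hμ
      linarith
    rw [sum_const, nsmul_eq_mul] at e5
    have e6 : ((G.support.erase m).card : ℝ) ≤ (n + 1) ^ 3 := by
      have := (card_le_card (erase_subset m G.support)).trans (card_support hG)
      exact_mod_cast this
    have e7 : ((G.support.erase m).card : ℝ) * (T m / (2 * (n + 1) ^ 3)) ≤ 1 / 2 * T m := by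
      have hTm := hTpos m hm
      calc ((G.support.erase m).card : ℝ) * (T m / (2 * (n + 1) ^ 3))
          ≤ (n + 1) ^ 3 * (T m / (2 * (n + 1) ^ 3)) :=
            mul_le_mul_of_nonneg_right e6 (by positivity)
        _ = 1 / 2 * T m := by field_simp
    linarith
  obtain ⟨μ', hμ', hle⟩ := hex
  rw [mem_erase] at hμ'
  refine ⟨m, hm, μ', hμ'.2, hμ'.1.symm, ?_⟩
  have p1 := hTpos m hm
  have p2 := hTpos μ' hμ'.2
  have l1 := Real.log_le_log p2 (hmax μ' hμ'.2)
  have l2 := Real.log_le_log p1 hle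
  rw [Real.log_mul (by positivity) p2.ne'] at l2
  have l3 : 0 ≤ Real.log (T m) - Real.log (T μ') := by linarith
  change |Real.log (T m) - Real.log (T μ')| ≤ _
  rw [abs_of_nonneg l3]
  linarith

/-- **Forms at good approximations.** -/
theorem forms (hν : 0 < ν) {Λ : ℝ} (hΛ : 1 ≤ Λ) (n : ℕ) : ∃ C : ℝ, 0 < C ∧ ∀ α β : ℝ,
    Bad ν α β → ∀ N : ℕ, 2 ≤ N → ∀ G : MvPolynomial (Fin 3) ℝ, G.IsHomogeneous n →
    ∀ S : Finset ℕ, S ⊆ Good α β Λ N → (∀ q ∈ S, ∃ μ ∈ G.support,
      |MvPolynomial.eval (pt α β q) G| < 1 / 2 * (|MvPolynomial.coeff μ G| * mono α β q μ)) →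
    (S.card : ℝ) ≤ C * Real.log N := by
  classical
  obtain ⟨M, hM⟩ := strip hν (lt_of_lt_of_le one_pos hΛ)
  set E : ℝ := |Real.log ν| + |Real.log Λ| with hE
  have hE0 : 0 ≤ E := by positivity
  set D : ℝ := Real.log (2 * (n + 1) ^ 3) + n * E with hD
  have hD0 : 0 ≤ D := by
    have : 0 ≤ Real.log (2 * ((n : ℝ) + 1) ^ 3) := by
      apply Real.log_nonneg
      have : (1 : ℝ) ≤ ((n : ℝ) + 1) ^ 3 := one_le_pow₀ (by linarith [(Nat.cast_nonneg n : (0:ℝ) ≤ n)])
      linarith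
    positivity
  have hlog2 : 0 < Real.log 2 := Real.log_pos (by norm_num)
  set C1 : ℝ := M * (2 * D + 2 * n + 2 * n + 3) * (1 + (|Real.log ν| + 1) / Real.log 2) with hC1
  have hC10 : 0 ≤ C1 := by positivity
  refine ⟨((n + 1) ^ 3 * (n + 1) ^ 3) * C1 + 1, by positivity, ?_⟩
  intro α β H N hN G hG S hS hsmall
  have hN2 : (2 : ℝ) ≤ N := by exact_mod_cast hN
  have hlogN : Real.log 2 ≤ Real.log N := Real.log_le_log (by norm_num) hN2
  have hlogN0 : 0 < Real.log N := by linarith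
  set A : (Fin 3 →₀ ℕ) × (Fin 3 →₀ ℕ) → ℤ := fun p => ((p.1 0 : ℤ) - p.1 1) - ((p.2 0 : ℤ) - p.2 1) with hA
  set B : (Fin 3 →₀ ℕ) × (Fin 3 →₀ ℕ) → ℤ := fun p => ((p.1 0 : ℤ) - p.1 2) - ((p.2 0 : ℤ) - p.2 2) with hB
  set t : (Fin 3 →₀ ℕ) × (Fin 3 →₀ ℕ) → ℝ := fun p =>
    - (Real.log |MvPolynomial.coeff p.1 G| - Real.log |MvPolynomial.coeff p.2 G|) with ht
  set Pr := (G.support ×ˢ G.support).filter (fun p => p.1 ≠ p.2) with hPr
  have hcover : S ⊆ Pr.biUnion fun p => S.filter (fun q => |A p * kk α q + B p * kk β q - t p| ≤ D) := by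
    intro q hq
    have hq1 := mem_Good.1 (hS hq)
    obtain ⟨μ, hμ, μ', hμ', hne, hlog⟩ := two_terms hν H hq1.1 hG (hsmall q hq)
    rw [mem_biUnion]
    refine ⟨(μ, μ'), ?_, ?_⟩
    · rw [hPr, mem_filter, mem_product]; exact ⟨⟨hμ, hμ'⟩, hne⟩
    · rw [mem_filter]
      refine ⟨hq, ?_⟩
      rw [log_term hν H hq1.1 (MvPolynomial.mem_support_iff.1 hμ),
        log_term hν H hq1.1 (MvPolynomial.mem_support_iff.1 hμ')] at hlog
      have d1 := deg_sum hG hμ
      have d2 := deg_sum hG hμ'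
      have b1 : |((μ 0 : ℝ) - μ' 0) * Real.log (lw α β q)| ≤ n * E := by
        rw [abs_mul]
        apply mul_le_mul _ _ (abs_nonneg _) (Nat.cast_nonneg _)
        · have x1 : (μ 0 : ℝ) ≤ n := by exact_mod_cast (by omega : μ 0 ≤ n)
          have x2 : (μ' 0 : ℝ) ≤ n := by exact_mod_cast (by omega : μ' 0 ≤ n)
          have x3 : (0 : ℝ) ≤ μ 0 := Nat.cast_nonneg _
          have x4 : (0 : ℝ) ≤ μ' 0 := Nat.cast_nonneg _
          rw [abs_le]; constructor <;> linarith
        · have y1 := H q hq1.1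
          have y2 := Real.log_le_log hν y1
          have y3 := Real.log_le_log (lt_of_lt_of_le hν y1) hq1.2.2
          have y4 := neg_abs_le (Real.log ν)
          have y5 := le_abs_self (Real.log Λ)
          have y6 := abs_nonneg (Real.log ν)
          have y7 := abs_nonneg (Real.log Λ)
          rw [abs_le, hE]; constructor <;> linarith
      have key : (A (μ, μ') : ℝ) * kk α q + (B (μ, μ') : ℝ) * kk β q - t (μ, μ') =
          (Real.log |MvPolynomial.coeff μ G| + μ 0 * Real.log (lw α β q) +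
            ((μ 0 : ℝ) - μ 1) * kk α q + ((μ 0 : ℝ) - μ 2) * kk β q -
          (Real.log |MvPolynomial.coeff μ' G| + μ' 0 * Real.log (lw α β q) +
            ((μ' 0 : ℝ) - μ' 1) * kk α q + ((μ' 0 : ℝ) - μ' 2) * kk β q)) -
          ((μ 0 : ℝ) - μ' 0) * Real.log (lw α β q) := by
        rw [hA, hB, ht]; push_cast; ring
      rw [key]
      refine (abs_sub _ _).trans ?_
      rw [hD]
      linarith
  have hcard : (S.card : ℝ) ≤ ∑ p ∈ Pr,
      ((S.filter (fun q => |A p * kk α q + B p * kk β q - t p| ≤ D)).card : ℝ) := by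
    have := (card_le_card hcover).trans card_biUnion_le
    exact_mod_cast this
  have hone : ∀ p ∈ Pr, ((S.filter (fun q => |A p * kk α q + B p * kk β q - t p| ≤ D)).card : ℝ) ≤
      C1 * Real.log N := by
    intro p hp
    rw [hPr, mem_filter, mem_product] at hp
    obtain ⟨⟨hp1, hp2⟩, hne⟩ := hp
    have d1 := deg_sum hG hp1
    have d2 := deg_sum hG hp2
    have hab : A p ≠ 0 ∨ B p ≠ 0 := by
      by_contra hcon
      push Not at hcon
      apply hne
      obtain ⟨h1, h2⟩ := hcon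
      rw [hA] at h1
      rw [hB] at h2
      simp only at h1 h2
      ext i
      fin_cases i
      · show p.1 0 = p.2 0
        omega
      · show p.1 1 = p.2 1
        omega
      · show p.1 2 = p.2 2
        omega
    have hA2 : |(A p : ℝ)| ≤ 2 * n := by
      have : |A p| ≤ 2 * n := by rw [hA]; simp only; rw [abs_le]; constructor <;> omega
      rw [← Int.cast_abs]; exact_mod_cast this
    have hB2 : |(B p : ℝ)| ≤ 2 * n := by
      have : |B p| ≤ 2 * n := by rw [hB]; simp only; rw [abs_le]; constructor <;> omega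
      rw [← Int.cast_abs]; exact_mod_cast this
    have hst := (hM α β H N (by omega) (S.filter (fun q => |A p * kk α q + B p * kk β q - t p| ≤ D))
      (fun q hq => mem_Good.1 (hS (mem_filter.1 hq).1))).2 (A p) (B p) hab (t p) D hD0
      (fun q hq => (mem_filter.1 hq).2)
    refine hst.trans ?_
    have z1 : Real.log N + |Real.log ν| + 1 ≤ (1 + (|Real.log ν| + 1) / Real.log 2) * Real.log N := by
      have : |Real.log ν| + 1 ≤ (|Real.log ν| + 1) / Real.log 2 * Real.log N := by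
        rw [div_mul_eq_mul_div, le_div_iff₀ hlog2]
        exact mul_le_mul_of_nonneg_left hlogN (by positivity)
      linarith
    have z2 : (M : ℝ) * (2 * D + |(A p : ℝ)| + |(B p : ℝ)| + 3) ≤ M * (2 * D + 2 * n + 2 * n + 3) :=
      mul_le_mul_of_nonneg_left (by linarith) (Nat.cast_nonneg _)
    have z3 : C1 * Real.log N = (M * (2 * D + 2 * n + 2 * n + 3)) *
        ((1 + (|Real.log ν| + 1) / Real.log 2) * Real.log N) := by rw [hC1]; ring
    rw [z3]
    exact mul_le_mul z2 z1 (by positivity) (by positivity)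
  have hPrc : (Pr.card : ℝ) ≤ (n + 1) ^ 3 * (n + 1) ^ 3 := by
    have h1 : Pr.card ≤ (n + 1) ^ 3 * (n + 1) ^ 3 := by
      refine (card_filter_le _ _).trans ?_
      rw [card_product]
      exact Nat.mul_le_mul (card_support hG) (card_support hG)
    exact_mod_cast h1
  calc (S.card : ℝ) ≤ _ := hcard
    _ ≤ ∑ _p ∈ Pr, C1 * Real.log N := sum_le_sum hone
    _ = Pr.card * (C1 * Real.log N) := by rw [sum_const, nsmul_eq_mul]
    _ ≤ ((n + 1) ^ 3 * (n + 1) ^ 3) * (C1 * Real.log N) :=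
        mul_le_mul_of_nonneg_right hPrc (by positivity)
    _ ≤ (((n + 1) ^ 3 * (n + 1) ^ 3) * C1 + 1) * Real.log N := by nlinarith

end

end Pool.Agent.U787.LA
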