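import Mathlib
import Pool.Agent.U787.LA3

/-! # The number of good approximations -/

set_option autoImplicit false

open Finset

namespace Pool.Agent.U787.LA

/-- Dirichlet's theorem -/
lemma dirichlet (α β : ℝ) {X Y : ℕ} (hX : 0 < X) (hY : 0 < Y) : ∃ q : ℕ, 1 ≤ q ∧ q ≤ X * Y ∧
    |sd ((q : ℝ) * α)| ≤ 1 / X ∧ |sd ((q : ℝ) * β)| ≤ 1 / Y := by
  have hXR : (0 : ℝ) < X := by exact_mod_cast hX
  have hYR : (0 : ℝ) < Y := by exact_mod_cast hY
  have hcard : ((range X) ×ˢ (range Y)).card < (range (X * Y + 1)).card := by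
    rw [card_product, card_range, card_range, card_range]; omega
  have hb : ∀ (x : ℝ) (Z : ℕ), (0 : ℝ) < Z → ⌊Int.fract x * Z⌋₊ < Z := by
    intro x Z hZ
    rw [Nat.floor_lt (mul_nonneg (Int.fract_nonneg x) hZ.le)]
    calc Int.fract x * Z < 1 * Z := mul_lt_mul_of_pos_right (Int.fract_lt_one x) hZ
      _ = Z := one_mul _
  obtain ⟨q, hq, q', hq', hne, heq⟩ := exists_ne_map_eq_of_card_lt_of_maps_to hcard
    (f := fun q : ℕ => (⌊Int.fract ((q : ℝ) * α) * X⌋₊, ⌊Int.fract ((q : ℝ) * β) * Y⌋₊)) (by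
      intro q _
      simp only [coe_product, Set.mem_prod, mem_coe, mem_range]
      exact ⟨hb _ _ hXR, hb _ _ hYR⟩)
  have key : ∀ q q' : ℕ, q < q' → q' ≤ X * Y →
      ⌊Int.fract ((q : ℝ) * α) * X⌋₊ = ⌊Int.fract ((q' : ℝ) * α) * X⌋₊ →
      ⌊Int.fract ((q : ℝ) * β) * Y⌋₊ = ⌊Int.fract ((q' : ℝ) * β) * Y⌋₊ →
      ∃ q : ℕ, 1 ≤ q ∧ q ≤ X * Y ∧ |sd ((q : ℝ) * α)| ≤ 1 / X ∧ |sd ((q : ℝ) * β)| ≤ 1 / Y := by
    intro q q' hlt hle h1 h2
    have hcast : ((q' - q : ℕ) : ℝ) = (q' : ℝ) - q := by rw [Nat.cast_sub hlt.le]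
    have gen : ∀ (x : ℝ) (Z : ℕ), (0 : ℝ) < Z →
        ⌊Int.fract ((q : ℝ) * x) * Z⌋₊ = ⌊Int.fract ((q' : ℝ) * x) * Z⌋₊ →
        |sd (((q' - q : ℕ) : ℝ) * x)| ≤ 1 / Z := by
      intro x Z hZ h
      have e1 := Nat.floor_le (mul_nonneg (Int.fract_nonneg ((q : ℝ) * x)) hZ.le)
      have e2 := Nat.floor_le (mul_nonneg (Int.fract_nonneg ((q' : ℝ) * x)) hZ.le)
      have e3 := Nat.lt_floor_add_one (Int.fract ((q : ℝ) * x) * Z)
      have e4 := Nat.lt_floor_add_one (Int.fract ((q' : ℝ) * x) * Z)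
      rw [h] at e1 e3
      have e5 : |Int.fract ((q' : ℝ) * x) * Z - Int.fract ((q : ℝ) * x) * Z| ≤ 1 := by
        rw [abs_le]; constructor <;> linarith
      rw [← sub_mul, abs_mul, abs_of_pos hZ] at e5
      refine (sd_le _ (⌊(q' : ℝ) * x⌋ - ⌊(q : ℝ) * x⌋)).trans ?_
      rw [le_div_iff₀ hZ]
      refine le_trans (le_of_eq ?_) e5
      congr 2
      rw [hcast, Int.fract, Int.fract]; push_cast; ring
    exact ⟨q' - q, by omega, by omega, gen α X hXR h1, gen β Y hYR h2⟩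
  rw [mem_range] at hq hq'
  have h1 := (Prod.ext_iff.1 heq).1
  have h2 := (Prod.ext_iff.1 heq).2
  simp only at h1 h2
  rcases lt_or_gt_of_ne hne with h | h
  · exact key q q' h (by omega) h1 h2
  · exact key q' q h (by omega) h1.symm h2.symm

section
variable {ν α β : ℝ}

theorem lower (hν : 0 < ν) : ∃ c : ℝ, 0 < c ∧ ∀ α β : ℝ, Bad ν α β → ∀ Λ : ℝ, 1 ≤ Λ → ∀ N : ℕ,
    2 ≤ N → c * Real.log N ^ 2 ≤ (Good α β Λ N).card := by
  classical
  obtain ⟨s, hs⟩ := pow_unbounded_of_one_lt (1 / ν) (by norm_num : (1 : ℝ) < 2)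
  refine ⟨1 / (4 * (s + 1) ^ 2), by positivity, fun α β H Λ hΛ N hN => ?_⟩
  have hch : ∀ p : ℕ × ℕ, ∃ q : ℕ, 1 ≤ q ∧ q ≤ 2 ^ p.1 * 2 ^ p.2 ∧
      |sd ((q : ℝ) * α)| ≤ 1 / 2 ^ p.1 ∧ |sd ((q : ℝ) * β)| ≤ 1 / 2 ^ p.2 := by
    intro p
    obtain ⟨q, h1, h2, h3, h4⟩ := dirichlet α β (X := 2 ^ p.1) (Y := 2 ^ p.2) (by positivity)
      (by positivity)
    exact ⟨q, h1, h2, by exact_mod_cast h3, by exact_mod_cast h4⟩
  choose f hf1 hf2 hf3 hf4 using hch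
  set m := Nat.log 2 N with hm
  have hmN : 2 ^ m ≤ N := Nat.pow_log_le_self 2 (by omega)
  set T := (range (m / 2 + 1)) ×ˢ (range (m / 2 + 1)) with hT
  have hA : ∀ p : ℕ × ℕ, ν ≤ 2 ^ p.1 * |sd ((f p : ℝ) * α)| ∧ ν ≤ 2 ^ p.2 * |sd ((f p : ℝ) * β)| := by
    intro p
    have h := H (f p) (hf1 p)
    unfold lw at h
    have e1 := hf3 p
    have e2 := hf4 p
    have e3 : (f p : ℝ) ≤ 2 ^ p.1 * 2 ^ p.2 := by exact_mod_cast hf2 p
    have n1 := abs_nonneg (sd ((f p : ℝ) * α))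
    have n2 := abs_nonneg (sd ((f p : ℝ) * β))
    have p1 : (0 : ℝ) < 2 ^ p.1 := by positivity
    have p2 : (0 : ℝ) < 2 ^ p.2 := by positivity
    rw [le_div_iff₀ p1] at e1
    rw [le_div_iff₀ p2] at e2
    constructor
    · calc ν ≤ (f p : ℝ) * |sd ((f p : ℝ) * α)| * |sd ((f p : ℝ) * β)| := h
        _ ≤ (2 ^ p.1 * 2 ^ p.2) * |sd ((f p : ℝ) * α)| * |sd ((f p : ℝ) * β)| := by gcongr
        _ = 2 ^ p.1 * |sd ((f p : ℝ) * α)| * (|sd ((f p : ℝ) * β)| * 2 ^ p.2) := by ring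
        _ ≤ 2 ^ p.1 * |sd ((f p : ℝ) * α)| * 1 := by gcongr
        _ = _ := mul_one _
    · calc ν ≤ (f p : ℝ) * |sd ((f p : ℝ) * α)| * |sd ((f p : ℝ) * β)| := h
        _ ≤ (2 ^ p.1 * 2 ^ p.2) * |sd ((f p : ℝ) * α)| * |sd ((f p : ℝ) * β)| := by gcongr
        _ = 2 ^ p.2 * |sd ((f p : ℝ) * β)| * (|sd ((f p : ℝ) * α)| * 2 ^ p.1) := by ring
        _ ≤ 2 ^ p.2 * |sd ((f p : ℝ) * β)| * 1 := by gcongr
        _ = _ := mul_one _
  have hwin : ∀ p p' : ℕ × ℕ, f p = f p' → p.1 ≤ p'.1 + s ∧ p.2 ≤ p'.2 + s := by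
    intro p p' h
    obtain ⟨a1, a2⟩ := hA p'
    have b1 := hf3 p
    have b2 := hf4 p
    rw [← h] at a1 a2
    have gen : ∀ (i i' : ℕ) (x : ℝ), ν ≤ 2 ^ i' * x → x ≤ 1 / 2 ^ i → i ≤ i' + s := by
      intro i i' x h1 h2
      have p1 : (0 : ℝ) < 2 ^ i := by positivity
      have p2 : (0 : ℝ) < 2 ^ i' := by positivity
      rw [le_div_iff₀ p1] at h2
      have h3 : ν * 2 ^ i ≤ 2 ^ i' := by
        calc ν * 2 ^ i ≤ (2 ^ i' * x) * 2 ^ i := by gcongr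
          _ = 2 ^ i' * (x * 2 ^ i) := by ring
          _ ≤ 2 ^ i' * 1 := by gcongr
          _ = _ := mul_one _
      have h4 : (2 : ℝ) ^ i < 2 ^ (i' + s) := by
        rw [pow_add]
        rw [div_lt_iff₀ hν] at hs
        have h5 : (2 : ℝ) ^ i * 1 < 2 ^ i * (2 ^ s * ν) := by gcongr
        calc (2 : ℝ) ^ i = 2 ^ i * 1 := (mul_one _).symm
          _ < 2 ^ i * (2 ^ s * ν) := h5
          _ = (ν * 2 ^ i) * 2 ^ s := by ring
          _ ≤ 2 ^ i' * 2 ^ s := by gcongr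
      exact ((pow_lt_pow_iff_right₀ (by norm_num : (1 : ℝ) < 2)).1 h4).le
    exact ⟨gen _ _ _ a1 b1, gen _ _ _ a2 b2⟩
  have hcard : T.card ≤ ((s + 1) * (s + 1)) * (Good α β Λ N).card := by
    refine card_le_mul_card_image_of_maps_to (f := f) ?_ _ ?_
    · intro p hp
      rw [hT, mem_product, mem_range, mem_range] at hp
      rw [mem_Good]
      refine ⟨hf1 p, ?_, ?_⟩
      · refine (hf2 p).trans (le_trans ?_ hmN)
        rw [← pow_add]
        exact Nat.pow_le_pow_right (by norm_num) (by omega)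
      · refine le_trans ?_ hΛ
        have e3 : (f p : ℝ) ≤ 2 ^ p.1 * 2 ^ p.2 := by exact_mod_cast hf2 p
        have e1 := hf3 p
        have e2 := hf4 p
        unfold lw
        calc (f p : ℝ) * |sd ((f p : ℝ) * α)| * |sd ((f p : ℝ) * β)|
            ≤ (2 ^ p.1 * 2 ^ p.2) * (1 / 2 ^ p.1) * (1 / 2 ^ p.2) := by gcongr
          _ = 1 := by field_simp
    · intro q _
      set F := T.filter (fun p => f p = q) with hF
      rcases F.eq_empty_or_nonempty with he | hne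
      · rw [he]; simp
      obtain ⟨p1, hp1, hmin1⟩ := exists_min_image F (fun p => p.1) hne
      obtain ⟨p2, hp2, hmin2⟩ := exists_min_image F (fun p => p.2) hne
      have hsub : F ⊆ (Icc p1.1 (p1.1 + s)) ×ˢ (Icc p2.2 (p2.2 + s)) := by
        intro p hp
        rw [mem_product, mem_Icc, mem_Icc]
        have g0 : f p = q := (mem_filter.1 hp).2
        have g1 : f p1 = q := (mem_filter.1 hp1).2
        have g2 : f p2 = q := (mem_filter.1 hp2).2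
        exact ⟨⟨hmin1 p hp, (hwin p p1 (by rw [g0, g1])).1⟩,
          ⟨hmin2 p hp, (hwin p p2 (by rw [g0, g2])).2⟩⟩
      refine (card_le_card hsub).trans (le_of_eq ?_)
      rw [card_product, Nat.card_Icc, Nat.card_Icc]
      congr 1 <;> omega
  rw [hT, card_product, card_range] at hcard
  have hcard' : ((m / 2 + 1 : ℕ) : ℝ) * ((m / 2 + 1 : ℕ) : ℝ) ≤ ((s + 1) * (s + 1)) * (Good α β Λ N).card := by
    exact_mod_cast hcard
  have hN0 : (0 : ℝ) < N := by exact_mod_cast (by omega : 0 < N)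
  have hN1 : (1 : ℝ) ≤ N := by exact_mod_cast (by omega : 1 ≤ N)
  have hlog : Real.log N ≤ 2 * ((m / 2 + 1 : ℕ) : ℝ) := by
    have h1 : N < 2 ^ (m + 1) := Nat.lt_pow_succ_log_self (by norm_num) N
    have h2 : (N : ℝ) ≤ 2 ^ (m + 1) := by exact_mod_cast h1.le
    have h3 := Real.log_le_log hN0 h2
    rw [Real.log_pow] at h3
    have h4 : Real.log 2 ≤ 1 := by
      have := Real.log_two_lt_d9; linarith
    have h5 : ((m + 1 : ℕ) : ℝ) ≤ 2 * ((m / 2 + 1 : ℕ) : ℝ) := by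
      exact_mod_cast (by omega : m + 1 ≤ 2 * (m / 2 + 1))
    have h6 : (0 : ℝ) ≤ ((m + 1 : ℕ) : ℝ) := Nat.cast_nonneg _
    calc Real.log N ≤ ((m + 1 : ℕ) : ℝ) * Real.log 2 := h3
      _ ≤ ((m + 1 : ℕ) : ℝ) * 1 := mul_le_mul_of_nonneg_left h4 h6
      _ ≤ _ := by rw [mul_one]; exact h5
  have hlog0 : 0 ≤ Real.log N := Real.log_nonneg hN1
  rw [div_mul_eq_mul_div, div_le_iff₀ (by positivity)]
  have h7 : Real.log N ^ 2 ≤ (2 * ((m / 2 + 1 : ℕ) : ℝ)) ^ 2 := by gcongr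
  nlinarith

theorem upper (hν : 0 < ν) {Λ : ℝ} (hΛ : 1 ≤ Λ) : ∃ C : ℝ, 0 < C ∧ ∀ α β : ℝ, Bad ν α β →
    ∀ N : ℕ, 2 ≤ N → ((Good α β Λ N).card : ℝ) ≤ C * Real.log N ^ 2 := by
  classical
  obtain ⟨M, hM⟩ := strip hν (lt_of_lt_of_le one_pos hΛ)
  have hlog2 : 0 < Real.log 2 := Real.log_pos (by norm_num)
  set B : ℝ := 1 + (|Real.log ν| + 3) / Real.log 2 with hB
  refine ⟨M * B ^ 2 + 1, by positivity, fun α β H N hN => ?_⟩
  have hN2 : (2 : ℝ) ≤ N := by exact_mod_cast hN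
  have hlogN : Real.log 2 ≤ Real.log N := Real.log_le_log (by norm_num) hN2
  have hlogN0 : 0 < Real.log N := by linarith
  set S := Good α β Λ N with hS
  have hSm : ∀ q ∈ S, 1 ≤ q ∧ q ≤ N ∧ lw α β q ≤ Λ := fun q hq => mem_Good.1 hq
  have hZ : 0 ≤ Real.log N + |Real.log ν| := by positivity
  have h := cells S (kk α) (kk β) (Real.log N + |Real.log ν|) (Real.log N + |Real.log ν|) M hZ hZ
    (fun q hq => (kk_nonneg hν H (hSm q hq).1).1)
    (fun q hq => (kk_le hν H (hSm q hq).1 (hSm q hq).2.1).1)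
    (fun q hq => (kk_nonneg hν H (hSm q hq).1).2)
    (fun q hq q' hq' _ => by
      have e1 := (kk_nonneg hν H (hSm q hq).1).2
      have e2 := (kk_le hν H (hSm q' hq').1 (hSm q' hq').2.1).2
      linarith)
    (hM α β H N (by omega) S hSm).1
  have z1 : Real.log N + |Real.log ν| + 3 ≤ B * Real.log N := by
    have : |Real.log ν| + 3 ≤ (|Real.log ν| + 3) / Real.log 2 * Real.log N := by
      rw [div_mul_eq_mul_div, le_div_iff₀ hlog2]
      exact mul_le_mul_of_nonneg_left hlogN (by positivity)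
    rw [hB]; linarith
  have z2 : Real.log N + |Real.log ν| + 1 ≤ B * Real.log N := by linarith
  have hM0 : (0 : ℝ) ≤ M := Nat.cast_nonneg M
  calc ((S.card : ℕ) : ℝ) ≤ M * (Real.log N + |Real.log ν| + 3) * (Real.log N + |Real.log ν| + 1) := h
    _ ≤ M * (B * Real.log N) * (B * Real.log N) := by gcongr
    _ = M * B ^ 2 * Real.log N ^ 2 := by ring
    _ ≤ (M * B ^ 2 + 1) * Real.log N ^ 2 := by nlinarith [sq_nonneg (Real.log N)]

end

end Pool.Agent.U787.LA
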