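import Mathlib
import Pool.Agent.U787.LA4

/-! # Surfaces, subspaces and classes of values -/

set_option autoImplicit false

open Finset

namespace Pool.Agent.U787.LA

/-- the integer point of an approximation -/
noncomputable def ip (α β : ℝ) (q : ℕ) : Fin 3 → ℝ :=
  ![(q : ℝ), (round ((q : ℝ) * α) : ℝ), (round ((q : ℝ) * β) : ℝ)]

/-- the substitution `(x, αx - y, βx - z)` -/
noncomputable def subst (α β : ℝ) : Fin 3 → MvPolynomial (Fin 3) ℝ :=
  ![MvPolynomial.X 0, MvPolynomial.C α * MvPolynomial.X 0 - MvPolynomial.X 1,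
    MvPolynomial.C β * MvPolynomial.X 0 - MvPolynomial.X 2]

lemma subst_subst (α β : ℝ) (P : MvPolynomial (Fin 3) ℝ) :
    MvPolynomial.aeval (subst α β) (MvPolynomial.aeval (subst α β) P) = P := by
  have h : (MvPolynomial.aeval (subst α β)).comp (MvPolynomial.aeval (subst α β)) =
      AlgHom.id ℝ (MvPolynomial (Fin 3) ℝ) := by
    apply MvPolynomial.algHom_ext
    intro i
    rw [AlgHom.comp_apply, MvPolynomial.aeval_X]
    fin_cases i
    · simp [subst]
    · simp [subst, MvPolynomial.algebraMap_eq]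
    · simp [subst, MvPolynomial.algebraMap_eq]
  exact DFunLike.congr_fun h P

lemma eval_subst (α β : ℝ) (q : ℕ) (P : MvPolynomial (Fin 3) ℝ) :
    MvPolynomial.eval (pt α β q) (MvPolynomial.aeval (subst α β) P) =
      MvPolynomial.eval (ip α β q) P := by
  have h : (MvPolynomial.aeval (pt α β q)).comp (MvPolynomial.aeval (subst α β)) =
      (MvPolynomial.aeval (ip α β q) : MvPolynomial (Fin 3) ℝ →ₐ[ℝ] ℝ) := by
    apply MvPolynomial.algHom_ext
    intro i
    rw [AlgHom.comp_apply, MvPolynomial.aeval_X, MvPolynomial.aeval_X]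
    fin_cases i
    · simp [subst, pt, ip]
    · simp [subst, pt, ip, sd]
      ring
    · simp [subst, pt, ip, sd]
      ring
  have h2 := DFunLike.congr_fun h P
  rw [AlgHom.comp_apply] at h2
  simpa [MvPolynomial.coe_aeval_eq_eval] using h2

lemma hom_subst (α β : ℝ) {n : ℕ} {P : MvPolynomial (Fin 3) ℝ} (hP : P.IsHomogeneous n) :
    (MvPolynomial.aeval (subst α β) P).IsHomogeneous n := by
  have h := hP.aeval (subst α β) (n := 1) (fun i => by
    fin_cases i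
    · exact MvPolynomial.isHomogeneous_X _ _
    · have h1 : (MvPolynomial.C α * MvPolynomial.X 0 : MvPolynomial (Fin 3) ℝ).IsHomogeneous 1 := by
        have := (MvPolynomial.isHomogeneous_C (Fin 3) α).mul (MvPolynomial.isHomogeneous_X ℝ (0 : Fin 3))
        simpa using this
      exact h1.sub (MvPolynomial.isHomogeneous_X _ _)
    · have h1 : (MvPolynomial.C β * MvPolynomial.X 0 : MvPolynomial (Fin 3) ℝ).IsHomogeneous 1 := by
        have := (MvPolynomial.isHomogeneous_C (Fin 3) β).mul (MvPolynomial.isHomogeneous_X ℝ (0 : Fin 3))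
        simpa using this
      exact h1.sub (MvPolynomial.isHomogeneous_X _ _))
  simpa using h

/-- **Surfaces.** -/
theorem surfaces {ν : ℝ} (hν : 0 < ν) {Λ : ℝ} (hΛ : 1 ≤ Λ) (n : ℕ) : ∃ C : ℝ, 0 < C ∧ ∀ α β : ℝ,
    Bad ν α β → ∀ N : ℕ, 2 ≤ N → ∀ P : MvPolynomial (Fin 3) ℝ, P ≠ 0 → P.IsHomogeneous n →
    ∀ S : Finset ℕ, S ⊆ Good α β Λ N → (∀ q ∈ S, MvPolynomial.eval (ip α β q) P = 0) →
    (S.card : ℝ) ≤ C * Real.log N := by
  obtain ⟨C, hC, h⟩ := forms hν hΛ n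
  refine ⟨C, hC, fun α β H N hN P hP0 hP S hS hz => ?_⟩
  refine h α β H N hN (MvPolynomial.aeval (subst α β) P) (hom_subst α β hP) S hS ?_
  intro q hq
  have hG0 : MvPolynomial.aeval (subst α β) P ≠ 0 := by
    intro h0
    apply hP0
    rw [← subst_subst α β P, h0, map_zero]
  obtain ⟨μ, hμ⟩ := MvPolynomial.support_nonempty.2 hG0
  refine ⟨μ, hμ, ?_⟩
  rw [eval_subst, hz q hq, abs_zero]
  have hq1 := (mem_Good.1 (hS hq)).1
  have h1 := Bad.a_ne hν H hq1
  have h2 := Bad.b_ne hν H hq1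
  have hq' : (0 : ℝ) < q := by exact_mod_cast hq1
  have h3 : 0 < |MvPolynomial.coeff μ (MvPolynomial.aeval (subst α β) P)| :=
    abs_pos.2 (MvPolynomial.mem_support_iff.1 hμ)
  unfold mono
  positivity

/-- a cubic form -/
noncomputable def cubic (c : Fin 4 → ℝ) : MvPolynomial (Fin 3) ℝ :=
  MvPolynomial.C (c 0) * MvPolynomial.X 0 ^ 3 -
    MvPolynomial.C (c 1) * (MvPolynomial.X 0 ^ 2 * MvPolynomial.X 2) -
    MvPolynomial.C (c 2) * (MvPolynomial.X 0 ^ 2 * MvPolynomial.X 1) +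
    MvPolynomial.C (c 3) * (MvPolynomial.X 0 * MvPolynomial.X 1 * MvPolynomial.X 2)

lemma cubic_eval (c : Fin 4 → ℝ) (x : Fin 3 → ℝ) : MvPolynomial.eval x (cubic c) =
    c 0 * x 0 ^ 3 - c 1 * (x 0 ^ 2 * x 2) - c 2 * (x 0 ^ 2 * x 1) + c 3 * (x 0 * x 1 * x 2) := by
  simp [cubic]

lemma cubic_ne {c : Fin 4 → ℝ} (hc : c ≠ 0) : cubic c ≠ 0 := by
  intro h
  apply hc
  have h1 := cubic_eval c ![1, 0, 0]
  have h2 := cubic_eval c ![1, 0, 1]
  have h3 := cubic_eval c ![1, 1, 0]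
  have h4 := cubic_eval c ![1, 1, 1]
  rw [h, map_zero] at h1 h2 h3 h4
  simp at h1 h2 h3 h4
  have e0 : c 0 = 0 := h1.symm
  rw [e0] at h2 h3 h4
  have e1 : c 1 = 0 := by linarith
  have e2 : c 2 = 0 := by linarith
  have e3 : c 3 = 0 := by rw [e1, e2] at h4; linarith
  funext i
  fin_cases i
  · exact e0
  · exact e1
  · exact e2
  · exact e3

lemma cubic_hom (c : Fin 4 → ℝ) : (cubic c).IsHomogeneous 3 := by
  have hX : ∀ i : Fin 3, (MvPolynomial.X i : MvPolynomial (Fin 3) ℝ).IsHomogeneous 1 :=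
    fun i => MvPolynomial.isHomogeneous_X _ _
  have hC : ∀ (a : ℝ) (Q : MvPolynomial (Fin 3) ℝ), Q.IsHomogeneous 3 →
      (MvPolynomial.C a * Q).IsHomogeneous 3 := by
    intro a Q hQ
    have := (MvPolynomial.isHomogeneous_C (Fin 3) a).mul hQ
    simpa using this
  unfold cubic
  refine (((hC _ _ ?_).sub (hC _ _ ?_)).sub (hC _ _ ?_)).add (hC _ _ ?_)
  · simpa using (hX 0).pow 3
  · have := ((hX 0).pow 2).mul (hX 2)
    simpa using this
  · have := ((hX 0).pow 2).mul (hX 1)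
    simpa using this
  · have := ((hX 0).mul (hX 1)).mul (hX 2)
    simpa using this

lemma signed (α β : ℝ) (q : ℕ) (W : Submodule ℚ ℝ) (h : lw α β q ∈ W) :
    (q : ℝ) * sd ((q : ℝ) * α) * sd ((q : ℝ) * β) ∈ W := by
  have h0 : lw α β q = |(q : ℝ) * sd ((q : ℝ) * α) * sd ((q : ℝ) * β)| := by
    unfold lw
    rw [abs_mul, abs_mul, Nat.abs_cast]
  rw [h0] at h
  rcases abs_choice ((q : ℝ) * sd ((q : ℝ) * α) * sd ((q : ℝ) * β)) with h1 | h1
  · rwa [h1] at h
  · rw [h1] at h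
    exact neg_mem_iff.1 h

/-- values in a subspace give a cubic form -/
lemma exists_cubic (α β : ℝ) (W : Submodule ℚ ℝ) (hW : ¬ ((1 : ℝ) ∈ W ∧ α ∈ W ∧ β ∈ W ∧ α * β ∈ W)) :
    ∃ c : Fin 4 → ℝ, c ≠ 0 ∧ ∀ q : ℕ, lw α β q ∈ W → MvPolynomial.eval (ip α β q) (cubic c) = 0 := by
  classical
  set v : Fin 4 → ℝ := ![α * β, α, β, 1] with hv
  set φ : (Fin 4 → ℚ) →ₗ[ℚ] ℝ := Fintype.linearCombination ℚ v with hφ
  set w : ℕ → (Fin 4 → ℚ) := fun q => ![(q : ℚ) ^ 3, -((q : ℚ) ^ 2 * (round ((q : ℝ) * β) : ℚ)),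
    -((q : ℚ) ^ 2 * (round ((q : ℝ) * α) : ℚ)),
    (q : ℚ) * (round ((q : ℝ) * α) : ℚ) * (round ((q : ℝ) * β) : ℚ)] with hw
  have hφw : ∀ q : ℕ, φ (w q) = (q : ℝ) * sd ((q : ℝ) * α) * sd ((q : ℝ) * β) := by
    intro q
    rw [hφ, Fintype.linearCombination_apply, Fin.sum_univ_four]
    simp only [hw, hv, sd, Rat.smul_def, Matrix.cons_val_zero, Matrix.cons_val_one,
      Matrix.cons_val]
    push_cast
    ring
  set U : Submodule ℚ (Fin 4 → ℚ) := Submodule.span ℚ (w '' {q | lw α β q ∈ W}) with hU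
  have hUW : U ≤ W.comap φ := by
    rw [hU, Submodule.span_le]
    rintro _ ⟨q, hq, rfl⟩
    rw [SetLike.mem_coe, Submodule.mem_comap, hφw]
    exact signed α β q W hq
  have hlt : U < ⊤ := by
    rw [lt_top_iff_ne_top]
    intro htop
    apply hW
    have hall : ∀ i, v i ∈ W := by
      intro i
      have h1 : (Pi.single i (1 : ℚ)) ∈ U := by rw [htop]; trivial
      have h2 := hUW h1
      rw [Submodule.mem_comap, hφ, Fintype.linearCombination_apply_single, one_smul] at h2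
      exact h2
    exact ⟨hall 3, hall 1, hall 2, hall 0⟩
  obtain ⟨f, hf0, hf⟩ := Submodule.exists_le_ker_of_lt_top U hlt
  refine ⟨fun i => ((f (Pi.single i 1) : ℚ) : ℝ), ?_, ?_⟩
  · intro h0
    apply hf0
    refine LinearMap.pi_ext' fun i => ?_
    ext
    have := congrFun h0 i
    simp only [Pi.zero_apply, Rat.cast_eq_zero] at this
    simp [this]
  · intro q hq
    have h1 : f (w q) = 0 := LinearMap.mem_ker.1 (hf (Submodule.subset_span ⟨q, hq, rfl⟩))
    have h2 : f (w q) = ∑ i, w q i * f (Pi.single i 1) := by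
      rw [LinearMap.pi_apply_eq_sum_univ f (w q)]
      refine sum_congr rfl fun i _ => ?_
      rw [smul_eq_mul]
      congr 2
      funext j
      by_cases hij : i = j
      · subst hij; simp
      · simp [hij, Pi.single_apply, Ne.symm hij]
    rw [h2, Fin.sum_univ_four] at h1
    rw [cubic_eval]
    have h3 : (((w q 0 * f (Pi.single 0 1) + w q 1 * f (Pi.single 1 1) + w q 2 * f (Pi.single 2 1) +
      w q 3 * f (Pi.single 3 1) : ℚ)) : ℝ) = 0 := by rw [h1]; norm_num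
    simp only [hw, Matrix.cons_val_zero, Matrix.cons_val_one, Matrix.cons_val] at h3
    push_cast at h3
    simp only [ip, Matrix.cons_val_zero, Matrix.cons_val_one, Matrix.cons_val]
    linarith

/-- **Values in subspaces.** -/
theorem subspaces {ν : ℝ} (hν : 0 < ν) {Λ : ℝ} (hΛ : 1 ≤ Λ) : ∃ C : ℝ, 0 < C ∧ ∀ α β : ℝ,
    Bad ν α β → ∀ N : ℕ, 2 ≤ N → ∀ W : Submodule ℚ ℝ,
    ¬ ((1 : ℝ) ∈ W ∧ α ∈ W ∧ β ∈ W ∧ α * β ∈ W) →
    ∀ S : Finset ℕ, S ⊆ Good α β Λ N → (∀ q ∈ S, lw α β q ∈ W) →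
    (S.card : ℝ) ≤ C * Real.log N := by
  obtain ⟨C, hC, h⟩ := surfaces hν hΛ 3
  refine ⟨C, hC, fun α β H N hN W hW S hS hSW => ?_⟩
  obtain ⟨c, hc, hz⟩ := exists_cubic α β W hW
  exact h α β H N hN (cubic c) (cubic_ne hc) (cubic_hom c) S hS (fun q hq => hz q (hSW q hq))

end Pool.Agent.U787.LA
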