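import Mathlib
import Pool.Agent.U787.LA5

/-! # Classes of values modulo the rational numbers -/

set_option autoImplicit false

open Finset

namespace Pool.Agent.U787.LA

lemma sd_int (m : ℤ) : sd (m : ℝ) = 0 := by
  unfold sd; rw [round_intCast]; ring

lemma sd_mul_of_zero {x : ℝ} (h : sd x = 0) (k : ℕ) : sd ((k : ℝ) * x) = 0 := by
  have h1 : x = (round x : ℝ) := by unfold sd at h; linarith
  have h2 : (k : ℝ) * x = (((k : ℤ) * round x : ℤ) : ℝ) := by
    rw [h1]; push_cast; rw [round_intCast]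
  rw [h2, sd_int]

lemma Bad.irr {ν α β : ℝ} (hν : 0 < ν) (H : Bad ν α β) : Irrational α := by
  rintro ⟨r, hr⟩
  have hd : 1 ≤ r.den := r.den_pos
  have h := Bad.a_ne hν H hd
  have h1 : ((r.den : ℕ) : ℝ) * α = ((r.num : ℤ) : ℝ) := by
    rw [← hr, mul_comm]
    have := Rat.mul_den_eq_num r
    exact_mod_cast this
  rw [h1, sd_int] at h
  simp at h

/-- a lower bound for large `q` gives one for all `q` -/
lemma exists_bad {ε α β : ℝ} (hε : 0 < ε) {N : ℕ} (h : ∀ q : ℕ, N ≤ q → 0 < q → ε ≤ lw α β q) :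
    ∃ ν : ℝ, 0 < ν ∧ Bad ν α β := by
  classical
  have hpos : ∀ q : ℕ, 1 ≤ q → 0 < lw α β q := by
    intro q hq
    by_contra hcon
    have hq' : (0 : ℝ) < q := by exact_mod_cast hq
    have h0 : lw α β q = 0 := le_antisymm (not_lt.1 hcon) (by unfold lw; positivity)
    unfold lw at h0
    have h1 : sd ((q : ℝ) * α) = 0 ∨ sd ((q : ℝ) * β) = 0 := by
      rcases mul_eq_zero.1 h0 with h2 | h2
      · rcases mul_eq_zero.1 h2 with h3 | h3
        · exact absurd h3 hq'.ne'
        · left; exact abs_eq_zero.1 h3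
      · right; exact abs_eq_zero.1 h2
    have h2 := h ((N + 1) * q) (by nlinarith) (by positivity)
    have h3 : lw α β ((N + 1) * q) = 0 := by
      unfold lw
      push_cast
      rcases h1 with h1 | h1
      · have := sd_mul_of_zero h1 (N + 1)
        push_cast at this
        rw [mul_assoc ((N : ℝ) + 1) (q : ℝ) α, this]
        simp
      · have := sd_mul_of_zero h1 (N + 1)
        push_cast at this
        rw [mul_assoc ((N : ℝ) + 1) (q : ℝ) β, this]
        simp
    rw [h3] at h2
    linarith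
  rcases (Icc 1 N).eq_empty_or_nonempty with he | hne
  · refine ⟨ε, hε, fun q hq => h q ?_ hq⟩
    rw [Icc_eq_empty_iff] at he
    omega
  · obtain ⟨q0, hq0, hmin⟩ := exists_min_image (Icc 1 N) (lw α β) hne
    refine ⟨min ε (lw α β q0), lt_min hε (hpos q0 (mem_Icc.1 hq0).1), fun q hq => ?_⟩
    rcases le_total N q with hNq | hNq
    · exact (min_le_left _ _).trans (h q hNq hq)
    · exact (min_le_right _ _).trans (hmin q (mem_Icc.2 ⟨hq, hNq⟩))

/-- **Classes of values.** -/
theorem classes {ν : ℝ} (hν : 0 < ν) {Λ : ℝ} (hΛ : 1 ≤ Λ) : ∃ c : ℝ, 0 < c ∧ ∀ α β : ℝ,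
    Bad ν α β → ∀ N : ℕ, 2 ≤ N → ∃ R : Finset ℕ, R ⊆ Good α β Λ N ∧ c * Real.log N ≤ R.card ∧
      ∀ q ∈ R, ∀ q' ∈ R, q ≠ q' → Irrational (lw α β q / lw α β q') := by
  classical
  obtain ⟨C, hC, hsub⟩ := subspaces hν hΛ
  obtain ⟨c, hc, hlow⟩ := lower hν
  refine ⟨c / C, by positivity, fun α β H N hN => ?_⟩
  have hN2 : (2 : ℝ) ≤ N := by exact_mod_cast hN
  have hlogN0 : 0 < Real.log N := Real.log_pos (by linarith)
  set S := Good α β Λ N with hS
  set f : ℕ → Submodule ℚ ℝ := fun q => Submodule.span ℚ {lw α β q} with hf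
  have hpos : ∀ q ∈ S, 0 < lw α β q := fun q hq => lt_of_lt_of_le hν (H q (mem_Good.1 hq).1)
  obtain ⟨R, hRS, hRi, hRinj⟩ : ∃ R : Finset ℕ, R ⊆ S ∧ R.image f = S.image f ∧ Set.InjOn f R := by
    obtain ⟨R, hR1, hR2, hR3⟩ := Finset.exists_subset_injOn_image_eq_of_surjOn (f := f)
      (s := (S : Set ℕ)) (t := S.image f) (by
        intro y hy
        rw [mem_coe, mem_image] at hy
        obtain ⟨x, hx, rfl⟩ := hy
        exact ⟨x, hx, rfl⟩)
    exact ⟨R, by exact_mod_cast hR1, by simpa using hR3, hR2⟩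
  refine ⟨R, hRS, ?_, ?_⟩
  · have hcl : ∀ q ∈ S, ((S.filter (fun q' => f q' = f q)).card : ℝ) ≤ C * Real.log N := by
      intro q hq
      refine hsub α β H N hN (f q) ?_ _ (filter_subset _ _) ?_
      · rintro ⟨h1, h2, -, -⟩
        rw [hf] at h1 h2
        simp only [Submodule.mem_span_singleton] at h1 h2
        obtain ⟨a, ha⟩ := h1
        obtain ⟨b, hb⟩ := h2
        apply Bad.irr hν H
        rw [Rat.smul_def] at ha hb
        have ha0 : (a : ℝ) ≠ 0 := by
          intro h0; rw [h0, zero_mul] at ha; exact zero_ne_one ha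
        refine ⟨b / a, ?_⟩
        push_cast
        rw [div_eq_iff ha0, ← hb]
        calc (b : ℝ) = b * 1 := (mul_one _).symm
          _ = b * (a * lw α β q) := by rw [ha]
          _ = b * lw α β q * a := by ring
      · intro q' hq'
        have h1 : f q' = f q := (mem_filter.1 hq').2
        rw [← h1]
        exact Submodule.mem_span_singleton_self _
    have hcard : (S.card : ℝ) ≤ (C * Real.log N) * ((S.image f).card : ℝ) := by
      rw [card_eq_sum_card_image f S]
      push_cast
      calc ∑ b ∈ S.image f, ((S.filter (fun a => f a = b)).card : ℝ)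
          ≤ ∑ _b ∈ S.image f, C * Real.log N := by
            refine sum_le_sum fun b hb => ?_
            obtain ⟨q, hq, rfl⟩ := mem_image.1 hb
            exact hcl q hq
        _ = _ := by rw [sum_const, nsmul_eq_mul]; ring
    have hRc : (S.image f).card ≤ R.card := by
      rw [← hRi]; exact card_image_le
    have hRc' : ((S.image f).card : ℝ) ≤ R.card := by exact_mod_cast hRc
    have h1 := hlow α β H Λ hΛ N hN
    have h2 : c * Real.log N ^ 2 ≤ (C * Real.log N) * R.card := by
      refine h1.trans (hcard.trans ?_)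
      exact mul_le_mul_of_nonneg_left hRc' (by positivity)
    rw [div_mul_eq_mul_div, div_le_iff₀ hC]
    have h3 : (c * Real.log N) * Real.log N ≤ (R.card * C) * Real.log N := by
      calc _ = c * Real.log N ^ 2 := by ring
        _ ≤ _ := h2
        _ = _ := by ring
    exact le_of_mul_le_mul_right h3 hlogN0
  · rintro q hq q' hq' hne ⟨r, hr⟩
    apply hne
    apply hRinj hq hq'
    have p1 := hpos q (hRS hq)
    have p2 := hpos q' (hRS hq')
    have hr0 : (r : ℝ) ≠ 0 := by
      rw [hr]; positivity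
    have hr0' : r ≠ 0 := by exact_mod_cast hr0
    have h1 : lw α β q = r • lw α β q' := by
      rw [Rat.smul_def, hr, div_mul_cancel₀ _ p2.ne']
    rw [hf]
    simp only
    rw [h1]
    exact Submodule.span_singleton_smul_eq (IsUnit.mk0 r hr0') _

end Pool.Agent.U787.LA
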