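import Mathlib

/-! # More than `n (n - 1)` values of a product of `n` linear forms are dependent -/

open Matrix Filter Topology

namespace Pool.Agent.U787.LC

variable {k : ℕ}

/-- the index set of the variables -/
abbrev Ix (k : ℕ) := Fin (k + 1) × Fin k

/-- the polynomial `∏ i, (x 0 + ∑ j, u i j * x (j + 1))` -/
noncomputable def fpoly (x : Fin (k + 1) → ℤ) : MvPolynomial (Ix k) ℚ :=
  ∏ i : Fin (k + 1), ((x 0 : MvPolynomial (Ix k) ℚ) +
    ∑ j : Fin k, MvPolynomial.X (i, j) * (x j.succ : MvPolynomial (Ix k) ℚ))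

/-- the determinant of the rows `(1, u i 1, ..., u i k)` -/
noncomputable def dpoly (k : ℕ) : MvPolynomial (Ix k) ℚ :=
  (Matrix.of fun i : Fin (k + 1) => (Fin.cons 1 (fun j : Fin k => MvPolynomial.X (i, j)) :
    Fin (k + 1) → MvPolynomial (Ix k) ℚ)).det

lemma eval_f (x : Fin (k + 1) → ℤ) (u : Ix k → ℝ) :
    MvPolynomial.aeval u (fpoly x) =
      ∏ i : Fin (k + 1), ((x 0 : ℝ) + ∑ j : Fin k, u (i, j) * x j.succ) := by
  unfold fpoly
  rw [map_prod]
  refine Finset.prod_congr rfl fun i _ => ?_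
  rw [map_add, map_sum, map_intCast]
  congr 1
  refine Finset.sum_congr rfl fun j _ => ?_
  rw [map_mul, MvPolynomial.aeval_X, map_intCast]

lemma eval_d (u : Ix k → ℝ) :
    MvPolynomial.aeval u (dpoly k) = (Matrix.of fun i : Fin (k + 1) =>
      (Fin.cons 1 (fun j : Fin k => u (i, j)) : Fin (k + 1) → ℝ)).det := by
  unfold dpoly
  rw [AlgHom.map_det]
  congr 1
  ext i j
  refine Fin.cases ?_ (fun j => ?_) j
  · simp
  · simp

lemma dpoly_ne (k : ℕ) : dpoly k ≠ 0 := by
  intro h
  have h1 := eval_d (k := k) (fun a => ((a.1 : ℕ) : ℝ) ^ ((a.2 : ℕ) + 1))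
  rw [h, map_zero] at h1
  have h2 : (Matrix.of fun i : Fin (k + 1) => (Fin.cons 1 (fun j : Fin k =>
      ((i : ℕ) : ℝ) ^ ((j : ℕ) + 1)) : Fin (k + 1) → ℝ)) =
      Matrix.vandermonde (fun i : Fin (k + 1) => ((i : ℕ) : ℝ)) := by
    ext i j
    refine Fin.cases ?_ (fun j => ?_) j
    · simp [Matrix.vandermonde_apply]
    · simp [Matrix.vandermonde_apply]
  rw [h2] at h1
  refine Matrix.det_vandermonde_ne_zero_iff.2 ?_ h1.symm
  intro i j hij
  have h3 : ((i : ℕ) : ℝ) = ((j : ℕ) : ℝ) := hij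
  have : (i : ℕ) = j := by exact_mod_cast h3
  exact Fin.ext this

abbrev AA (k : ℕ) := Localization.Away (dpoly k)

instance : IsDomain (AA k) :=
  IsLocalization.isDomain_localization (powers_le_nonZeroDivisors_of_noZeroDivisors (dpoly_ne k))

lemma trdeg_AA : Algebra.trdeg ℚ (AA k) = ((k + 1) * k : ℕ) := by
  have hinj : Function.Injective (algebraMap (MvPolynomial (Ix k) ℚ) (AA k)) :=
    IsLocalization.injective _ (powers_le_nonZeroDivisors_of_noZeroDivisors (dpoly_ne k))
  have : FaithfulSMul (MvPolynomial (Ix k) ℚ) (AA k) := (faithfulSMul_iff_algebraMap_injective _ _).2 hinj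
  have : Algebra.IsAlgebraic (MvPolynomial (Ix k) ℚ) (AA k) :=
    IsLocalization.isAlgebraic _ (Submonoid.powers (dpoly k))
  have h1 := trdeg_add_eq ℚ (MvPolynomial (Ix k) ℚ) (A := AA k)
  rw [trdeg_eq_zero (R := MvPolynomial (Ix k) ℚ) (A := AA k), add_zero, MvPolynomial.trdeg_of_isDomain] at h1
  rw [← h1]
  simp

/-- the element `f / d` of the localization -/
noncomputable def rr (x : Fin (k + 1) → ℤ) : AA k :=
  IsLocalization.mk' (AA k) (fpoly x) (⟨dpoly k, 1, pow_one _⟩ : Submonoid.powers (dpoly k))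

lemma exists_rel0 {m : ℕ} (hm : (k + 1) * k < m) (x : Fin m → Fin (k + 1) → ℤ) :
    ∃ P : MvPolynomial (Fin m) ℚ, P ≠ 0 ∧ MvPolynomial.aeval (fun l => rr (x l)) P = 0 := by
  have h : ¬ AlgebraicIndependent ℚ (fun l => rr (x l)) := by
    intro h
    have h1 := h.cardinalMk_le_trdeg
    rw [trdeg_AA, Cardinal.mk_fin] at h1
    have h2 : m ≤ (k + 1) * k := by exact_mod_cast h1
    omega
  rw [algebraicIndependent_iff] at h
  push Not at h
  obtain ⟨P, hP, hne⟩ := h
  exact ⟨P, hne, hP⟩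

lemma rel_u {m : ℕ} {x : Fin m → Fin (k + 1) → ℤ} {P : MvPolynomial (Fin m) ℚ}
    (hP : MvPolynomial.aeval (fun l => rr (x l)) P = 0) (u : Ix k → ℝ)
    (hu : MvPolynomial.aeval u (dpoly k) ≠ 0) :
    MvPolynomial.aeval (fun l => MvPolynomial.aeval u (fpoly (x l)) / MvPolynomial.aeval u (dpoly k)) P = 0 := by
  have hf : ∀ y : Submonoid.powers (dpoly k), IsUnit ((MvPolynomial.aeval u : MvPolynomial (Ix k) ℚ →ₐ[ℚ] ℝ) y) := by
    rintro ⟨_, n, rfl⟩
    rw [map_pow]
    exact (isUnit_iff_ne_zero.2 hu).pow n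
  set φ : AA k →ₐ[ℚ] ℝ := IsLocalization.liftAlgHom (M := Submonoid.powers (dpoly k)) (S := AA k) hf with hφ
  have h1 : ∀ y : Fin (k + 1) → ℤ, φ (rr y) = MvPolynomial.aeval u (fpoly y) / MvPolynomial.aeval u (dpoly k) := by
    intro y
    rw [eq_div_iff hu, rr]
    have h2 : φ (algebraMap _ (AA k) (dpoly k)) = MvPolynomial.aeval u (dpoly k) := by
      rw [hφ, IsLocalization.liftAlgHom_apply, IsLocalization.lift_eq]
      rfl
    rw [← h2, ← map_mul, mul_comm, IsLocalization.mk'_spec' (M := Submonoid.powers (dpoly k)) (AA k) (fpoly y) ⟨dpoly k, 1, pow_one _⟩]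
    rw [hφ, IsLocalization.liftAlgHom_apply, IsLocalization.lift_eq]
    rfl
  have h2 := congrArg φ hP
  rw [map_zero] at h2
  have h3 : φ.comp (MvPolynomial.aeval (fun l => rr (x l))) = MvPolynomial.aeval
      (fun l => MvPolynomial.aeval u (fpoly (x l)) / MvPolynomial.aeval u (dpoly k)) := by
    refine MvPolynomial.algHom_ext fun l => ?_
    rw [AlgHom.comp_apply, MvPolynomial.aeval_X, MvPolynomial.aeval_X, h1]
  rw [← h3, AlgHom.comp_apply, h2]

/-- the product of the linear forms given by the rows of `h` -/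
noncomputable def Fm {n : ℕ} (h : Matrix (Fin n) (Fin n) ℝ) (x : Fin n → ℤ) : ℝ :=
  ∏ i : Fin n, ∑ j : Fin n, h i j * (x j : ℝ)

lemma rel_h {m : ℕ} {x : Fin m → Fin (k + 1) → ℤ} {P : MvPolynomial (Fin m) ℚ}
    (hP : MvPolynomial.aeval (fun l => rr (x l)) P = 0) (h : Matrix (Fin (k + 1)) (Fin (k + 1)) ℝ)
    (h0 : ∀ i, h i 0 ≠ 0) (hd : h.det ≠ 0) :
    MvPolynomial.aeval (fun l => Fm h (x l) / h.det) P = 0 := by
  set u : Ix k → ℝ := fun a => h a.1 a.2.succ / h a.1 0 with hu
  have h1 : ∀ y : Fin (k + 1) → ℤ, Fm h y = (∏ i, h i 0) * MvPolynomial.aeval u (fpoly y) := by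
    intro y
    rw [eval_f, ← Finset.prod_mul_distrib, Fm]
    refine Finset.prod_congr rfl fun i _ => ?_
    rw [Fin.sum_univ_succ, mul_add, Finset.mul_sum]
    congr 1
    refine Finset.sum_congr rfl fun j _ => ?_
    have hi := h0 i
    simp only [hu]
    field_simp
  have h2 : h.det = (∏ i, h i 0) * MvPolynomial.aeval u (dpoly k) := by
    rw [eval_d, ← Matrix.det_mul_column]
    congr 1
    ext i j
    refine Fin.cases ?_ (fun j => ?_) j
    · simp
    · have hi := h0 i
      simp only [hu, Matrix.of_apply, Fin.cons_succ]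
      field_simp
  have hp : (∏ i, h i 0) ≠ 0 := Finset.prod_ne_zero_iff.2 fun i _ => h0 i
  have hd' : MvPolynomial.aeval u (dpoly k) ≠ 0 := fun h3 => hd (by rw [h2, h3, mul_zero])
  have h3 : (fun l => Fm h (x l) / h.det) = fun l =>
      MvPolynomial.aeval u (fpoly (x l)) / MvPolynomial.aeval u (dpoly k) := by
    funext l
    rw [h1, h2, mul_div_mul_left _ _ hp]
  rw [h3]
  exact rel_u hP u hd'

lemma continuous_aeval {m : ℕ} (P : MvPolynomial (Fin m) ℚ) :
    Continuous fun v : Fin m → ℝ => MvPolynomial.aeval v P := by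
  have : (fun v : Fin m → ℝ => MvPolynomial.aeval v P) =
      fun v => MvPolynomial.eval v (MvPolynomial.map (algebraMap ℚ ℝ) P) := by
    funext v
    rw [MvPolynomial.eval_map, MvPolynomial.aeval_def]
  rw [this]
  exact MvPolynomial.continuous_eval _

lemma rel_all {m : ℕ} {x : Fin m → Fin (k + 1) → ℤ} {P : MvPolynomial (Fin m) ℚ}
    (hP : MvPolynomial.aeval (fun l => rr (x l)) P = 0) (h : Matrix (Fin (k + 1)) (Fin (k + 1)) ℝ)
    (hd : h.det ≠ 0) :
    MvPolynomial.aeval (fun l => Fm h (x l) / h.det) P = 0 := by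
  set H : ℝ → Matrix (Fin (k + 1)) (Fin (k + 1)) ℝ :=
    fun t => Matrix.of fun i j => h i j + if j = 0 then t else 0 with hH
  have hH0 : H 0 = h := by
    ext i j
    simp [hH]
  have hHc : Continuous H := by
    refine continuous_matrix fun i j => ?_
    simp only [hH, Matrix.of_apply]
    split_ifs
    · fun_prop
    · fun_prop
  have hdc : Continuous fun t => (H t).det := hHc.matrix_det
  have hev1 : ∀ᶠ t in 𝓝[≠] (0 : ℝ), (H t).det ≠ 0 := by
    refine (hdc.tendsto 0).eventually_ne ?_ |>.filter_mono nhdsWithin_le_nhds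
    rw [hH0]; exact hd
  have hev2 : ∀ᶠ t in 𝓝[≠] (0 : ℝ), ∀ i, H t i 0 ≠ 0 := by
    refine Filter.eventually_all.2 fun i => ?_
    simp only [hH, Matrix.of_apply, if_true]
    by_cases hi : h i 0 = 0
    · filter_upwards [self_mem_nhdsWithin] with t ht
      rw [hi, zero_add]
      exact ht
    · have hc : Continuous fun t : ℝ => h i 0 + t := by fun_prop
      have := (hc.tendsto 0).eventually_ne (b₂ := (0 : ℝ)) (by rwa [add_zero])
      exact this.filter_mono nhdsWithin_le_nhds
  have hFc : ∀ y, Continuous fun t => Fm (H t) y := by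
    intro y
    unfold Fm
    refine continuous_finsetProd _ fun i _ => continuous_finsetSum _ fun j _ => ?_
    exact (hHc.matrix_elem i j).mul continuous_const
  have hlim : Tendsto (fun t => MvPolynomial.aeval (fun l => Fm (H t) (x l) / (H t).det) P)
      (𝓝[≠] (0 : ℝ)) (𝓝 (MvPolynomial.aeval (fun l => Fm h (x l) / h.det) P)) := by
    have hca : ContinuousAt (fun t => (fun l => Fm (H t) (x l) / (H t).det : Fin m → ℝ)) 0 := by
      refine continuousAt_pi.2 fun l => ?_
      refine ((hFc (x l)).continuousAt).div hdc.continuousAt ?_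
      rw [hH0]; exact hd
    have h2 := ((continuous_aeval P).continuousAt.comp hca).tendsto
    simp only [Function.comp_def, hH0] at h2
    exact h2.mono_left nhdsWithin_le_nhds
  have hz : (fun t => MvPolynomial.aeval (fun l => Fm (H t) (x l) / (H t).det) P)
      =ᶠ[𝓝[≠] (0 : ℝ)] fun _ => 0 := by
    filter_upwards [hev1, hev2] with t h1 h2
    exact rel_h hP (H t) h2 h1
  exact tendsto_nhds_unique hlim (tendsto_const_nhds.congr' hz.symm)

/-- more than `n (n - 1)` values of a product of `n` independent linear forms, divided by the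
absolute value of the determinant, satisfy a polynomial relation which depends only on the points -/
theorem relation {n m : ℕ} (hn : 0 < n) (hm : n * (n - 1) < m) (x : Fin m → Fin n → ℤ) :
    ∃ P : MvPolynomial (Fin m) ℚ, P ≠ 0 ∧ ∀ h : Matrix (Fin n) (Fin n) ℝ, h.det ≠ 0 →
      MvPolynomial.aeval (fun l => Fm h (x l) / |h.det|) P = 0 := by
  classical
  obtain ⟨k, rfl⟩ : ∃ k, n = k + 1 := ⟨n - 1, by omega⟩
  rw [Nat.add_sub_cancel] at hm
  obtain ⟨P, hP, hr⟩ := exists_rel0 hm x
  set sb : MvPolynomial (Fin m) ℚ →ₐ[ℚ] MvPolynomial (Fin m) ℚ :=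
    MvPolynomial.aeval (fun l => - MvPolynomial.X l) with hsb
  have hsbsb : ∀ (Q : MvPolynomial (Fin m) ℚ), sb (sb Q) = Q := by
    intro Q
    have h1 : sb.comp sb = AlgHom.id ℚ _ := by
      refine MvPolynomial.algHom_ext fun l => ?_
      simp only [hsb, AlgHom.comp_apply, MvPolynomial.aeval_X, map_neg, neg_neg, AlgHom.id_apply]
    exact DFunLike.congr_fun h1 Q
  refine ⟨P * sb P, mul_ne_zero hP ?_, ?_⟩
  · intro h0
    apply hP
    rw [← hsbsb P, h0, map_zero]
  · intro h hd
    rw [map_mul]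
    rcases abs_cases h.det with ⟨h1, -⟩ | ⟨h1, -⟩
    · rw [h1, rel_all hr h hd, zero_mul]
    · have h2 : MvPolynomial.aeval (fun l => Fm h (x l) / |h.det|) (sb P) =
          MvPolynomial.aeval (fun l => Fm h (x l) / h.det) P := by
        have h3 : ((MvPolynomial.aeval (fun l => Fm h (x l) / |h.det|) :
            MvPolynomial (Fin m) ℚ →ₐ[ℚ] ℝ).comp sb) =
            MvPolynomial.aeval (fun l => Fm h (x l) / h.det) := by
          refine MvPolynomial.algHom_ext fun l => ?_
          simp only [hsb, AlgHom.comp_apply, MvPolynomial.aeval_X, map_neg]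
          rw [h1, div_neg, neg_neg]
        exact DFunLike.congr_fun h3 P
      rw [h2, rel_all hr h hd, mul_zero]

end Pool.Agent.U787.LC
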