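import Mathlib
import Pool.Agent.R503.CSD.Bas

/-! # `n (n - 1)` free points -/

open Filter Topology Matrix

namespace Pool.Agent.U787.LC

open Pool.Agent.R503.CSD

/-- linearly independent functions have points with a nonsingular matrix of values -/
lemma exists_points {X ι : Type*} [Fintype ι] (g : ι → X → ℝ) (hg : LinearIndependent ℝ g) :
    ∃ x : Fin (Fintype.card ι) → X, ∀ c : Fin (Fintype.card ι) → ℝ,
      (∀ a, ∑ k, c k * g a (x k) = 0) → c = 0 := by
  classical
  set v : X → (ι → ℝ) := fun x a => g a x with hv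
  have hspan : Submodule.span ℝ (Set.range v) = ⊤ := by
    by_contra hne
    obtain ⟨f, hf, hf0⟩ := Submodule.exists_le_ker_of_lt_top _ (lt_top_iff_ne_top.2 hne)
    set w : ι → ℝ := fun a => f (Pi.single a 1) with hw
    have hfw : ∀ y : ι → ℝ, f y = ∑ a, y a * w a := by
      intro y
      have h0 : y = ∑ a, y a • (Pi.single a (1 : ℝ) : ι → ℝ) := by
        funext j
        simp [Finset.sum_apply, Pi.single_apply]
      conv_lhs => rw [h0]
      rw [map_sum]
      refine Finset.sum_congr rfl fun a _ => ?_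
      rw [map_smul, smul_eq_mul]
    have h1 : ∑ a, w a • g a = 0 := by
      funext x
      have h2 : f (v x) = 0 := hf0 (Submodule.subset_span ⟨x, rfl⟩)
      rw [hfw] at h2
      simp only [Finset.sum_apply, Pi.smul_apply, smul_eq_mul, Pi.zero_apply]
      rw [← h2]
      exact Finset.sum_congr rfl fun a _ => mul_comm _ _
    have h2 := Fintype.linearIndependent_iff.1 hg w h1
    apply hf
    refine LinearMap.ext fun y => ?_
    rw [hfw]
    simp [h2]
  obtain ⟨f, hf1, -, hf2⟩ := Submodule.exists_fun_fin_finrank_span_eq ℝ (Set.range v)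
  have hN : Module.finrank ℝ (Submodule.span ℝ (Set.range v)) = Fintype.card ι := by
    rw [hspan, finrank_top, Module.finrank_pi]
  choose y hy using hf1
  refine ⟨fun k => y (Fin.cast hN.symm k), fun c hc => ?_⟩
  have h1 : ∑ k, c (Fin.cast hN k) • f k = 0 := by
    funext a
    rw [Finset.sum_apply]
    simp only [Pi.smul_apply, smul_eq_mul, Pi.zero_apply]
    rw [← hc a]
    refine Fintype.sum_equiv (finCongr hN) _ _ fun k => ?_
    have h2 : f k a = g a (y k) := by rw [← hy k]
    simp [h2]
  have h2 := Fintype.linearIndependent_iff.1 hf2 _ h1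
  funext k
  have := h2 (Fin.cast hN.symm k)
  simpa using this

/-- the exponents -/
noncomputable def ex {n : ℕ} (a : Fin n × Fin n) : Fin n →₀ ℕ :=
  Finsupp.equivFunOnFinite.symm fun l => if l = a.1 then 0 else if l = a.2 then 2 else 1

lemma ex_inj {n : ℕ} {a b : Fin n × Fin n} (ha : a.1 ≠ a.2) (hb : b.1 ≠ b.2) (h : ex a = ex b) :
    a = b := by
  have h1 : ∀ l, (if l = a.1 then 0 else if l = a.2 then 2 else 1 : ℕ) =
      if l = b.1 then 0 else if l = b.2 then 2 else 1 := fun l => DFunLike.congr_fun h l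
  have e1 : a.1 = b.1 := by
    by_contra hne
    have h2 := h1 a.1
    rw [if_pos rfl, if_neg hne] at h2
    split_ifs at h2
  have e2 : a.2 = b.2 := by
    by_contra hne
    have h2 := h1 a.2
    rw [if_neg (Ne.symm ha), if_pos rfl, if_neg (by rw [← e1]; exact Ne.symm ha), if_neg hne] at h2
    omega
  exact Prod.ext e1 e2

theorem indep_fun (n : ℕ) : LinearIndependent ℝ
    (fun (a : {a : Fin n × Fin n // a.1 ≠ a.2}) (x : {x : Fin n → ℤ // ∀ i, x i ≠ 0}) =>
      (∏ l, (x.1 l : ℝ)) * ((x.1 a.1.2 : ℝ) / (x.1 a.1.1 : ℝ))) := by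
  classical
  rw [Fintype.linearIndependent_iff]
  intro c hc
  have hp : (∑ a : {a : Fin n × Fin n // a.1 ≠ a.2}, MvPolynomial.monomial (ex a.1) (c a)) = 0 := by
    refine MvPolynomial.funext_set (s := fun _ : Fin n => {t : ℝ | ∃ z : ℤ, z ≠ 0 ∧ (z : ℝ) = t})
      (fun _ => ?_) ?_
    · refine Set.infinite_of_injective_forall_mem (f := fun k : ℕ => ((k : ℝ) + 1)) ?_ ?_
      · intro a b hab
        have h1 : (a : ℝ) + 1 = (b : ℝ) + 1 := hab
        have h2 : (a : ℝ) = b := by linarith
        exact_mod_cast h2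
      · intro k
        exact ⟨(k : ℤ) + 1, by omega, by push_cast; ring⟩
    · intro t ht
      have ht' : ∀ i, ∃ z : ℤ, z ≠ 0 ∧ (z : ℝ) = t i := fun i => ht i (Set.mem_univ i)
      choose z hz hzt using ht'
      rw [map_sum, map_zero]
      have h1 := congrFun hc ⟨z, hz⟩
      simp only [Finset.sum_apply, Pi.smul_apply, smul_eq_mul, Pi.zero_apply] at h1
      rw [← h1]
      refine Finset.sum_congr rfl fun a _ => ?_
      rw [MvPolynomial.eval_monomial, Finsupp.prod_fintype _ _ (fun i => pow_zero _)]
      congr 1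
      have h2 : ∀ l, t l ^ (ex a.1 l) = (z l : ℝ) * ((if l = a.1.2 then (z l : ℝ) else 1) /
          (if l = a.1.1 then (z l : ℝ) else 1)) := by
        intro l
        have h3 : ex a.1 l = if l = a.1.1 then 0 else if l = a.1.2 then 2 else 1 := rfl
        have h4 : (z l : ℝ) ≠ 0 := by exact_mod_cast hz l
        rw [h3, ← hzt l]
        by_cases h5 : l = a.1.1
        · rw [if_pos h5, if_neg (by rw [h5]; exact a.2), if_pos h5, pow_zero]
          field_simp
        · by_cases h6 : l = a.1.2
          · rw [if_neg h5, if_pos h6, if_pos h6, if_neg h5]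
            ring
          · rw [if_neg h5, if_neg h6, if_neg h6, if_neg h5]
            ring
      rw [Finset.prod_congr rfl (fun l _ => h2 l), Finset.prod_mul_distrib, Finset.prod_div_distrib,
        Finset.prod_ite_eq', Finset.prod_ite_eq', if_pos (Finset.mem_univ _),
        if_pos (Finset.mem_univ _)]
  intro a
  have h1 := congrArg (MvPolynomial.coeff (ex a.1)) hp
  rw [MvPolynomial.coeff_sum, MvPolynomial.coeff_zero] at h1
  rw [← h1, Finset.sum_eq_single a]
  · rw [MvPolynomial.coeff_monomial, if_pos rfl]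
  · intro b _ hba
    rw [MvPolynomial.coeff_monomial, if_neg]
    intro h2
    exact hba (Subtype.ext (ex_inj b.2 a.2 h2))
  · intro h; exact absurd (Finset.mem_univ a) h

lemma card_pairs (n : ℕ) : Fintype.card {a : Fin n × Fin n // a.1 ≠ a.2} = n * (n - 1) := by
  classical
  have h1 := Finset.offDiag_card (Finset.univ : Finset (Fin n))
  rw [Fintype.card_subtype]
  have h2 : (Finset.univ.filter fun a : Fin n × Fin n => a.1 ≠ a.2) =
      (Finset.univ : Finset (Fin n)).offDiag := by
    ext a
    simp [Finset.mem_offDiag]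
  rw [h2, h1, Finset.card_univ, Fintype.card_fin, Nat.mul_sub, mul_one]

/-- there are `n (n - 1)` free points -/
theorem exists_free (n : ℕ) : ∃ x : Fin (n * (n - 1)) → Fin n → ℤ, Free x := by
  classical
  obtain ⟨x, hx⟩ := exists_points _ (indep_fun n)
  have hlf : ∀ (i : Fin n) (y : Fin n → ℤ), lf i y (fun i j => if i = j then (1 : ℝ) else 0) =
      y i := by
    intro i y
    unfold lf
    simp
  have hdt : dt (fun i j : Fin n => if i = j then (1 : ℝ) else 0) = 1 := by
    have h1 : Matrix.of (fun i j : Fin n => if i = j then (1 : ℝ) else 0) = 1 := by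
      ext i j
      rw [Matrix.of_apply, Matrix.one_apply]
    rw [dt, h1, Matrix.det_one]
  have key : Free (fun k => (x k).1) := by
    refine ⟨fun i j => if i = j then (1 : ℝ) else 0, by rw [hdt]; exact one_ne_zero,
      surj_of_ann (by rw [hdt]; exact one_ne_zero) (fun i k => ?_) fun c hc => hx c fun a => ?_⟩
    · rw [hlf]
      exact_mod_cast (x k).2 i
    · rw [← hc a.1.1 a.1.2 a.2]
      refine Finset.sum_congr rfl fun k _ => ?_
      rw [hlf, hlf, ratio, FV_eq, hdt, div_one]
      simp only [hlf]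
  rw [← card_pairs n]
  exact ⟨_, key⟩

end Pool.Agent.U787.LC
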