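import Mathlib
import Pool.Agent.R503.CSD.Bas

/-! # The limit values of a counterexample to Oppenheim's conjecture are thick -/

open Filter Topology Matrix Set

set_option linter.unusedSectionVars false

namespace Pool.Agent.U787.LC

open H715R2 Pool.Agent.Y327 Pool.Agent.R503.CSD

variable {d m : ℕ}

/-- the vectors of values of the elements of `M` -/
def FS (x : Fin m → Fin d → ℤ) (M : Set (Matrix (Fin d) (Fin d) ℝ)) : Set (Fin m → ℝ) :=
  {y | ∃ h : Fin d → Fin d → ℝ, Matrix.of h ∈ M ∧ FV x h = y}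

/-- the data of a minimal set of limits of a counterexample -/
structure DatG (ν : ℝ) (M : Set (Matrix (Fin d) (Fin d) ℝ)) (g : Matrix (Fin d) (Fin d) ℝ) :
    Prop where
  hd : 3 ≤ d
  hp : d.Prime
  hν : 0 < ν
  det : g.det ≠ 0
  nu : HasNu g ν
  hint : ¬ PropInt g
  hMg : M ⊆ closure (Orb g)
  hM : MinB id M

variable {ν : ℝ} {M : Set (Matrix (Fin d) (Fin d) ℝ)} {g : Matrix (Fin d) (Fin d) ℝ}

theorem thickG (D : DatG ν M g) {x : Fin m → Fin d → ℤ} (hfree : Free x)
    {V : Set (Fin m → ℝ)} (hV : IsOpen V) (hVc : IsPreconnected V) {φ : (Fin m → ℝ) → ℝ}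
    (hφ : AnalyticOnNhd ℝ φ V) (hne : (V ∩ FS x M).Nonempty)
    (hz : ∀ v ∈ V ∩ FS x M, φ v = 0) : ∀ v ∈ V, φ v = 0 := by
  obtain ⟨_, hy₁V, ⟨h₁, hh₁, rfl⟩⟩ := hne
  exact analytic_values D.hd D.hp D.det D.hν D.nu D.hint D.hMg D.hM hfree hV hVc hφ
    (fun h hh hhV => hz _ ⟨hhV, h, hh, rfl⟩) hh₁ hy₁V

/-- a limit vector which lies on none of countably many analytic hypersurfaces -/
theorem baireG (D : DatG ν M g) {x : Fin m → Fin d → ℤ} (hfree : Free x)
    {ι : Type*} [Countable ι] {V : ι → Set (Fin m → ℝ)} {φ : ι → (Fin m → ℝ) → ℝ}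
    (hV : ∀ n, IsOpen (V n)) (hVc : ∀ n, IsPreconnected (V n))
    (hφ : ∀ n, AnalyticOnNhd ℝ (φ n) (V n)) (hne : ∀ n, ∃ v ∈ V n, φ n v ≠ 0)
    {W : Set (Fin m → ℝ)} (hW : IsOpen W) (hWne : (W ∩ FS x M).Nonempty) :
    ∃ v ∈ W ∩ closure (FS x M), ∀ n, ¬ (v ∈ V n ∧ φ n v = 0) := by
  set P := closure (FS x M) with hP
  have hPc : IsClosed P := isClosed_closure
  have : CompleteSpace P := hPc.completeSpace_coe
  set Z : ι → Set P := fun n => {v : P | (v : Fin m → ℝ) ∈ V n ∧ φ n v = 0} with hZ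
  have hdense : ∀ n, Dense (closure (Z n))ᶜ := by
    intro n
    rw [dense_iff_inter_open]
    intro U hU hUne
    by_contra hcon
    rw [Set.not_nonempty_iff_eq_empty, Set.eq_empty_iff_forall_notMem] at hcon
    have hUZ : U ⊆ closure (Z n) := fun y hy => by
      by_contra h
      exact hcon y ⟨hy, h⟩
    obtain ⟨y₀, hy₀⟩ := hUne
    obtain ⟨y₁, hy₁U, hy₁Z⟩ := mem_closure_iff.1 (hUZ hy₀) U hU hy₀
    obtain ⟨U', hU', rfl⟩ := isOpen_induced_iff.1 hU
    obtain ⟨w, ⟨hwU, hwV⟩, hw⟩ := mem_closure_iff.1 y₁.2 (U' ∩ V n) (hU'.inter (hV n))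
      ⟨hy₁U, hy₁Z.1⟩
    obtain ⟨r, hr, hball⟩ := Metric.isOpen_iff.1 (hU'.inter (hV n)) w ⟨hwU, hwV⟩
    have h1 := thickG D hfree Metric.isOpen_ball (convex_ball w r).isPreconnected
      ((hφ n).mono fun y hy => (hball hy).2) ⟨w, Metric.mem_ball_self hr, hw⟩ (by
        rintro y ⟨hy1, hy2⟩
        by_contra hne'
        have hcy : ContinuousAt (φ n) y := (hφ n y (hball hy1).2).continuousAt
        have h2 : ∀ᶠ z in 𝓝 y, φ n z ≠ 0 := hcy.eventually_ne hne'
        have h3 : (⟨y, subset_closure hy2⟩ : P) ∈ closure (Z n) := hUZ (hball hy1).1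
        rw [mem_closure_iff_nhds] at h3
        obtain ⟨z, hz1, hz2⟩ := h3 _ (continuous_subtype_val.continuousAt.eventually h2)
        exact hz1 hz2.2)
    obtain ⟨z, hz, hz0⟩ := hne n
    refine hz0 ((hφ n).eqOn_zero_of_preconnected_of_eventuallyEq_zero (hVc n) hwV ?_ hz)
    filter_upwards [Metric.ball_mem_nhds w hr] with y hy
    exact h1 y hy
  have hD := dense_iInter_of_isOpen (fun n => (isClosed_closure (s := Z n)).isOpen_compl) hdense
  obtain ⟨y, hyW, hy⟩ := hWne
  obtain ⟨⟨v, hv⟩, hvW, hv2⟩ := hD.inter_open_nonempty (Subtype.val ⁻¹' W)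
    (hW.preimage continuous_subtype_val) ⟨⟨y, subset_closure hy⟩, hyW⟩
  refine ⟨v, ⟨hvW, hv⟩, fun n hn => ?_⟩
  exact Set.mem_iInter.1 hv2 n (subset_closure hn)

/-- algebraically independent limit values -/
theorem alg_indepG (D : DatG ν M g) {x : Fin m → Fin d → ℤ} (hfree : Free x)
    (k : Subfield ℝ) (hk : (k : Set ℝ).Countable)
    {W : Set (Fin m → ℝ)} (hW : IsOpen W) (hWne : (W ∩ FS x M).Nonempty) :
    ∃ v ∈ W ∩ closure (FS x M), AlgebraicIndependent k v := by
  have : Countable k := hk.to_subtype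
  have : Countable {p : MvPolynomial (Fin m) k // p ≠ 0} := by
    have : Countable (MvPolynomial (Fin m) k) := by
      rw [← Cardinal.mk_le_aleph0_iff]
      refine (MvPolynomial.cardinalMk_le_max (σ := Fin m) (R := k)).trans ?_
      refine max_le (max_le ?_ ?_) le_rfl
      · exact Cardinal.mk_le_aleph0_iff.2 inferInstance
      · exact Cardinal.mk_le_aleph0_iff.2 inferInstance
    infer_instance
  have hev : ∀ (p : MvPolynomial (Fin m) k) (v : Fin m → ℝ), MvPolynomial.aeval v p =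
      MvPolynomial.eval v (MvPolynomial.map (algebraMap k ℝ) p) := by
    intro p v
    rw [MvPolynomial.eval_map, MvPolynomial.aeval_def]
  obtain ⟨v, hv1, hv3⟩ := baireG D hfree (V := fun _ => Set.univ)
    (φ := fun (p : {p : MvPolynomial (Fin m) k // p ≠ 0}) v => MvPolynomial.aeval v p.1)
    (fun _ => isOpen_univ) (fun _ => isPreconnected_univ) (by
      intro p
      simp only [hev]
      exact AnalyticOnNhd.eval_mvPolynomial _) (by
      rintro ⟨p, hp⟩
      by_contra hcon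
      push Not at hcon
      have hinj : Function.Injective (MvPolynomial.map (σ := Fin m) (algebraMap k ℝ)) :=
        MvPolynomial.map_injective _ (algebraMap k ℝ).injective
      apply hp
      apply hinj
      rw [map_zero]
      refine MvPolynomial.funext ?_
      intro v
      rw [← hev, map_zero]
      exact hcon v (Set.mem_univ v)) hW hWne
  refine ⟨v, hv1, ?_⟩
  rw [algebraicIndependent_iff]
  intro p hp
  by_contra hne
  exact hv3 ⟨p, hne⟩ ⟨Set.mem_univ _, hp⟩

end Pool.Agent.U787.LC
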