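import Mathlib
import Pool.Agent.R503.CSD.Bas
import Pool.Agent.Y327.Sizes

/-! # The limit values of a counterexample at points which are full for the classes of indices -/

open Filter Topology Matrix Set

set_option linter.unusedSectionVars false

namespace Pool.Agent.U787.LD

open H715R2 Pool.Agent.Y327 Pool.Agent.R503.CSD

variable {d m : ℕ}

/-- the derivatives of the values in the directions of a class span everything -/
def Full (S : Fin d → Fin d → Prop) (x : Fin m → Fin d → ℤ) (h : Fin d → Fin d → ℝ) : Prop :=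
  (∀ i k, lf i (x k) h ≠ 0) ∧ ∀ c : Fin m → ℝ,
    (∀ i j, i ≠ j → S i j → ∑ k, c k * (FV x h k * (lf j (x k) h / lf i (x k) h)) = 0) → c = 0

/-- the data of a minimal set of limits of a form which is bounded away from zero -/
structure DatB (ν : ℝ) (M : Set (Matrix (Fin d) (Fin d) ℝ)) (g : Matrix (Fin d) (Fin d) ℝ) :
    Prop where
  hd : 3 ≤ d
  hν : 0 < ν
  det : g.det ≠ 0
  nu : HasNu g ν
  hMg : M ⊆ closure (Orb g)
  hM : MinB id M

variable {ν : ℝ} {M : Set (Matrix (Fin d) (Fin d) ℝ)} {g : Matrix (Fin d) (Fin d) ℝ}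

/-- all derivatives of a function of the values vanish -/
theorem flat_block (D : DatB ν M g) {h₁ : Matrix (Fin d) (Fin d) ℝ} (hh₁ : h₁ ∈ M)
    {x : Fin m → Fin d → ℤ} {W : Set (Fin d → Fin d → ℝ)} (hW : IsOpen W)
    (hfull : ∀ h ∈ W, Matrix.of h ∈ M → Full (Sam h₁) x h)
    {V : Set (Fin m → ℝ)} (hV : IsOpen V) {φ : (Fin m → ℝ) → ℝ} {r : WithTop ℕ∞}
    (hφ : ContDiffOn ℝ r φ V)
    (hz : ∀ h ∈ W, Matrix.of h ∈ M → FV x h ∈ V → φ (FV x h) = 0)
    (q : ℕ) (hq : (q : WithTop ℕ∞) ≤ r) :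
    ∀ h ∈ W, Matrix.of h ∈ M → FV x h ∈ V → iteratedFDeriv ℝ q φ (FV x h) = 0 := by
  have hMnu : ∀ h ∈ M, HasNu h ν := fun h hh => hasNu_closure D.nu (D.hMg hh)
  induction q with
  | zero =>
    intro h hhW hh hhV
    rw [← norm_eq_zero, norm_iteratedFDeriv_zero, norm_eq_zero]
    exact hz h hhW hh hhV
  | succ q ih =>
    intro h hhW hh hhV
    have ih' := ih (le_trans (by exact_mod_cast Nat.le_succ q) hq)
    have h1 : ContDiffAt ℝ r φ (FV x h) := hφ.contDiffAt (hV.mem_nhds hhV)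
    have h2 : ContDiffAt ℝ 1 (iteratedFDeriv ℝ q φ) (FV x h) := by
      refine h1.iteratedFDeriv_right ?_
      refine le_trans (le_of_eq ?_) hq
      push_cast
      rw [add_comm]
    have h3 := h2.hasStrictFDerivAt one_ne_zero
    have hF : HasStrictFDerivAt (FV x) (fderiv ℝ (FV x) h) h :=
      ((an_FV x h).contDiffAt (n := 1)).hasStrictFDerivAt one_ne_zero
    have h4 := h3.comp h hF
    have hev : ∀ᶠ h' : Fin d → Fin d → ℝ in 𝓝 h, Matrix.of h' ∈ M →
        ((iteratedFDeriv ℝ q φ) ∘ FV x) h' = 0 := by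
      have h5 := (an_FV x h).continuousAt.preimage_mem_nhds (hV.mem_nhds hhV)
      filter_upwards [h5, hW.mem_nhds hhW] with h' hh' hhW' hhM'
      exact ih' h' hhW' hhM' hh'
    obtain ⟨hlk, hann⟩ := hfull h hhW hh
    set w : {a : Fin d × Fin d // a.1 ≠ a.2 ∧ Sam h₁ a.1 a.2} → Fin m → ℝ := fun a k =>
      FV x h k * (lf a.1.2 (x k) h / lf a.1.1 (x k) h) with hw
    have hspan := zero_of_ann (w := w) (fun c hc => hann c
      (fun i j hij hs => hc ⟨(i, j), hij, hs⟩))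
    have h6 : fderiv ℝ (iteratedFDeriv ℝ q φ) (FV x h) = 0 := by
      refine ContinuousLinearMap.ext fun y => ?_
      have hy : y ∈ Submodule.span ℝ (Set.range w) := by rw [hspan]; trivial
      induction hy using Submodule.span_induction with
      | mem y hy =>
        obtain ⟨⟨⟨i, j⟩, hij, hs⟩, rfl⟩ := hy
        have h7 := strict_sam D.hd D.det D.hν D.nu D.hMg D.hM hh₁ hij hs hh h4 hev
        rw [ContinuousLinearMap.comp_apply, fv_dir x h (hlk i)] at h7
        exact h7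
      | zero => rw [map_zero, map_zero]
      | add y z _ _ hy hz => rw [map_add, hy, hz, map_add]
      | smul a y _ hy => rw [map_smul, hy, map_smul]
    have h7 : ‖fderiv ℝ (iteratedFDeriv ℝ q φ) (FV x h)‖ = 0 := by
      rw [h6]
      exact ContinuousLinearMap.opNorm_zero
    rw [norm_fderiv_iteratedFDeriv] at h7
    exact norm_eq_zero.1 h7

/-- an analytic function which vanishes at the values vanishes -/
theorem thick_block (D : DatB ν M g) {h₁ : Matrix (Fin d) (Fin d) ℝ} (hh₁ : h₁ ∈ M)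
    {x : Fin m → Fin d → ℤ} {W : Set (Fin d → Fin d → ℝ)} (hW : IsOpen W)
    (hfull : ∀ h ∈ W, Matrix.of h ∈ M → Full (Sam h₁) x h)
    {V : Set (Fin m → ℝ)} (hV : IsOpen V) (hVc : IsPreconnected V) {φ : (Fin m → ℝ) → ℝ}
    (hφ : AnalyticOnNhd ℝ φ V)
    (hz : ∀ h ∈ W, Matrix.of h ∈ M → FV x h ∈ V → φ (FV x h) = 0)
    {h₀ : Fin d → Fin d → ℝ} (hh₀W : h₀ ∈ W) (hh₀ : Matrix.of h₀ ∈ M) (hh₀V : FV x h₀ ∈ V) :
    ∀ v ∈ V, φ v = 0 := by
  have h1 : ∀ q : ℕ, iteratedFDeriv ℝ q φ (FV x h₀) = 0 := fun q =>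
    flat_block D hh₁ hW hfull hV (r := ⊤) (hφ.contDiffOn hV.uniqueDiffOn) hz q le_top h₀ hh₀W
      hh₀ hh₀V
  obtain ⟨p, r, hpr⟩ := hφ (FV x h₀) hh₀V
  have h2 : ∀ᶠ v in 𝓝 (FV x h₀), φ v = 0 := by
    filter_upwards [Metric.eball_mem_nhds (FV x h₀) hpr.r_pos] with v hv
    have h3 : v - FV x h₀ ∈ Metric.eball (0 : Fin m → ℝ) r := by
      rw [Metric.mem_eball] at hv ⊢
      rwa [edist_zero_right, ← edist_eq_enorm_sub]
    have h4 := hpr.hasSum_iteratedFDeriv h3
    simp only [h1, ContinuousMultilinearMap.zero_apply, smul_zero] at h4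
    rw [add_sub_cancel] at h4
    exact (h4.unique hasSum_zero)
  exact fun v hv => hφ.eqOn_zero_of_preconnected_of_eventuallyEq_zero hVc hh₀V h2 hv

/-- limits whose values lie on none of countably many analytic hypersurfaces -/
theorem baire_block (D : DatB ν M g) {h₁ : Matrix (Fin d) (Fin d) ℝ} (hh₁ : h₁ ∈ M)
    {x : Fin m → Fin d → ℤ} {W : Set (Fin d → Fin d → ℝ)} (hW : IsOpen W)
    (hfull : ∀ h ∈ W, Matrix.of h ∈ M → Full (Sam h₁) x h)
    {ι : Type*} [Countable ι] {V : ι → Set (Fin m → ℝ)} {φ : ι → (Fin m → ℝ) → ℝ}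
    (hV : ∀ n, IsOpen (V n)) (hVc : ∀ n, IsPreconnected (V n))
    (hφ : ∀ n, AnalyticOnNhd ℝ (φ n) (V n)) (hne : ∀ n, ∃ v ∈ V n, φ n v ≠ 0)
    {U : Set (Fin d → Fin d → ℝ)} (hU : IsOpen U)
    (hUne : ∃ h ∈ U, h ∈ W ∧ Matrix.of h ∈ M) :
    ∃ h ∈ U, h ∈ W ∧ Matrix.of h ∈ M ∧ ∀ n, ¬ (FV x h ∈ V n ∧ φ n (FV x h) = 0) := by
  set P : Set (Fin d → Fin d → ℝ) := {h | Matrix.of h ∈ M} with hP
  have hPc : IsClosed P := D.hM.closed
  have : CompleteSpace P := hPc.completeSpace_coe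
  have hFc : Continuous (FV x) := continuous_iff_continuousAt.2 fun h => (an_FV x h).continuousAt
  set Z : ι → Set P := fun n => {h : P | (h : Fin d → Fin d → ℝ) ∈ W ∧
    FV x (h : Fin d → Fin d → ℝ) ∈ V n ∧ φ n (FV x (h : Fin d → Fin d → ℝ)) = 0} with hZ
  have hdense : ∀ n, Dense (closure (Z n))ᶜ := by
    intro n
    rw [dense_iff_inter_open]
    intro O hO hOne
    by_contra hcon
    rw [Set.not_nonempty_iff_eq_empty, Set.eq_empty_iff_forall_notMem] at hcon
    have hOZ : O ⊆ closure (Z n) := fun y hy => by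
      by_contra h
      exact hcon y ⟨hy, h⟩
    obtain ⟨y₀, hy₀⟩ := hOne
    obtain ⟨y₁, hy₁O, hy₁W, hy₁V, hy₁Z⟩ := mem_closure_iff.1 (hOZ hy₀) O hO hy₀
    obtain ⟨O', hO', rfl⟩ := isOpen_induced_iff.1 hO
    set W' : Set (Fin d → Fin d → ℝ) := (O' ∩ W) ∩ FV x ⁻¹' (V n) with hW'
    have hW'o : IsOpen W' := (hO'.inter hW).inter ((hV n).preimage hFc)
    have hz : ∀ h ∈ W', Matrix.of h ∈ M → FV x h ∈ V n → φ n (FV x h) = 0 := by
      rintro h ⟨⟨hhO, hhW⟩, hhV⟩ hhM -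
      by_contra hne'
      have hcy : ContinuousAt (fun y : P => φ n (FV x (y : Fin d → Fin d → ℝ))) ⟨h, hhM⟩ := by
        have h1 : ContinuousAt (φ n) (FV x h) := (hφ n _ hhV).continuousAt
        have h2 : ContinuousAt (fun y : P => FV x (y : Fin d → Fin d → ℝ)) ⟨h, hhM⟩ :=
          (hFc.comp continuous_subtype_val).continuousAt
        exact ContinuousAt.comp (f := fun y : P => FV x (y : Fin d → Fin d → ℝ)) h1 h2
      have h3 : (⟨h, hhM⟩ : P) ∈ closure (Z n) := hOZ hhO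
      rw [mem_closure_iff_nhds] at h3
      obtain ⟨z, hz1, hz2⟩ := h3 _ (hcy.eventually_ne hne')
      exact hz1 hz2.2.2
    obtain ⟨z, hz1, hz0⟩ := hne n
    exact hz0 (thick_block D hh₁ hW'o (fun h hh hhM => hfull h hh.1.2 hhM) (hV n) (hVc n) (hφ n) hz
      ⟨⟨hy₁O, hy₁W⟩, hy₁V⟩ y₁.2 hy₁V z hz1)
  have hD := dense_iInter_of_isOpen (fun n => (isClosed_closure (s := Z n)).isOpen_compl) hdense
  obtain ⟨y, hyU, hyW, hyM⟩ := hUne
  obtain ⟨⟨v, hv⟩, ⟨hvU, hvW⟩, hv2⟩ := hD.inter_open_nonempty (Subtype.val ⁻¹' (U ∩ W))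
    ((hU.inter hW).preimage continuous_subtype_val) ⟨⟨y, hyM⟩, hyU, hyW⟩
  refine ⟨v, hvU, hvW, hv, fun n hn => ?_⟩
  exact Set.mem_iInter.1 hv2 n (subset_closure ⟨hvW, hn⟩)

/-- algebraically independent limit values -/
theorem alg_block (D : DatB ν M g) {h₁ : Matrix (Fin d) (Fin d) ℝ} (hh₁ : h₁ ∈ M)
    {x : Fin m → Fin d → ℤ} {W : Set (Fin d → Fin d → ℝ)} (hW : IsOpen W)
    (hfull : ∀ h ∈ W, Matrix.of h ∈ M → Full (Sam h₁) x h)
    (k : Subfield ℝ) (hk : (k : Set ℝ).Countable)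
    {U : Set (Fin d → Fin d → ℝ)} (hU : IsOpen U)
    (hUne : ∃ h ∈ U, h ∈ W ∧ Matrix.of h ∈ M) :
    ∃ h ∈ U, h ∈ W ∧ Matrix.of h ∈ M ∧ AlgebraicIndependent k (FV x h) := by
  have : Countable k := hk.to_subtype
  have : Countable {p : MvPolynomial (Fin m) k // p ≠ 0} := by
    have : Countable (MvPolynomial (Fin m) k) := by
      rw [← Cardinal.mk_le_aleph0_iff]
      refine (MvPolynomial.cardinalMk_le_max (σ := Fin m) (R := k)).trans ?_
      refine max_le (max_le ?_ ?_) le_rfl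
      · exact Cardinal.mk_le_aleph0_iff.2 inferInstance
      · exact Cardinal.mk_le_aleph0_iff.2 inferInstance
    infer_instance
  have hev : ∀ (p : MvPolynomial (Fin m) k) (v : Fin m → ℝ), MvPolynomial.aeval v p =
      MvPolynomial.eval v (MvPolynomial.map (algebraMap k ℝ) p) := by
    intro p v
    rw [MvPolynomial.eval_map, MvPolynomial.aeval_def]
  obtain ⟨h, hhU, hhW, hhM, hh⟩ := baire_block D hh₁ hW hfull (V := fun _ => Set.univ)
    (φ := fun (p : {p : MvPolynomial (Fin m) k // p ≠ 0}) v => MvPolynomial.aeval v p.1)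
    (fun _ => isOpen_univ) (fun _ => isPreconnected_univ) (by
      intro p
      simp only [hev]
      exact AnalyticOnNhd.eval_mvPolynomial _) (by
      rintro ⟨p, hp⟩
      by_contra hcon
      push Not at hcon
      have hinj : Function.Injective (MvPolynomial.map (σ := Fin m) (algebraMap k ℝ)) :=
        MvPolynomial.map_injective _ (algebraMap k ℝ).injective
      apply hp
      apply hinj
      rw [map_zero]
      refine MvPolynomial.funext ?_
      intro v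
      rw [← hev, map_zero]
      exact hcon v (Set.mem_univ v)) hU hUne
  refine ⟨h, hhU, hhW, hhM, ?_⟩
  rw [algebraicIndependent_iff]
  intro p hp
  by_contra hne
  exact hh ⟨p, hne⟩ ⟨Set.mem_univ _, hp⟩

end Pool.Agent.U787.LD
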