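import Mathlib
import Pool.Agent.U787.LC2
import Pool.Agent.U787.LD1

/-! # Full points -/

open Filter Topology Matrix Set

set_option linter.unusedSectionVars false

namespace Pool.Agent.U787.LD

open H715R2 Pool.Agent.Y327 Pool.Agent.R503.CSD Pool.Agent.U787.LC

variable {d : ℕ}

/-- the pairs of different indices of a class -/
abbrev Pr (S : Fin d → Fin d → Prop) := {a : Fin d × Fin d // a.1 ≠ a.2 ∧ S a.1 a.2}

/-- the functions `F l j / l i` of an integer point are linearly independent -/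
theorem indep_fun_gen {h : Matrix (Fin d) (Fin d) ℝ} (hh : h.det ≠ 0)
    (hl : ∀ (y : Fin d → ℤ) (i : Fin d), y ≠ 0 → lf i y h ≠ 0) (hd : 0 < d)
    (S : Fin d → Fin d → Prop) : LinearIndependent ℝ
    (fun (a : Pr S) (x : {x : Fin d → ℤ // ∀ i, x i ≠ 0}) =>
      (∏ l, lf l x.1 h) * (lf a.1.2 x.1 h / lf a.1.1 x.1 h)) := by
  classical
  rw [Fintype.linearIndependent_iff]
  intro c hc
  set Q : MvPolynomial (Fin d) ℝ :=
    ∑ a : Pr S, MvPolynomial.monomial (ex a.1) (c a) with hQ
  set Q' : MvPolynomial (Fin d) ℝ := MvPolynomial.bind₁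
    (fun l => ∑ j, MvPolynomial.C (h l j) * MvPolynomial.X j) Q with hQ'
  have hev : ∀ z : Fin d → ℝ, MvPolynomial.eval z Q' =
      MvPolynomial.eval (fun l => ∑ j, h l j * z j) Q := by
    intro z
    rw [hQ', MvPolynomial.eval, MvPolynomial.eval₂Hom_bind₁]
    congr 1
    congr 1
    funext l
    rw [map_sum]
    refine Finset.sum_congr rfl fun j _ => ?_
    rw [map_mul]
    simp
  have hQ'0 : Q' = 0 := by
    refine MvPolynomial.funext_set (s := fun _ : Fin d => {t : ℝ | ∃ z : ℤ, z ≠ 0 ∧ (z : ℝ) = t})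
      (fun _ => ?_) ?_
    · refine Set.infinite_of_injective_forall_mem (f := fun k : ℕ => ((k : ℝ) + 1)) ?_ ?_
      · intro a b hab
        have h1 : (a : ℝ) + 1 = (b : ℝ) + 1 := hab
        have h2 : (a : ℝ) = b := by linarith
        exact_mod_cast h2
      · intro k
        exact ⟨(k : ℤ) + 1, by omega, by push_cast; ring⟩
    · intro t ht
      have ht' : ∀ i, ∃ z : ℤ, z ≠ 0 ∧ (z : ℝ) = t i := fun i => ht i (Set.mem_univ i)
      choose z hz hzt using ht'
      have hz0 : z ≠ 0 := by
        intro h0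
        exact hz ⟨0, hd⟩ (congrFun h0 _)
      rw [map_zero, hev]
      have h0 : (fun l => ∑ j, h l j * t j) = fun l => lf l z h := by
        funext l
        unfold lf
        exact Finset.sum_congr rfl fun j _ => by rw [hzt]
      rw [h0, hQ, map_sum]
      have h1 := congrFun hc ⟨z, hz⟩
      simp only [Finset.sum_apply, Pi.smul_apply, smul_eq_mul, Pi.zero_apply] at h1
      rw [← h1]
      refine Finset.sum_congr rfl fun a _ => ?_
      rw [MvPolynomial.eval_monomial, Finsupp.prod_fintype _ _ (fun i => pow_zero _)]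
      congr 1
      have h2 : ∀ l, lf l z h ^ (ex a.1 l) = lf l z h * ((if l = a.1.2 then lf l z h else 1) /
          (if l = a.1.1 then lf l z h else 1)) := by
        intro l
        have h3 : ex a.1 l = if l = a.1.1 then 0 else if l = a.1.2 then 2 else 1 := rfl
        have h4 : lf l z h ≠ 0 := hl z l hz0
        rw [h3]
        by_cases h5 : l = a.1.1
        · rw [if_pos h5, if_neg (by rw [h5]; exact a.2.1), if_pos h5, pow_zero]
          field_simp
        · by_cases h6 : l = a.1.2
          · rw [if_neg h5, if_pos h6, if_pos h6, if_neg h5]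
            ring
          · rw [if_neg h5, if_neg h6, if_neg h6, if_neg h5]
            ring
      rw [Finset.prod_congr rfl (fun l _ => h2 l), Finset.prod_mul_distrib, Finset.prod_div_distrib,
        Finset.prod_ite_eq', Finset.prod_ite_eq', if_pos (Finset.mem_univ _),
        if_pos (Finset.mem_univ _)]
  have hp : Q = 0 := by
    refine MvPolynomial.funext fun t => ?_
    have hu : IsUnit h.det := isUnit_iff_ne_zero.2 hh
    have h1 : t = fun l => ∑ j, h l j * (h⁻¹ *ᵥ t) j := by
      have h2 : h *ᵥ (h⁻¹ *ᵥ t) = t := by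
        rw [Matrix.mulVec_mulVec, Matrix.mul_nonsing_inv _ hu, Matrix.one_mulVec]
      conv_lhs => rw [← h2]
      rfl
    rw [h1, ← hev, hQ'0, map_zero, map_zero]
  intro a
  have h1 := congrArg (MvPolynomial.coeff (ex a.1)) hp
  rw [hQ, MvPolynomial.coeff_sum, MvPolynomial.coeff_zero] at h1
  rw [← h1, Finset.sum_eq_single a]
  · rw [MvPolynomial.coeff_monomial, if_pos rfl]
  · intro b _ hba
    rw [MvPolynomial.coeff_monomial, if_neg]
    intro h2
    exact hba (Subtype.ext (ex_inj b.2.1 a.2.1 h2))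
  · intro h; exact absurd (Finset.mem_univ a) h

/-- near an element of the minimal set some points are full -/
theorem exists_full {h : Matrix (Fin d) (Fin d) ℝ} (hh : h.det ≠ 0)
    (hl : ∀ (y : Fin d → ℤ) (i : Fin d), y ≠ 0 → lf i y h ≠ 0) (hd : 0 < d)
    (S : Fin d → Fin d → Prop) {N : ℕ} (hN : Nat.card (Pr S) = N) :
    ∃ x : Fin N → Fin d → ℤ, ∀ᶠ h' : Fin d → Fin d → ℝ in 𝓝 (h : Fin d → Fin d → ℝ),
      Full S x h' := by
  classical
  obtain rfl : Fintype.card (Pr S) = N := by rw [← hN, Nat.card_eq_fintype_card]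
  obtain ⟨x, hx⟩ := exists_points _ (indep_fun_gen hh hl hd S)
  have hx0 : ∀ k, (x k).1 ≠ 0 := by
    intro k h0
    exact (x k).2 ⟨0, hd⟩ (congrFun h0 _)
  set e : Pr S ≃ Fin (Fintype.card (Pr S)) := Fintype.equivFin _ with he
  refine ⟨fun k => (x k).1, ?_⟩
  have hlc : ∀ (i : Fin d) (y : Fin d → ℤ), Continuous (lf i y) := by
    intro i y
    unfold lf
    exact continuous_finsetSum _ fun j _ => (continuous_apply_apply i j).mul continuous_const
  have h1 : ∀ᶠ h' : Fin d → Fin d → ℝ in 𝓝 (h : Fin d → Fin d → ℝ), ∀ i k,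
      lf i (x k).1 h' ≠ 0 := by
    refine Filter.eventually_all.2 fun i => Filter.eventually_all.2 fun k => ?_
    exact ((hlc i (x k).1).tendsto _).eventually_ne (hl _ _ (hx0 k))
  set G : (Fin d → Fin d → ℝ) → Matrix (Fin (Fintype.card (Pr S))) (Fin (Fintype.card (Pr S))) ℝ :=
    fun h' => Matrix.of fun k a => FV (fun k => (x k).1) h' k *
      (lf (e.symm a).1.2 (x k).1 h' / lf (e.symm a).1.1 (x k).1 h') with hG
  have hGc : ContinuousAt G (h : Fin d → Fin d → ℝ) := by
    refine continuousAt_pi.2 fun k => continuousAt_pi.2 fun a => ?_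
    refine ContinuousAt.mul ?_ ?_
    · exact (an_FVk _ k _).continuousAt
    · exact (hlc _ _).continuousAt.div (hlc _ _).continuousAt (hl _ _ (hx0 k))
  have hker : ∀ (h' : Fin d → Fin d → ℝ) (c : Fin (Fintype.card (Pr S)) → ℝ),
      (c ᵥ* G h' = 0 ↔ ∀ i j, i ≠ j → S i j → ∑ k, c k * (FV (fun k => (x k).1) h' k *
        (lf j (x k).1 h' / lf i (x k).1 h')) = 0) := by
    intro h' c
    constructor
    · intro h0 i j hij hs
      have h2 := congrFun h0 (e ⟨(i, j), hij, hs⟩)
      rw [Matrix.vecMul, dotProduct] at h2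
      simpa [hG] using h2
    · intro h0
      funext a
      rw [Matrix.vecMul, dotProduct]
      exact h0 _ _ (e.symm a).2.1 (e.symm a).2.2
  have hdet : (G (h : Fin d → Fin d → ℝ)).det ≠ 0 := by
    intro h0
    obtain ⟨c, hc0, hc⟩ := Matrix.exists_vecMul_eq_zero_iff.2 h0
    apply hc0
    refine hx c fun a => ?_
    have h2 := (hker _ c).1 hc a.1.1 a.1.2 a.2.1 a.2.2
    exact h2
  have h2 : ∀ᶠ h' : Fin d → Fin d → ℝ in 𝓝 (h : Fin d → Fin d → ℝ), (G h').det ≠ 0 := by
    have hdc : ContinuousAt (fun h' => (G h').det) (h : Fin d → Fin d → ℝ) :=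
      ContinuousAt.comp (f := G) (g := Matrix.det)
        (Continuous.matrix_det continuous_id).continuousAt hGc
    exact hdc.eventually_ne hdet
  filter_upwards [h1, h2] with h' h3 h4
  refine ⟨fun i k => h3 i k, fun c hc => ?_⟩
  by_contra hne
  exact h4 (Matrix.exists_vecMul_eq_zero_iff.1 ⟨c, hne, (hker h' c).2 hc⟩)

end Pool.Agent.U787.LD
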