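import Mathlib
import Pool.Agent.U787.LD2

/-! # The number of algebraically independent limit values -/

open Filter Topology Matrix Set

set_option linter.unusedSectionVars false

namespace Pool.Agent.U787.LD

open H715R2 Pool.Agent.Y327 Pool.Agent.R503.CSD Pool.Agent.U787.LC

/-- more quotients than variables are algebraically dependent -/
theorem exists_rel_gen {K : Type} [Field K] [Algebra K ℝ] {ι : Type} [Fintype ι] {m : ℕ}
    (hm : Fintype.card ι < m) (D : MvPolynomial ι K) (hD : D ≠ 0) (f : Fin m → MvPolynomial ι K) :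
    ∃ P : MvPolynomial (Fin m) K, P ≠ 0 ∧ ∀ u : ι → ℝ, MvPolynomial.aeval u D ≠ 0 →
      MvPolynomial.aeval (fun a => MvPolynomial.aeval u (f a) / MvPolynomial.aeval u D) P = 0 := by
  classical
  have : IsDomain (Localization.Away D) :=
    IsLocalization.isDomain_localization (powers_le_nonZeroDivisors_of_noZeroDivisors hD)
  have hinj : Function.Injective (algebraMap (MvPolynomial ι K) (Localization.Away D)) :=
    IsLocalization.injective _ (powers_le_nonZeroDivisors_of_noZeroDivisors hD)
  have : FaithfulSMul (MvPolynomial ι K) (Localization.Away D) :=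
    (faithfulSMul_iff_algebraMap_injective _ _).2 hinj
  have : Algebra.IsAlgebraic (MvPolynomial ι K) (Localization.Away D) :=
    IsLocalization.isAlgebraic _ (Submonoid.powers D)
  have htr : Algebra.trdeg K (Localization.Away D) = Fintype.card ι := by
    have h1 := trdeg_add_eq K (MvPolynomial ι K) (A := Localization.Away D)
    rw [trdeg_eq_zero (R := MvPolynomial ι K) (A := Localization.Away D), add_zero,
      MvPolynomial.trdeg_of_isDomain] at h1
    rw [← h1]
    simp
  set rr : Fin m → Localization.Away D := fun a =>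
    IsLocalization.mk' (Localization.Away D) (f a) (⟨D, 1, pow_one _⟩ : Submonoid.powers D)
    with hrr
  obtain ⟨P, hP0, hP⟩ : ∃ P : MvPolynomial (Fin m) K, P ≠ 0 ∧ MvPolynomial.aeval rr P = 0 := by
    have h : ¬ AlgebraicIndependent K rr := by
      intro h
      have h1 := h.cardinalMk_le_trdeg
      rw [htr, Cardinal.mk_fin] at h1
      have h2 : m ≤ Fintype.card ι := by exact_mod_cast h1
      omega
    rw [algebraicIndependent_iff] at h
    push Not at h
    obtain ⟨P, hP, hne⟩ := h
    exact ⟨P, hne, hP⟩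
  refine ⟨P, hP0, fun u hu => ?_⟩
  have hf : ∀ y : Submonoid.powers D,
      IsUnit ((MvPolynomial.aeval u : MvPolynomial ι K →ₐ[K] ℝ) y) := by
    rintro ⟨_, n, rfl⟩
    rw [map_pow]
    exact (isUnit_iff_ne_zero.2 hu).pow n
  set θ : Localization.Away D →ₐ[K] ℝ :=
    IsLocalization.liftAlgHom (M := Submonoid.powers D) (S := Localization.Away D) hf with hθ
  have h1 : ∀ a, θ (rr a) = MvPolynomial.aeval u (f a) / MvPolynomial.aeval u D := by
    intro a
    rw [eq_div_iff hu]
    have h2 : θ (algebraMap _ (Localization.Away D) D) = MvPolynomial.aeval u D := by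
      rw [hθ, IsLocalization.liftAlgHom_apply, IsLocalization.lift_eq]
      rfl
    rw [← h2, ← map_mul, mul_comm, hrr]
    rw [IsLocalization.mk'_spec' (M := Submonoid.powers D) (Localization.Away D) (f a)
      ⟨D, 1, pow_one _⟩]
    rw [hθ, IsLocalization.liftAlgHom_apply, IsLocalization.lift_eq]
    rfl
  have h2 := congrArg θ hP
  rw [map_zero] at h2
  have h3 : θ.comp (MvPolynomial.aeval rr) = MvPolynomial.aeval
      (fun a => MvPolynomial.aeval u (f a) / MvPolynomial.aeval u D) := by
    refine MvPolynomial.algHom_ext fun a => ?_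
    rw [AlgHom.comp_apply, MvPolynomial.aeval_X, MvPolynomial.aeval_X, h1]
  rw [← h3, AlgHom.comp_apply, h2]

variable {d : ℕ}

/-- a permutation which is compatible with a nonsingular matrix -/
lemma exists_perm {B : Matrix (Fin d) (Fin d) ℝ} (hB : B.det ≠ 0) :
    ∃ π : Equiv.Perm (Fin d), ∀ i, B i (π i) ≠ 0 := by
  classical
  rw [Matrix.det_apply] at hB
  obtain ⟨σ, -, hσ⟩ := Finset.exists_ne_zero_of_sum_ne_zero hB
  have h1 : ∏ i, B (σ i) i ≠ 0 := by
    intro h0
    rw [h0, smul_zero] at hσ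
    exact hσ rfl
  refine ⟨σ⁻¹, fun i => ?_⟩
  have h2 := Finset.prod_ne_zero_iff.1 h1 (σ⁻¹ i) (Finset.mem_univ _)
  simpa using h2

/-- the product at `m` vectors with entries in `K`, for a matrix with the pattern `S` -/
theorem dep_of_pattern (K : Subfield ℝ) {S : Fin d → Fin d → Prop} {s : ℕ}
    (hs : ∀ i, Nat.card {j // S i j} = s) {B : Matrix (Fin d) (Fin d) ℝ}
    (hBS : ∀ i j, ¬ S i j → B i j = 0) (hB : |B.det| = 1) {m : ℕ}
    (hm : d * (s - 1) < m) (y : Fin m → Fin d → ℝ) (hy : ∀ a j, y a j ∈ K) :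
    ¬ AlgebraicIndependent K (fun a => FF B (y a)) := by
  classical
  have hB0 : B.det ≠ 0 := by
    rw [← abs_ne_zero, hB]
    exact one_ne_zero
  obtain ⟨π, hπ⟩ := exists_perm hB0
  have hSπ : ∀ i, S i (π i) := fun i => by
    by_contra hn
    exact hπ i (hBS i _ hn)
  set ι := {a : Fin d × Fin d // S a.1 a.2 ∧ a.2 ≠ π a.1} with hι
  have hcard : Fintype.card ι = d * (s - 1) := by
    have e : ι ≃ Σ i : Fin d, {j : Fin d // S i j ∧ j ≠ π i} :=
      { toFun := fun a => ⟨a.1.1, a.1.2, a.2⟩
        invFun := fun b => ⟨(b.1, b.2.1), b.2.2⟩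
        left_inv := fun _ => rfl
        right_inv := fun _ => rfl }
    rw [Fintype.card_congr e, Fintype.card_sigma]
    have h1 : ∀ i : Fin d, Fintype.card {j : Fin d // S i j ∧ j ≠ π i} = s - 1 := by
      intro i
      have h2 := hs i
      rw [Nat.card_eq_fintype_card, Fintype.card_subtype] at h2
      rw [Fintype.card_subtype]
      have h3 : (Finset.univ.filter fun j => S i j ∧ j ≠ π i) =
          (Finset.univ.filter fun j => S i j).erase (π i) := by
        ext j
        simp only [Finset.mem_filter, Finset.mem_univ, true_and, Finset.mem_erase]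
        tauto
      rw [h3, Finset.card_erase_of_mem (by simp [hSπ i]), h2]
    simp only [h1]
    rw [Finset.sum_const, Finset.card_univ, Fintype.card_fin, smul_eq_mul]
  set Um : Matrix (Fin d) (Fin d) (MvPolynomial ι K) := Matrix.of fun i j =>
    if h : S i j ∧ j ≠ π i then MvPolynomial.X ⟨(i, j), h⟩ else if j = π i then 1 else 0 with hUm
  set u : ι → ℝ := fun a => B a.1.1 a.1.2 / B a.1.1 (π a.1.1) with hu
  have hent : ∀ i j, MvPolynomial.aeval u (Um i j) = B i j / B i (π i) := by
    intro i j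
    simp only [hUm, Matrix.of_apply]
    by_cases h1 : S i j ∧ j ≠ π i
    · rw [dif_pos h1, MvPolynomial.aeval_X]
    · rw [dif_neg h1]
      by_cases h2 : j = π i
      · rw [if_pos h2, map_one, h2, div_self (hπ i)]
      · rw [if_neg h2, map_zero, hBS i j (fun hS => h1 ⟨hS, h2⟩), zero_div]
  set c : ℝ := ∏ i, B i (π i) with hc
  have hc0 : c ≠ 0 := Finset.prod_ne_zero_iff.2 fun i _ => hπ i
  have hBe : ∀ i j, B i j = B i (π i) * (B i j / B i (π i)) := fun i j => by
    have := hπ i
    field_simp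
  have hdet : B.det = c * MvPolynomial.aeval u Um.det := by
    rw [AlgHom.map_det, hc, ← Matrix.det_mul_column]
    congr 1
    ext i j
    rw [Matrix.of_apply, AlgHom.mapMatrix_apply, Matrix.map_apply, hent]
    exact hBe i j
  have hD0 : MvPolynomial.aeval u Um.det ≠ 0 := fun h0 => hB0 (by rw [hdet, h0, mul_zero])
  set f : Fin m → MvPolynomial ι K := fun a =>
    ∏ i, ∑ j, Um i j * MvPolynomial.C (⟨y a j, hy a j⟩ : K) with hf
  have hfa : ∀ a, FF B (y a) = c * MvPolynomial.aeval u (f a) := by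
    intro a
    rw [hf, hc, map_prod, ← Finset.prod_mul_distrib, FF]
    refine Finset.prod_congr rfl fun i _ => ?_
    rw [map_sum, Finset.mul_sum]
    refine Finset.sum_congr rfl fun j _ => ?_
    rw [map_mul, hent, MvPolynomial.aeval_C]
    have h1 : (algebraMap K ℝ) (⟨y a j, hy a j⟩ : K) = y a j := rfl
    rw [h1, ← mul_assoc, ← hBe]
  obtain ⟨P, hP0, hP⟩ := exists_rel_gen (K := K) (by rw [hcard]; exact hm) Um.det
    (fun h0 => hD0 (by rw [h0, map_zero])) f
  have hP1 := hP u hD0
  have hq : (fun a => MvPolynomial.aeval u (f a) / MvPolynomial.aeval u Um.det) =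
      fun a => FF B (y a) / B.det := by
    funext a
    rw [hfa, hdet, mul_div_mul_left _ _ hc0]
  rw [hq] at hP1
  intro hind
  rw [algebraicIndependent_iff] at hind
  rcases (abs_eq (zero_le_one' ℝ)).1 hB with h1 | h1
  · rw [h1] at hP1
    simp only [div_one] at hP1
    exact hP0 (hind P hP1)
  · set sb : MvPolynomial (Fin m) K →ₐ[K] MvPolynomial (Fin m) K :=
      MvPolynomial.aeval (fun l => - MvPolynomial.X l) with hsb
    have hsbsb : ∀ (Q : MvPolynomial (Fin m) K), sb (sb Q) = Q := by
      intro Q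
      have h1 : sb.comp sb = AlgHom.id K _ := by
        refine MvPolynomial.algHom_ext fun l => ?_
        simp only [hsb, AlgHom.comp_apply, MvPolynomial.aeval_X, map_neg, neg_neg, AlgHom.id_apply]
      exact DFunLike.congr_fun h1 Q
    have h2 : MvPolynomial.aeval (fun a => FF B (y a)) (sb P) =
        MvPolynomial.aeval (fun a => FF B (y a) / B.det) P := by
      have h3 : ((MvPolynomial.aeval (fun a => FF B (y a)) : MvPolynomial (Fin m) K →ₐ[K] ℝ).comp
          sb) = MvPolynomial.aeval (fun a => FF B (y a) / B.det) := by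
        refine MvPolynomial.algHom_ext fun l => ?_
        simp only [hsb, AlgHom.comp_apply, MvPolynomial.aeval_X, map_neg]
        rw [h1, div_neg, div_one]
      exact DFunLike.congr_fun h3 P
    have h4 := hind (sb P) (by rw [h2]; exact hP1)
    exact hP0 (by rw [← hsbsb P, h4, map_zero])

variable {ν : ℝ} {M : Set (Matrix (Fin d) (Fin d) ℝ)} {g : Matrix (Fin d) (Fin d) ℝ}

/-- the field generated by the entries -/
noncomputable def entf (h : Matrix (Fin d) (Fin d) ℝ) : Subfield ℝ :=
  Subfield.closure (Set.range fun e : Fin d × Fin d => h e.1 e.2)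

lemma countable_entf (h : Matrix (Fin d) (Fin d) ℝ) : (entf h : Set ℝ).Countable := by
  have h1 : Cardinal.mk (entf h) ≤ Cardinal.aleph0 := by
    refine (Subfield.cardinalMk_closure_le_max _).trans (max_le ?_ le_rfl)
    exact Cardinal.mk_le_aleph0_iff.2 (Set.countable_range _).to_subtype
  exact Set.countable_coe_iff.1 (Cardinal.mk_le_aleph0_iff.1 h1)

/-- the limit values are dependent -/
theorem upper (D : DatB ν M g) {h₀ : Matrix (Fin d) (Fin d) ℝ} (hh₀ : h₀ ∈ M) {s : ℕ}
    (hs : ∀ i, Nat.card {j // Sam h₀ i j} = s) {h : Fin d → Fin d → ℝ} (hh : Matrix.of h ∈ M)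
    {m : ℕ} (hm : d * (s - 1) < m) (x : Fin m → Fin d → ℤ) :
    ¬ AlgebraicIndependent (entf h₀) (FV x h) := by
  classical
  have hV : 0 < |g.det| := abs_pos.2 D.det
  have hMdet : ∀ h ∈ M, |h.det| = |g.det| := fun h hh => abs_det_closure (D.hMg hh)
  have hcl : closure (Orb (Matrix.of h)) = M := closure_orb_eq D.hM.closed (inv_of_invB D.hM.inv)
    (fun Z hZ hZc hZn hZi => D.hM.min Z hZ hZc hZn (invB_of_inv hZi id)) hh
  have hpat := local_pattern hV hMdet D.hM hh₀
  rw [eventually_nhdsWithin_iff] at hpat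
  obtain ⟨O, hO, hOo, hOh⟩ := eventually_nhds_iff.1 hpat
  obtain ⟨h', hh'O, hh'⟩ := mem_closure_iff.1 (by rw [hcl]; exact hh₀ :
    h₀ ∈ closure (Orb (Matrix.of h))) O hOo hOh
  have hh'M : h' ∈ M := by rw [← hcl]; exact subset_closure hh'
  have hblk := hO h' hh'O hh'M
  obtain ⟨a, γ, ha0, ha1, hγ, hh'e⟩ := hh'
  have hdet0 : IsUnit h₀.det := by
    rw [isUnit_iff_ne_zero, ← abs_ne_zero, hMdet _ hh₀, abs_ne_zero]
    exact D.det
  set B := h' * h₀⁻¹ with hB
  have hBdet : |B.det| = 1 := by
    rw [hB, Matrix.det_mul, Matrix.det_nonsing_inv, Ring.inverse_eq_inv', abs_mul, abs_inv,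
      hMdet _ hh'M, hMdet _ hh₀, mul_inv_cancel₀ hV.ne']
  have hBh : B * h₀ = h' := by
    rw [hB, Matrix.mul_assoc, Matrix.nonsing_inv_mul _ hdet0, Matrix.mul_one]
  have hy : ∀ (b : Fin m) (j : Fin d), (h₀ *ᵥ iR (γ⁻¹ *ᵥ x b)) j ∈ entf h₀ := by
    intro b j
    rw [Matrix.mulVec, dotProduct]
    refine sum_mem fun l _ => mul_mem ?_ (intCast_mem _ _)
    exact Subfield.subset_closure ⟨(j, l), rfl⟩
  have h1 := dep_of_pattern (entf h₀) hs hblk hBdet hm _ hy
  have h2 : (fun b => FF B (h₀ *ᵥ iR (γ⁻¹ *ᵥ x b))) = FV x h := by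
    funext b
    rw [← FF_mul, hBh, hh'e, FF_orb ha1, Matrix.mulVec_mulVec, Matrix.mul_nonsing_inv _ hγ,
      Matrix.one_mulVec]
    rfl
  rw [h2] at h1
  exact h1

end Pool.Agent.U787.LD
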